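import Pool.Agent.T2h13.AF.Few
import Pool.Agent.N277.SX.GT

/-!
The base of the fibration of the image.
-/

set_option autoImplicit false
set_option linter.overlappingInstances false
set_option linter.unusedSectionVars false
set_option maxHeartbeats 4000000
set_option synthInstance.maxHeartbeats 400000

open FF Pool.Agent.W603.LV Pool.Agent.Y184.NT Pool.Agent.N162.BC IntermediateField Polynomial
open Pool.Agent.W602.GT Pool.Agent.W619.PQ Pool.Agent.Y172
open Pool.Agent.N145.SX (HX SepX)
open Module (finrank)

namespace Pool.Agent.T2h13.AF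

theorem finrank_le_of_deg {Z E : Type} [Field Z] [Field E] [Algebra Z E] [CharZero Z]
    [Algebra.EssFiniteType Z E] {d : ℕ}
    (h : ∀ e : E, IsIntegral Z e ∧ (minpoly Z e).natDegree ≤ d) :
    FiniteDimensional Z E ∧ finrank Z E ≤ d := by
  have halg : Algebra.IsAlgebraic Z E := ⟨fun e => (h e).1.isAlgebraic⟩
  have hfin : FiniteDimensional Z E := by
    obtain ⟨s, hs⟩ := IntermediateField.fg_top Z E
    have h1 : FiniteDimensional Z (IntermediateField.adjoin Z (s : Set E)) :=
      IntermediateField.finiteDimensional_adjoin fun x _ => (halg.isAlgebraic x).isIntegral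
    rw [hs] at h1
    exact h1.equiv IntermediateField.topEquiv.toLinearEquiv
  refine ⟨hfin, ?_⟩
  obtain ⟨α, hα⟩ := Field.exists_primitive_element Z E
  have h1 : finrank Z E = (minpoly Z α).natDegree := by
    rw [← IntermediateField.adjoin.finrank (h α).1, hα]
    exact (IntermediateField.topEquiv (F := Z) (E := E)).toLinearEquiv.finrank_eq.symm
  rw [h1]
  exact (h α).2

section

variable {K : Type} [Field K] [Algebra ℂ K] {L : Type} [Field L] [Algebra ℂ L] [Algebra L K]
  [IsScalarTower ℂ L K]

/-- the base of the image -/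
noncomputable def base (L : Type) [Field L] [Algebra ℂ L] [Algebra L K] [IsScalarTower ℂ L K]
    (E : IntermediateField ℂ K) : IntermediateField ℂ L :=
  E.comap (IsScalarTower.toAlgHom ℂ L K)

theorem mem_base {E : IntermediateField ℂ K} {z : L} : z ∈ base L E ↔ algebraMap L K z ∈ E :=
  Iff.rfl

/-- the inclusion of the base of the image in the base -/
noncomputable def baseInc (L : Type) [Field L] [Algebra ℂ L] [Algebra L K] [IsScalarTower ℂ L K]
    (E : IntermediateField ℂ K) : base L E →+* E where
  toFun z := ⟨algebraMap L K z, z.2⟩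
  map_one' := Subtype.ext (map_one _)
  map_mul' _ _ := Subtype.ext (map_mul _ _ _)
  map_zero' := Subtype.ext (map_zero _)
  map_add' _ _ := Subtype.ext (map_add _ _ _)

/-- a monic polynomial all of whose roots are in a subfield has its coefficients there -/
theorem coeff_mem_of_roots {Ω : Type} [Field Ω] [IsAlgClosed Ω] {F0 : Type} [Field F0]
    [Algebra F0 Ω] (N : IntermediateField F0 Ω) {p : Polynomial Ω} (hp : p.Monic)
    (h : ∀ a, p.IsRoot a → a ∈ N) (i : ℕ) : p.coeff i ∈ N := by
  have h1 : p = (p.roots.map fun a => X - C a).prod :=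
    (IsAlgClosed.splits p).eq_prod_roots_of_monic hp
  have h2 : p ∈ Polynomial.lifts (algebraMap N Ω) := by
    rw [h1]
    refine Subsemiring.multiset_prod_mem _ _ fun q hq => ?_
    rw [Multiset.mem_map] at hq
    obtain ⟨a, ha, rfl⟩ := hq
    have h3 : a ∈ N := h a ((Polynomial.mem_roots hp.ne_zero).1 ha)
    refine ⟨X - C (⟨a, h3⟩ : N), ?_⟩
    simp
  rw [Polynomial.lifts_iff_coeff_lifts] at h2
  obtain ⟨b, hb⟩ := h2 i
  rw [← hb]
  exact b.2

variable [Algebra.EssFiniteType ℂ K] {n r : ℕ} [FiniteDimensional L K]

/-- **The minimal polynomials over the image.** -/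
theorem coeff_base {E : IntermediateField ℂ K}
    (hcl : ∀ z : K, IsAlgebraic E z → z ∈ E) {x : Fin n → E}
    (hsep : ∀ (σ : IntermediateField.adjoin L (E : Set K) →ₐ[L] AlgebraicClosure K) (e : K)
      (he : e ∈ E), IsAlgebraic (IntermediateField.adjoin ℂ (Set.range fun j => (x j : K)))
        (σ ⟨e, IntermediateField.subset_adjoin L _ he⟩))
    {e : K} (he : e ∈ E) (i : ℕ) : (minpoly L e).coeff i ∈ base L E := by
  have halg : Algebra.IsAlgebraic L (IntermediateField.adjoin L (E : Set K)) := inferInstance
  let e' : IntermediateField.adjoin L (E : Set K) := ⟨e, IntermediateField.subset_adjoin L _ he⟩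
  have hmin : minpoly L e' = minpoly L e :=
    (minpoly.algebraMap_eq (algebraMap (IntermediateField.adjoin L (E : Set K)) K).injective
      e').symm
  have hint : IsIntegral L e := Algebra.IsIntegral.isIntegral e
  have h1 : ∀ a, ((minpoly L e).map (algebraMap L (AlgebraicClosure K))).IsRoot a →
      a ∈ algebraicClosure (IntermediateField.adjoin ℂ (Set.range fun j => (x j : K)))
        (AlgebraicClosure K) := by
    intro a ha
    have h2 : a ∈ (minpoly L e').rootSet (AlgebraicClosure K) := by
      rw [hmin, Polynomial.mem_rootSet]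
      refine ⟨minpoly.ne_zero hint, ?_⟩
      rw [Polynomial.IsRoot.def, Polynomial.eval_map] at ha
      exact ha
    rw [← Algebra.IsAlgebraic.range_eval_eq_rootSet_minpoly] at h2
    obtain ⟨σ, rfl⟩ := h2
    exact mem_algebraicClosure_iff.2 (hsep σ e he)
  have h2 := coeff_mem_of_roots _ ((minpoly.monic hint).map _) h1 i
  rw [Polynomial.coeff_map, mem_algebraicClosure_iff] at h2
  rw [mem_base]
  apply hcl
  have hF0E : IntermediateField.adjoin ℂ (Set.range fun j => (x j : K)) ≤ E := by
    rw [IntermediateField.adjoin_le_iff]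
    rintro _ ⟨j, rfl⟩
    exact (x j).2
  have h3 : IsAlgebraic (IntermediateField.adjoin ℂ (Set.range fun j => (x j : K)))
      (algebraMap L K ((minpoly L e).coeff i)) := by
    rw [IsScalarTower.algebraMap_apply L K (AlgebraicClosure K)] at h2
    exact (isAlgebraic_algebraMap_iff (algebraMap K (AlgebraicClosure K)).injective).1 h2
  exact h3.ringHom_of_comp_eq (IntermediateField.inclusion hF0E).toRingHom (RingHom.id K)
    (IntermediateField.inclusion hF0E).injective (by ext z; rfl)

/-- **The structure of the image.** -/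
theorem str {E : IntermediateField ℂ K} [Algebra.EssFiniteType ℂ E]
    (hE : Algebra.trdeg ℂ E = n) (hcl : ∀ z : K, IsAlgebraic E z → z ∈ E) {x : Fin n → E}
    (hx : IsTranscendenceBasis ℂ x) {g : ℕ} (hS : SepX x (fun _ => False) g)
    (hg : 2 * finrank L (IntermediateField.adjoin L (E : Set K)) < g)
    (hsep : ∀ (σ : IntermediateField.adjoin L (E : Set K) →ₐ[L] AlgebraicClosure K) (e : K)
      (he : e ∈ E), IsAlgebraic (IntermediateField.adjoin ℂ (Set.range fun j => (x j : K)))
        (σ ⟨e, IntermediateField.subset_adjoin L _ he⟩)) :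
    (∀ z : L, IsAlgebraic (base L E) z → z ∈ base L E) ∧
      Algebra.trdeg ℂ (base L E) = n ∧ (∀ e ∈ E, IsAlgebraic (base L E) (e : K)) ∧
      KodGe ℂ (base L E) n (fun _ => False) n := by
  classical
  let iA : Algebra (base L E) E := (baseInc L E).toAlgebra
  have hT1 : IsScalarTower ℂ (base L E) E := IsScalarTower.of_algebraMap_eq fun c =>
    Subtype.ext (IsScalarTower.algebraMap_apply ℂ L K c)
  -- the degrees
  have hdeg : ∀ e : E, IsIntegral (base L E) e ∧ (minpoly (base L E) e).natDegree ≤
      finrank L (IntermediateField.adjoin L (E : Set K)) := by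
    intro e
    have hint : IsIntegral L (e : K) := Algebra.IsIntegral.isIntegral _
    have hmonic := minpoly.monic hint
    have hlift : minpoly L (e : K) ∈ Polynomial.lifts (algebraMap (base L E) L) := by
      rw [Polynomial.lifts_iff_coeff_lifts]
      intro i
      exact ⟨⟨_, coeff_base hcl hsep e.2 i⟩, rfl⟩
    obtain ⟨q, hq, hqd, hqm⟩ := Polynomial.lifts_and_natDegree_eq_and_monic hlift hmonic
    have h0 : Polynomial.aeval e q = 0 := by
      apply Subtype.ext
      have h1 : ((Polynomial.aeval e q : E) : K) = Polynomial.aeval (e : K) (minpoly L (e : K)) := by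
        rw [← hq, Polynomial.aeval_def, Polynomial.aeval_def, Polynomial.eval₂_map]
        change E.val.toRingHom _ = _
        rw [Polynomial.hom_eval₂]
        rfl
      rw [h1, minpoly.aeval]
      rfl
    refine ⟨⟨q, hqm, h0⟩, ?_⟩
    have h1 : (minpoly (base L E) e).natDegree ≤ q.natDegree :=
      Polynomial.natDegree_le_of_dvd (minpoly.dvd _ _ h0) hqm.ne_zero
    refine h1.trans ?_
    rw [hqd]
    have hfd : FiniteDimensional L (IntermediateField.adjoin L (E : Set K)) := inferInstance
    have h2 := minpoly.natDegree_le (A := L)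
      (⟨e, IntermediateField.subset_adjoin L _ e.2⟩ : IntermediateField.adjoin L (E : Set K))
    have hmin : minpoly L (⟨e, IntermediateField.subset_adjoin L _ e.2⟩ :
        IntermediateField.adjoin L (E : Set K)) = minpoly L (e : K) :=
      (minpoly.algebraMap_eq (algebraMap (IntermediateField.adjoin L (E : Set K)) K).injective
        _).symm
    rwa [hmin] at h2
  have hess : Algebra.EssFiniteType (base L E) E := Algebra.EssFiniteType.of_comp ℂ (base L E) E
  have hcZ : CharZero (base L E) := charZero_of_injective_algebraMap (algebraMap ℂ _).injective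
  obtain ⟨hfin, hrank⟩ := finrank_le_of_deg hdeg
  have halg : Algebra.IsAlgebraic (base L E) E := inferInstance
  have htr : Algebra.trdeg ℂ (base L E) = n := Pool.Agent.Y184.NT.trdeg_below (K := E) hE
  refine ⟨fun z hz => ?_, htr, fun e he => ?_, ?_⟩
  · rw [mem_base]
    apply hcl
    have h1 : IsAlgebraic (base L E) (algebraMap L K z) := hz.algebraMap
    exact h1.ringHom_of_comp_eq (baseInc L E) (RingHom.id K) (baseInc L E).injective
      (by ext z; rfl)
  · have h1 := halg.isAlgebraic (⟨e, he⟩ : E)
    have h2 : IsScalarTower (base L E) E K := IsScalarTower.of_algebraMap_eq fun z => rfl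
    exact h1.algebraMap
  · exact Pool.Agent.N277.SX.GT (base L E) E n hE x hx g hS (by omega)

/-- **The structure of the image for few forms.** -/
theorem str_few (hp : StPull) (hK : Algebra.trdeg ℂ K = (n + r : ℕ)) {E : IntermediateField ℂ K}
    [Algebra.EssFiniteType ℂ E] (hE : Algebra.trdeg ℂ E = n)
    (hcl : ∀ z : K, IsAlgebraic E z → z ∈ E) {x : Fin n → E}
    (hx : IsTranscendenceBasis ℂ x) {g h : ℕ} (hS : SepX x (fun _ => False) g) (hh : 1 ≤ h)
    (hg : (h + 1) * finrank L (IntermediateField.adjoin L (E : Set K)) < g)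
    (hfew : FewForms E r h) :
    (∀ z : L, IsAlgebraic (base L E) z → z ∈ base L E) ∧
      Algebra.trdeg ℂ (base L E) = n ∧ (∀ e ∈ E, IsAlgebraic (base L E) (e : K)) ∧
      KodGe ℂ (base L E) n (fun _ => False) n := by
  refine str hE hcl hx hS (lt_of_le_of_lt (Nat.mul_le_mul_right _ (by omega)) hg) ?_
  exact fun σ e he => sep2 hp hK hE hx hS hg hfew σ e he

end

end Pool.Agent.T2h13.AF
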