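import Pool.Agent.T2h13.AF.Ab7
import Pool.Agent.T2h13.AF.Str
import Pool.Agent.Y172.Dim3
import Pool.Agent.N999.SX.FG

/-!
The Kodaira dimension and the numerical dimension of the pairs which are dominated by a fibration with
fibres of numerical dimension zero.
-/

set_option autoImplicit false
set_option linter.overlappingInstances false
set_option linter.unusedSectionVars false
set_option maxHeartbeats 4000000
set_option synthInstance.maxHeartbeats 400000

open FF Pool.Agent.W603.LV Pool.Agent.W602.GT Pool.Agent.W619.PQ Pool.Agent.Y172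
open Pool.Agent.Y184.NT (StPull)
open Pool.Agent.N145.SX (SepX)
open Module (finrank)

namespace Pool.Agent.T2h13.AF

section

variable {K : Type} [Field K] [Algebra ℂ K] [Algebra.EssFiniteType ℂ K] {n r : ℕ}
  {L : Type} [Field L] [Algebra ℂ L] [Algebra.EssFiniteType ℂ L] [Algebra L K]
  [IsScalarTower ℂ L K] [FiniteDimensional L K] {N' : ℕ} {y : Fin (N' + 1) → L}
  {Z : Type} [Field Z] [Algebra ℂ Z] [Algebra.EssFiniteType ℂ Z] [Algebra Z L]
  [Algebra Z K] [IsScalarTower ℂ Z L] [IsScalarTower ℂ Z K] [IsScalarTower Z L K]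

/-- **The dimensions.** -/
theorem abund (hr : 1 ≤ r) (hK : Algebra.trdeg ℂ K = (n + r : ℕ)) (hZ : Algebra.trdeg ℂ Z = n)
    {E : IntermediateField ℂ K} (hE : Algebra.trdeg ℂ E = n)
    (hZE : ∀ z : Z, algebraMap Z K z ∈ E) (hEZ : ∀ e ∈ E, IsAlgebraic Z e)
    (hcl : ∀ z : L, IsAlgebraic Z z → ∃ w : Z, algebraMap Z L w = z)
    (hk : KodGe ℂ Z n (fun _ => False) n)
    {Γ : Place E K → ℚ} (hν : NuLeZero E r Γ) {N : ℕ} (hN : 1 ≤ N)
    {φ : (Fin r → Derivation E K K) → K} (hφ : FolForm E (n + r) r N Γ φ) (hφ0 : φ ≠ 0)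
    (hy : NormalModel y) {Δ : Place ℂ L → ℚ} (hΔ : Effective y Δ)
    (hH : HorLe E r (n + r) Γ y Δ) :
    (Tame E y Δ r N φ ∧ kodairaDim y (n + r) Δ = (n : WithBot ℕ) ∧
      ∀ A, Effective y A → Integral y A → numericalDim y (n + r) Δ A = (n : EReal)) ∨
    (¬ Tame E y Δ r N φ ∧ kodairaDim y (n + r) Δ = ⊥ ∧
      ∀ A, Effective y A → numericalDim y (n + r) Δ A = ⊥) := by
  by_cases hT : Tame E y Δ r N φ
  · refine Or.inl ⟨hT, ?_⟩
    have hL : Algebra.trdeg ℂ L = (n + r : ℕ) := Pool.Agent.Y184.NT.trdeg_below (K := K) hK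
    obtain ⟨x0, E0, hx0, hE0⟩ := exists_crd hL
    have hfr0 : IsFrame E0 := fun D =>
      ⟨_, (Pool.Agent.W73.PG.PULL.expand _ hx0 E0 hE0 D).symm⟩
    obtain ⟨m0, hm0, ω, hω, D, hD, hind⟩ := lower hK hZ hE hZE hEZ hy hΔ hk hN hφ hφ0 hT
    exact dims hΔ hfr0 (fun A hA => upper_fib hr hK hZ hE hZE hEZ hcl hν hy hΔ hA hH hx0 hE0)
      hm0 hω hD hind
  · refine Or.inr ⟨hT, ?_⟩
    have key : ∀ A, Effective y A → kodairaDim y (n + r) Δ = ⊥ ∧
        numericalDim y (n + r) Δ A = ⊥ := by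
      intro A hA
      refine not_psef hA fun hcon => ?_
      obtain ⟨m1, hm1⟩ := no_sections hr hK hE hν hy hA hH hN hφ hT
      obtain ⟨m', hm', s', hs', hs0⟩ := hcon m1
      exact hs0 (hm1 m' hm' s' hs')
    have hzero : Effective y (0 : Place ℂ L → ℚ) :=
      ⟨fun _ _ => le_rfl, Set.finite_empty.subset (by rintro P ⟨-, h⟩; exact h rfl)⟩
    exact ⟨(key 0 hzero).1, fun A hA => (key A hA).2⟩

end

section

variable {K : Type} [Field K] [Algebra ℂ K] [Algebra.EssFiniteType ℂ K] {n r : ℕ}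
  {L : Type} [Field L] [Algebra ℂ L] [Algebra L K] [IsScalarTower ℂ L K] [FiniteDimensional L K]
  {N' : ℕ} {y : Fin (N' + 1) → L}

/-- **Abundance.** -/
theorem abund_few (hp : StPull) (hr : 1 ≤ r) (hK : Algebra.trdeg ℂ K = (n + r : ℕ))
    {E : IntermediateField ℂ K} (hE : Algebra.trdeg ℂ E = n)
    (hcl : ∀ z : K, IsAlgebraic E z → z ∈ E) {x : Fin n → E} (hx : IsTranscendenceBasis ℂ x)
    {g h : ℕ} (hS : SepX x (fun _ => False) g) (hh : 1 ≤ h)
    (hg : (h + 1) * finrank L (IntermediateField.adjoin L (E : Set K)) < g)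
    (hfew : FewForms E r h) {Γ : Place E K → ℚ} (hν : NuLeZero E r Γ) {N : ℕ} (hN : 1 ≤ N)
    {φ : (Fin r → Derivation E K K) → K} (hφ : FolForm E (n + r) r N Γ φ) (hφ0 : φ ≠ 0)
    (hy : NormalModel y) {Δ : Place ℂ L → ℚ} (hΔ : Effective y Δ)
    (hH : HorLe E r (n + r) Γ y Δ) :
    (Tame E y Δ r N φ ∧ kodairaDim y (n + r) Δ = (n : WithBot ℕ) ∧
      ∀ A, Effective y A → Integral y A → numericalDim y (n + r) Δ A = (n : EReal)) ∨
    (¬ Tame E y Δ r N φ ∧ kodairaDim y (n + r) Δ = ⊥ ∧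
      ∀ A, Effective y A → numericalDim y (n + r) Δ A = ⊥) := by
  have hessE : Algebra.EssFiniteType ℂ E := Pool.Agent.N999.SX.ess_any E
  have hessL : Algebra.EssFiniteType ℂ L := hy.ess
  obtain ⟨h1, h2, h3, h4⟩ := str_few (L := L) hp hK hE hcl hx hS hh hg hfew
  have hessZ : Algebra.EssFiniteType ℂ (base L E) := Pool.Agent.N999.SX.ess_any (base L E)
  exact abund (Z := base L E) hr hK h2 hE (fun z => z.2) h3 (fun z hz => ⟨⟨z, h1 z hz⟩, rfl⟩) h4
    hν hN hφ hφ0 hy hΔ hH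

end

end Pool.Agent.T2h13.AF
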