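import Pool.Agent.T2h13.AF.Few

/-!
Almost homogeneous generic fibres have few forms.
-/

set_option autoImplicit false
set_option linter.overlappingInstances false
set_option linter.unusedSectionVars false
set_option maxHeartbeats 4000000
set_option synthInstance.maxHeartbeats 400000

open FF IntermediateField Pool.Agent.W619.PQ MvPolynomial Pool.Agent.W619.TW
open Pool.Agent.W602.GT (Divisorial DerReg)

namespace Pool.Agent.T2h13.AF

section

variable {K : Type} [Field K] [Algebra ℂ K]

theorem AlmostHom.top' {E : IntermediateField ℂ K} {r N : ℕ} {z : Fin (N + 1) → K}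
    {U : Fin r → Derivation E K K} (h : AlmostHom E z U) (i : Fin (N + 1)) :
    IntermediateField.adjoin E (Set.range fun j => z j / z i) = ⊤ := by
  rw [_root_.eq_top_iff, ← h.top, IntermediateField.adjoin_le_iff]
  rintro _ ⟨j, rfl⟩
  have h1 : z j / z 0 = (z j / z i) / (z 0 / z i) := by
    have := h.ne i
    have := h.ne 0
    field_simp
  change z j / z 0 ∈ _
  rw [h1]
  exact div_mem (IntermediateField.subset_adjoin E _ ⟨j, rfl⟩)
    (IntermediateField.subset_adjoin E _ ⟨0, rfl⟩)

variable [Algebra.EssFiniteType ℂ K] {n r : ℕ}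

theorem trdeg_fib (hK : Algebra.trdeg ℂ K = (n + r : ℕ)) {E : IntermediateField ℂ K}
    (hE : Algebra.trdeg ℂ E = n) : Algebra.trdeg E K = r := by
  have h1 := trdeg_add_eq ℂ E (A := K)
  rw [hK, hE] at h1
  have h2 : Algebra.trdeg E K < Cardinal.aleph0 := by
    by_contra h3
    push Not at h3
    have h4 : Cardinal.aleph0 ≤ ((n + r : ℕ) : Cardinal) := by
      rw [← h1]
      exact h3.trans (le_add_of_nonneg_left zero_le)
    exact absurd h4 (not_le.2 Cardinal.natCast_lt_aleph0)
  obtain ⟨m, hm⟩ := Cardinal.lt_aleph0.1 h2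
  rw [hm] at h1 ⊢
  have h5 : n + m = n + r := by exact_mod_cast h1
  have h6 : m = r := by omega
  rw [h6]

/-- **The values of the forms on the vector fields of the model are constant.** -/
theorem val_const (hK : Algebra.trdeg ℂ K = (n + r : ℕ)) {E : IntermediateField ℂ K}
    [Algebra.EssFiniteType ℂ E] (hE : Algebra.trdeg ℂ E = n)
    (hcl : ∀ z : K, IsAlgebraic E z → z ∈ E) {N : ℕ} {z : Fin (N + 1) → K}
    {U : Fin r → Derivation E K K} (hM : AlmostHom E z U) {q : ℕ}
    {φ : (Derivation E K K) [⋀^Fin q]→ₗ[K] K} (hφ : RegForm E r φ) (a : Fin q → Fin r) :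
    φ (fun p => U (a p)) ∈ E := by
  have hcE : CharZero E := charZero_of_injective_algebraMap (algebraMap ℂ E).injective
  have hess : Algebra.EssFiniteType E K := Algebra.EssFiniteType.of_comp ℂ E K
  have htr : Algebra.trdeg E K = (0 + r : ℕ) := by
    rw [Nat.zero_add]
    exact trdeg_fib hK hE
  have hfin : ∀ y : Fin (0 + r) → K, IsTranscendenceBasis E y →
      FiniteDimensional (IntermediateField.adjoin E (Set.range y)) K :=
    fun y hy => Pool.Agent.W619.Y.fin_over y hy
  have ht : AlgebraicIndependent E (Fin.elim0 : Fin 0 → K) := by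
    rw [algebraicIndependent_empty_type_iff]
    exact (algebraMap E K).injective
  have h1 : IsAlgebraic (IntermediateField.adjoin E (Set.range (Fin.elim0 : Fin 0 → K)))
      (φ fun p => U (a p)) := by
    refine alg_of_reg htr hfin ht fun w hw => ?_
    obtain ⟨i, hi⟩ := Finite.exists_min fun i => w.ord (z i)
    obtain ⟨y, hch⟩ := Pool.Agent.Y173.QA.exists_chart htr ht
      (Set.finite_range fun j => z j / z i) (hM.top' i)
    have hyw : ∀ l, w.Reg (y l) := by
      intro l
      have h1 := hch.mem l
      generalize y l = f at h1 ⊢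
      induction h1 using Algebra.adjoin_induction with
      | mem y hy =>
        obtain ⟨j, rfl⟩ := hy
        right
        change 0 ≤ w.ord (z j / z i)
        rw [w.ord_div (hM.ne j) (hM.ne i)]
        have := hi j
        linarith
      | algebraMap c => exact Or.inr (Pool.Agent.Y173.QA.ord_base hw c.2).ge
      | add y y' _ _ hy hy' => exact w.reg_add hy hy'
      | mul y y' _ _ hy hy' => exact w.reg_mul hy hy'
    refine Pool.Agent.Y173.QA.hartogs hch.bas (hfin _ hch.bas) (fun p hp hpv P hP => ?_) hw hyw
    obtain ⟨l0, hl0⟩ := Pool.Agent.Y173.QA.exists_of_not_vert hpv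
    obtain ⟨h2, h3, -⟩ := Pool.Agent.Y173.QA.hor htr hfin hch (hM.top' i) (U := U)
      (fun _ j => j.elim0) (fun a b hb => by
        obtain ⟨j, rfl⟩ := hb
        exact hM.reg a i j) hp hl0 hP
    rw [Nat.zero_add] at h2
    exact hφ P h2 _ fun p => h3 (a p)
  apply hcl
  have h2 : IntermediateField.adjoin E (Set.range (Fin.elim0 : Fin 0 → K)) = ⊥ := by
    rw [Set.range_eq_empty, IntermediateField.adjoin_empty]
  rw [h2] at h1
  have h3 := h1.ringHom_of_comp_eq (IntermediateField.botEquiv E K).toRingEquiv.toRingHom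
    (RingHom.id K) (IntermediateField.botEquiv E K).injective (by
      ext y
      obtain ⟨c, hc⟩ := IntermediateField.mem_bot.1 y.2
      have h4 : y = algebraMap E (⊥ : IntermediateField E K) c := Subtype.ext hc.symm
      rw [h4]
      change algebraMap E K (IntermediateField.botEquiv E K (algebraMap E _ c)) = _
      rw [IntermediateField.botEquiv_def]
      rfl)
  exact h3

/-- **Almost homogeneous fibres have few forms.** -/
theorem few_of_hom (hK : Algebra.trdeg ℂ K = (n + r : ℕ)) {E : IntermediateField ℂ K}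
    [Algebra.EssFiniteType ℂ E] (hE : Algebra.trdeg ℂ E = n)
    (hcl : ∀ z : K, IsAlgebraic E z → z ∈ E) {N : ℕ} {z : Fin (N + 1) → K}
    {U : Fin r → Derivation E K K} (hM : AlmostHom E z U) : FewForms E r 1 := by
  refine ⟨U, hM.lin, fun q a _ φ hφ hlin => ?_⟩
  have h0 := val_const hK hE hcl hM (hφ 0) a
  have h1 := val_const hK hE hcl hM (hφ 1) a
  have hne := hlin.ne_zero 1
  have h2 := Fintype.linearIndependent_iff.1 hlin
    ![(⟨_, h1⟩ : E), -⟨_, h0⟩] (by
      rw [Fin.sum_univ_two]
      simp only [Matrix.cons_val_zero, Matrix.cons_val_one]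
      change (φ 1 fun p => U (a p)) * (φ 0 fun p => U (a p)) +
        (-(φ 0 fun p => U (a p))) * (φ 1 fun p => U (a p)) = 0
      ring) 0
  simp only [Matrix.cons_val_zero] at h2
  exact hne (congrArg (fun y : E => (y : K)) h2)

/-- **Generic fibres with small Hodge numbers `h^(q,0)` have few forms.** -/
theorem few_of_forms (hK : Algebra.trdeg ℂ K = (n + r : ℕ)) {E : IntermediateField ℂ K}
    (hE : Algebra.trdeg ℂ E = n) {h : ℕ}
    (hf : ∀ (q : ℕ), 0 < q → ∀ φ : Fin (h + 1) → (Derivation E K K) [⋀^Fin q]→ₗ[K] K,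
      (∀ i, RegForm E r (φ i)) → ¬ LinearIndependent E φ) : FewForms E r h := by
  have hcE : CharZero E := charZero_of_injective_algebraMap (algebraMap ℂ E).injective
  have htr := trdeg_fib hK hE
  obtain ⟨y, U, hy, hU⟩ := Pool.Agent.Y172.exists_crd htr
  refine ⟨U, ?_, fun q a hq φ hφ hlin => hf q hq φ hφ ?_⟩
  · rw [Fintype.linearIndependent_iff]
    intro c hc i
    have h1 := DFunLike.congr_fun hc (y i)
    rw [der_sum_app, Finset.sum_eq_single i] at h1
    · rw [Derivation.smul_apply, hU, if_pos rfl, smul_eq_mul, mul_one] at h1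
      exact h1
    · intro b _ hb
      rw [Derivation.smul_apply, hU, if_neg hb, smul_zero]
    · intro h
      exact absurd (Finset.mem_univ _) h
  · rw [Fintype.linearIndependent_iff] at hlin ⊢
    intro c hc i
    refine hlin c ?_ i
    have h1 := DFunLike.congr_fun hc fun p => U (a p)
    have h2 : ∀ (s : Finset (Fin (h + 1))), (∑ i ∈ s, c i • φ i) (fun p => U (a p)) =
        ∑ i ∈ s, c i • φ i fun p => U (a p) := by
      intro s
      induction s using Finset.induction_on with
      | empty => simp
      | insert i s hi ih =>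
        rw [Finset.sum_insert hi, Finset.sum_insert hi, AlternatingMap.add_apply, ih]
        rfl
    rw [h2] at h1
    exact h1

end

end Pool.Agent.T2h13.AF
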