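import Pool.Agent.W602.GT.Defs

/-!
Fibrations whose generic fibre, with a boundary, has numerical dimension zero.

`K` and `E ⊆ K` are the function fields of the total space `W` and of the base `V` of a dominant
rational map `W ⇢ V` with fibres of dimension `r`; `F` is the generic fibre, a variety over the field
`E` with the function field `K`, and `Derivation E K K` are its rational vector fields. The boundary is
given by its multiplicities `Γ v` along all prime divisors `v` over `F`.
-/

set_option autoImplicit false

open FF Pool.Agent.W602.GT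

namespace Pool.Agent.T2h13.AF

section

variable {K : Type} [Field K] [Algebra ℂ K]

/-- `ω` is a section of `m (K_F + Γ) + A`, where `A` is the divisor on `F` which is generated by the
finite set `S` of functions: an `m`-fold canonical form whose values on the vector fields which are
regular along a prime divisor `v` over `F` are zero, or of order at least `v(s) - m Γ v` for some
nonzero `s` in `S`. -/
def FibSec (E : IntermediateField ℂ K) (r : ℕ) (Γ : Place E K → ℚ) (S : Finset K) (m : ℕ)
    (ω : (Fin r → Derivation E K K) → K) : Prop :=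
  IsPluri m ω ∧ ∀ v : Place E K, Divisorial r v → ∀ D : Fin r → Derivation E K K,
    (∀ a, DerReg v (D a)) → ω D = 0 ∨ ∃ s ∈ S, s ≠ 0 ∧ (v.ord s : ℚ) - m * Γ v ≤ v.ord (ω D)

/-- `ν (K_F + Γ) ≤ 0`: for every divisor `A` on `F`, the dimension of the space of the sections of
`m (K_F + Γ) + A` over the ground field `E` of `F` is bounded for `m ≥ 1`. -/
def NuLeZero (E : IntermediateField ℂ K) (r : ℕ) (Γ : Place E K → ℚ) : Prop :=
  ∀ S : Finset K, ∃ C : ℕ, ∀ (m k : ℕ) (ω : Fin k → (Fin r → Derivation E K K) → K), 1 ≤ m →
    (∀ i, FibSec E r Γ S m (ω i)) → LinearIndependent E ω → k ≤ C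

/-- `φ` is a global section of `N (K_G + Γ)` on `W`, where `G` is the foliation on `W` by the fibres
of `W ⇢ V` and `w = dim W`: it is an `N`-fold canonical form on the generic fibre, with the order at
least `- N Γ v` along the prime divisors `v` over `F`, and at the prime divisors `Q` over `W` which
do not dominate `V`, its values on regular vector fields along the fibres are regular. The canonical
divisor of the foliation is `K_(W/V)` minus the ramification divisor `∑ (e (Q) - 1) Q` of the
multiplicities of the fibres along these divisors `Q`. -/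
def FolForm (E : IntermediateField ℂ K) (w r N : ℕ) (Γ : Place E K → ℚ)
    (φ : (Fin r → Derivation E K K) → K) : Prop :=
  IsPluri N φ ∧
  (∀ v : Place E K, Divisorial r v → ∀ U : Fin r → Derivation E K K, (∀ a, DerReg v (U a)) →
    φ U = 0 ∨ -(N * Γ v) ≤ v.ord (φ U)) ∧
  ∀ Q : Place ℂ K, Divisorial w Q → (∃ z ∈ E, Q.ord z ≠ 0) → ∀ U : Fin r → Derivation E K K,
    (∀ a, ∀ f, Q.Reg f → Q.Reg (U a f)) → Q.Reg (φ U)

/-- `v` is a prime divisor on the projective model of `F` with the homogeneous coordinates `z` of the
generic point: the centre of `v` is in the chart `z i ≠ 0`, and `r - 1` functions of the coordinate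
ring of this chart have algebraically independent residues at `v`. -/
def OnModel (E : IntermediateField ℂ K) (r : ℕ) {M : ℕ} (z : Fin (M + 1) → K) (v : Place E K) :
    Prop :=
  ∃ i, (∀ j, v.Reg (z j / z i)) ∧ ∃ u : Fin (r - 1) → K,
    (∀ l, u l ∈ Algebra.adjoin E (Set.range fun j => z j / z i)) ∧
    ∀ p : MvPolynomial (Fin (r - 1)) E, p ≠ 0 →
      MvPolynomial.aeval u p ≠ 0 ∧ v.ord (MvPolynomial.aeval u p) = 0

/-- `z` is the generic point, in homogeneous coordinates, of a projective model of `F`, and
`N (K_F + Γ) ≤ 0` on this model, by means of the rational `N`-fold canonical form `φ`: the order of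
`φ` along each prime divisor `v` on the model is at most `- N Γ v`. -/
structure LeZero (E : IntermediateField ℂ K) (r N : ℕ) (Γ : Place E K → ℚ) {M : ℕ}
    (z : Fin (M + 1) → K) (φ : (Fin r → Derivation E K K) → K) : Prop where
  ne : ∀ i, z i ≠ 0
  top : IntermediateField.adjoin E (Set.range fun j => z j / z 0) = ⊤
  pluri : IsPluri N φ
  le : ∀ v : Place E K, OnModel E r z v → ∃ U : Fin r → Derivation E K K,
    (∀ a, DerReg v (U a)) ∧ φ U ≠ 0 ∧ (v.ord (φ U) : ℚ) ≤ -(N * Γ v)

end

end Pool.Agent.T2h13.AF
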