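import Pool.Agent.T2h13.AF.Hom
import Pool.Agent.T2h13.AF.DefsC
import Pool.Agent.Y173.QA.Phi

/-!
A criterion for the numerical dimension of the generic fibre to be zero.
-/

set_option autoImplicit false
set_option linter.overlappingInstances false
set_option linter.unusedSectionVars false
set_option maxHeartbeats 4000000
set_option synthInstance.maxHeartbeats 400000

open FF IntermediateField Pool.Agent.W619.PQ MvPolynomial Pool.Agent.W619.TW Pool.Agent.W603.LV
open Pool.Agent.W602.GT (Divisorial DerReg IsPluri)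
open Pool.Agent.Y173.QA (Adic Chart exists_chart chart_reg adic_var hartogs Vert adic_reg count_L
  DegPl exists_of_not_vert not_dvd_of_degreeOf)

namespace Pool.Agent.T2h13.AF

section

variable {K : Type} [Field K] [Algebra ℂ K] {E : IntermediateField ℂ K} {M : ℕ}
  {z : Fin (M + 1) → K}

theorem top_of (hne : ∀ i, z i ≠ 0)
    (htop : IntermediateField.adjoin E (Set.range fun j => z j / z 0) = ⊤) (i : Fin (M + 1)) :
    IntermediateField.adjoin E (Set.range fun j => z j / z i) = ⊤ := by
  rw [_root_.eq_top_iff, ← htop, IntermediateField.adjoin_le_iff]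
  rintro _ ⟨j, rfl⟩
  have h1 : z j / z 0 = (z j / z i) / (z 0 / z i) := by
    have := hne i
    have := hne 0
    field_simp
  change z j / z 0 ∈ _
  rw [h1]
  exact div_mem (IntermediateField.subset_adjoin E _ ⟨j, rfl⟩)
    (IntermediateField.subset_adjoin E _ ⟨0, rfl⟩)

theorem mem_adjoin_of {B : Set K} {f : K}
    (h : f ∈ Algebra.adjoin (IntermediateField.adjoin E (Set.range (Fin.elim0 : Fin 0 → K))) B) :
    f ∈ Algebra.adjoin E B := by
  induction h using Algebra.adjoin_induction with
  | mem y hy => exact Algebra.subset_adjoin hy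
  | algebraMap c =>
    have h2 : IntermediateField.adjoin E (Set.range (Fin.elim0 : Fin 0 → K)) = ⊥ := by
      rw [Set.range_eq_empty, IntermediateField.adjoin_empty]
    have h3 : (c : K) ∈ (⊥ : IntermediateField E K) := h2 ▸ c.2
    obtain ⟨e, he⟩ := IntermediateField.mem_bot.1 h3
    have h4 : algebraMap (IntermediateField.adjoin E (Set.range (Fin.elim0 : Fin 0 → K))) K c =
        algebraMap E K e := he.symm
    rw [h4]
    exact Subalgebra.algebraMap_mem _ e
  | add y y' _ _ hy hy' => exact add_mem hy hy'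
  | mul y y' _ _ hy hy' => exact mul_mem hy hy'

theorem triv0 (w : Place E K) (q : MvPolynomial (Fin 0) E) (hq : q ≠ 0) :
    w.ord (aeval (Fin.elim0 : Fin 0 → K) q) = 0 := by
  obtain ⟨c, rfl⟩ := MvPolynomial.C_surjective (R := E) (Fin 0) q
  have hc : c ≠ 0 := by
    rintro rfl
    exact hq (map_zero _)
  rw [MvPolynomial.algHom_C]
  exact w.ord_const hc

/-- the places over the irreducible polynomials of a chart are on the model -/
theorem on_model {r : ℕ} {i : Fin (M + 1)} {x : Fin (r + 1) → K}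
    (hch : Chart E (Fin.elim0 : Fin 0 → K) (Set.range fun j => z j / z i) x)
    {p : MvPolynomial (Fin (0 + (r + 1))) E} {P : Place E K}
    (hp : Irreducible p) (hP : Adic (Fin.append (Fin.elim0 : Fin 0 → K) x) p P) :
    OnModel E (r + 1) z P := by
  classical
  have hE0 : CharZero E := charZero_of_injective_algebraMap (algebraMap ℂ E).injective
  have hreg : ∀ j, P.Reg (z j / z i) := fun j =>
    chart_reg hch (triv0 P) (fun l => by
      have := adic_var hP (Fin.natAdd 0 l)
      rwa [Fin.append_right] at this) _ ⟨j, rfl⟩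
  obtain ⟨b, hb0, -⟩ := Pool.Agent.TH122.AB.exists_pderiv hp
  have hb : degreeOf b p ≠ 0 := by
    intro h0
    apply hb0
    apply pderiv_eq_zero_of_notMem_vars
    intro h1
    exact Pool.Agent.Y173.QA.mem_vars_of h1 h0
  obtain ⟨Zc, hZc⟩ : ∃ Zc : Fin (0 + r + 1) → K, Zc = Fin.append (Fin.elim0 : Fin 0 → K) x :=
    ⟨_, rfl⟩
  let b' : Fin (0 + r + 1) := b
  let τ : Fin r → Fin (0 + r + 1) := fun l => b'.succAbove (Fin.cast (by omega) l)
  have hτ : Function.Injective τ := (Fin.succAbove_right_injective).comp (Fin.cast_injective _)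
  refine ⟨i, hreg, fun l => Zc (τ l), fun l => ?_, fun q hq => ?_⟩
  · rw [hZc]
    have hmem : ∀ a : Fin (0 + (r + 1)),
        (Fin.append (Fin.elim0 : Fin 0 → K) x : Fin (0 + (r + 1)) → K) a ∈
          Algebra.adjoin E (Set.range fun j => z j / z i) := by
      intro a
      refine Fin.addCases (fun j => j.elim0) (fun j => ?_) a
      rw [Fin.append_right]
      exact mem_adjoin_of (hch.mem j)
    exact hmem _
  · have h0 : (rename τ q : MvPolynomial (Fin (0 + r + 1)) E) ≠ 0 :=
      (map_ne_zero_iff _ (rename_injective _ hτ)).2 hq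
    have h1 : aeval Zc (rename τ q) = aeval (fun l => Zc (τ l)) q := by
      rw [aeval_rename]
      rfl
    have h2 : degreeOf b' (rename τ q : MvPolynomial (Fin (0 + r + 1)) E) = 0 := by
      by_contra h3
      have h4 : b' ∈ (rename τ q).vars := by
        by_contra h5
        exact h3 (Pool.Agent.Y173.QA.degreeOf_notMem h5)
      have h6 := MvPolynomial.vars_rename τ q h4
      rw [Finset.mem_image] at h6
      obtain ⟨l, -, hl⟩ := h6
      exact Fin.succAbove_ne _ _ hl
    have h3 := hP (rename τ q) h0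
    change 0 ≤ P.ord (aeval (Fin.append (Fin.elim0 : Fin 0 → K) x) (rename τ q)) ∧ _ at h3
    rw [← hZc] at h3
    have key : aeval Zc (rename τ q) ≠ 0 ∧ P.ord (aeval Zc (rename τ q)) = 0 := by
      refine ⟨fun h4 => ?_, h3.2.2 (not_dvd_of_degreeOf hb h2 h0)⟩
      rw [hZc] at h4
      exact h0 ((injective_iff_map_eq_zero _).1 hch.bas.1 _ h4)
    rw [h1] at key
    exact key

variable [Algebra.EssFiniteType E K] {r : ℕ}

/-- the poles at a place -/
theorem bound_at (htr : Algebra.trdeg E K = (0 + (r + 1) : ℕ)) (hne : ∀ i, z i ≠ 0)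
    (htop : IntermediateField.adjoin E (Set.range fun j => z j / z 0) = ⊤) (S : Finset K)
    (w : Place E K) : ∃ c : ℕ, ∀ f : K,
      (∀ v : Place E K, OnModel E (r + 1) z v → Dom v S 1 f) → Ge w (-(c : ℤ)) f := by
  classical
  have hE0 : CharZero E := charZero_of_injective_algebraMap (algebraMap ℂ E).injective
  have hfin : ∀ y : Fin (0 + (r + 1)) → K, IsTranscendenceBasis E y →
      FiniteDimensional (IntermediateField.adjoin E (Set.range y)) K :=
    fun y hy => Pool.Agent.W619.Y.fin_over y hy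
  have ht : AlgebraicIndependent E (Fin.elim0 : Fin 0 → K) := by
    rw [algebraicIndependent_empty_type_iff]
    exact (algebraMap E K).injective
  obtain ⟨i, hi⟩ := Finite.exists_min fun i => w.ord (z i)
  obtain ⟨x, hch⟩ := exists_chart htr ht (Set.finite_range fun j => z j / z i) (top_of hne htop i)
  have hxw : ∀ l, w.Reg (x l) := by
    intro l
    have h1 := hch.mem l
    generalize x l = f at h1 ⊢
    induction h1 using Algebra.adjoin_induction with
    | mem y hy =>
      obtain ⟨j, rfl⟩ := hy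
      right
      change 0 ≤ w.ord (z j / z i)
      rw [w.ord_div (hne j) (hne i)]
      have := hi j
      linarith
    | algebraMap c => exact Or.inr (Pool.Agent.Y173.QA.ord_base (triv0 w) c.2).ge
    | add y y' _ _ hy hy' => exact w.reg_add hy hy'
    | mul y y' _ _ hy hy' => exact w.reg_mul hy hy'
  have hZ := hch.bas
  choose q hq0 hqi using fun s : K => Pool.Agent.TH122.AB.exists_mult hZ s
  obtain ⟨Q, hQ⟩ : ∃ Q, Q = ∏ s ∈ S, q s := ⟨_, rfl⟩
  have hQ0 : Q ≠ 0 := by
    rw [hQ]
    exact Finset.prod_ne_zero_iff.2 fun s _ => hq0 _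
  have hQZ : aeval (Fin.append (Fin.elim0 : Fin 0 → K) x) Q ≠ 0 := fun h0 =>
    hQ0 ((injective_iff_map_eq_zero _).1 hZ.1 _ h0)
  have hQS : ∀ s ∈ S, ∀ P : Place E K,
      (∀ f : MvPolynomial (Fin (0 + (r + 1))) E,
        P.Reg (aeval (Fin.append (Fin.elim0 : Fin 0 → K) x) f)) →
      P.Reg (aeval (Fin.append (Fin.elim0 : Fin 0 → K) x) Q * s) := by
    intro s hs P hP
    rw [hQ, ← Finset.mul_prod_erase S q hs, map_mul, mul_comm (aeval _ (q s)), mul_assoc]
    exact P.reg_mul (hP _) (Pool.Agent.TH122.AB.reg_of_int hP (hqi s))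
  refine ⟨(w.ord (aeval (Fin.append (Fin.elim0 : Fin 0 → K) x) Q)).natAbs, fun f hf => ?_⟩
  have h1 : w.Reg (aeval (Fin.append (Fin.elim0 : Fin 0 → K) x) Q * f) := by
    refine hartogs hZ (hfin _ hZ) (fun p hp _ P hP => ?_) (triv0 w) hxw
    rcases hf P (on_model hch hp hP) with h2 | ⟨s, hs, hs0, h2⟩
    · rw [h2, mul_zero]
      exact P.reg_zero
    · by_cases h0 : f = 0
      · rw [h0, mul_zero]
        exact P.reg_zero
      have h3 := (hQS s hs P (adic_reg hP)).resolve_left (mul_ne_zero hQZ hs0)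
      right
      rw [P.ord_mul hQZ hs0] at h3
      rw [P.ord_mul hQZ h0]
      push_cast at h2
      linarith
  by_cases h0 : f = 0
  · exact Or.inl h0
  right
  have h2 := h1.resolve_left (mul_ne_zero hQZ h0)
  rw [w.ord_mul hQZ h0] at h2
  omega

/-- **Functions with bounded poles on a projective model.** -/
theorem fin_sec (htr : Algebra.trdeg E K = (0 + (r + 1) : ℕ)) (hne : ∀ i, z i ≠ 0)
    (htop : IntermediateField.adjoin E (Set.range fun j => z j / z 0) = ⊤) (S : Finset K) :
    ∃ C : ℕ, ∀ (k : ℕ) (f : Fin k → K), LinearIndependent E f →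
      (∀ l, ∀ v : Place E K, OnModel E (r + 1) z v → Dom v S 1 (f l)) → k ≤ C := by
  classical
  have hE0 : CharZero E := charZero_of_injective_algebraMap (algebraMap ℂ E).injective
  have hfin : ∀ y : Fin (0 + (r + 1)) → K, IsTranscendenceBasis E y →
      FiniteDimensional (IntermediateField.adjoin E (Set.range y)) K :=
    fun y hy => Pool.Agent.W619.Y.fin_over y hy
  have ht : AlgebraicIndependent E (Fin.elim0 : Fin 0 → K) := by
    rw [algebraicIndependent_empty_type_iff]
    exact (algebraMap E K).injective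
  obtain ⟨x, hch⟩ := exists_chart htr ht (Set.finite_range fun j => z j / z 0) htop
  obtain ⟨T, hTf, -, C, c, hC⟩ := count_L (by omega) hch.bas (hfin _ hch.bas) S
  choose cw hcw using fun w : Place E K => bound_at htr hne htop S w
  obtain ⟨C3, hC3⟩ : ∃ C3 : ℕ, ∀ b, ∀ P ∈ T b, cw P ≤ C3 := by
    have hfin2 : (⋃ b, T b).Finite := Set.finite_iUnion hTf
    have := hfin2.fintype
    refine ⟨∑ P : (⋃ b, T b), cw P.1, fun b P hP => ?_⟩
    have hPm : P ∈ ⋃ b, T b := Set.mem_iUnion.2 ⟨b, hP⟩
    exact Finset.single_le_sum (f := fun P : (⋃ b, T b) => cw P.1) (fun _ _ => Nat.zero_le _)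
      (Finset.mem_univ ⟨P, hPm⟩)
  refine ⟨C * ∏ _b : Fin (0 + (r + 1)), (C3 + c), fun k f hf hdom => ?_⟩
  refine hC (fun _ => C3) k f hf (fun l p hp P hP => hdom l P (on_model hch hp hP))
    fun l b P hP => ?_
  refine (hcw P (f l) (hdom l)).mono ?_
  have := hC3 b P hP
  omega

end

section

variable {K : Type} [Field K] [Algebra ℂ K] [Algebra.EssFiniteType ℂ K] {n r : ℕ}

/-- **The criterion.** -/
theorem nu_zero (hr : 1 ≤ r) (hK : Algebra.trdeg ℂ K = (n + r : ℕ)) {E : IntermediateField ℂ K}
    (hE : Algebra.trdeg ℂ E = n) {N : ℕ} (hN : 1 ≤ N) {Γ : Place E K → ℚ} {M : ℕ}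
    {z : Fin (M + 1) → K} {φ : (Fin r → Derivation E K K) → K} (h : LeZero E r N Γ z φ) :
    NuLeZero E r Γ := by
  classical
  have hE0 : CharZero E := charZero_of_injective_algebraMap (algebraMap ℂ E).injective
  have hess : Algebra.EssFiniteType E K := Algebra.EssFiniteType.of_comp ℂ E K
  obtain ⟨r', rfl⟩ : ∃ r', r = r' + 1 := ⟨r - 1, by omega⟩
  have htr : Algebra.trdeg E K = (0 + (r' + 1) : ℕ) := by
    rw [Nat.zero_add]
    exact trdeg_fib hK hE
  obtain ⟨x, U0, hx, hU0⟩ := Pool.Agent.Y172.exists_crd (trdeg_fib hK hE)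
  -- there is a place on the model, so that the form does not vanish
  have hval : ∀ U, φ U = (Matrix.of fun a b => U a (x b)).det ^ N * φ U0 := fun U =>
    Pool.Agent.Y172.pluri_coord hx hU0 h.pluri U
  intro S
  obtain ⟨C, hC⟩ := fin_sec (r := r') htr h.ne h.top (S ∪ S.image fun s => s * φ U0)
  refine ⟨C, fun m k ω hm hω hlin => ?_⟩
  by_cases hφ0 : φ U0 = 0
  · -- then the model has no prime divisor
    refine hC k (fun i => ω i U0) ?_ fun l v hv => ?_
    · -- linear independence of the values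
      rw [Fintype.linearIndependent_iff] at hlin ⊢
      intro a ha i
      refine hlin a ?_ i
      funext D
      have h1 : ∀ i, ω i D = (Matrix.of fun a b => D a (x b)).det ^ m * ω i U0 := fun i =>
        Pool.Agent.Y172.pluri_coord hx hU0 (hω i).1 D
      have h2 : (∑ i, a i • ω i) D = ∑ i, a i • ω i D := by
        rw [Finset.sum_apply]
        rfl
      rw [h2]
      have h3 : ∀ i, a i • ω i D = (Matrix.of fun a b => D a (x b)).det ^ m * (a i • ω i U0) := by
        intro i
        rw [h1, mul_smul_comm]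
      rw [Finset.sum_congr rfl fun i _ => h3 i, ← Finset.mul_sum, ha, mul_zero]
      rfl
    · exfalso
      obtain ⟨U, -, hU, -⟩ := h.le v hv
      rw [hval, hφ0, mul_zero] at hU
      exact hU rfl
  · obtain ⟨m', s, hs, hms⟩ : ∃ m' s, s < N ∧ m = N * m' + s :=
      ⟨m / N, m % N, Nat.mod_lt _ hN, (Nat.div_add_mod m N).symm⟩
    have hlin' : LinearIndependent E fun i => (φ U0 ^ m')⁻¹ * ω i U0 := by
      have h0 : LinearIndependent E fun i => ω i U0 := by
        rw [Fintype.linearIndependent_iff] at hlin ⊢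
        intro a ha i
        refine hlin a ?_ i
        funext D
        have h1 : ∀ i, ω i D = (Matrix.of fun a b => D a (x b)).det ^ m * ω i U0 := fun i =>
          Pool.Agent.Y172.pluri_coord hx hU0 (hω i).1 D
        have h2 : (∑ i, a i • ω i) D = ∑ i, a i • ω i D := by
          rw [Finset.sum_apply]
          rfl
        rw [h2]
        have h3 : ∀ i, a i • ω i D =
            (Matrix.of fun a b => D a (x b)).det ^ m * (a i • ω i U0) := by
          intro i
          rw [h1, mul_smul_comm]
        rw [Finset.sum_congr rfl fun i _ => h3 i, ← Finset.mul_sum, ha, mul_zero]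
        rfl
      exact h0.map' (LinearMap.mulLeft E (φ U0 ^ m')⁻¹) (by
        rw [LinearMap.ker_eq_bot]
        exact fun a b hab => mul_left_cancel₀ (inv_ne_zero (pow_ne_zero _ hφ0)) hab)
    refine hC k _ hlin' fun l v hv => ?_
    by_cases hω0 : ω l U0 = 0
    · left
      rw [hω0, mul_zero]
    right
    obtain ⟨U, hUr, hU0', hUle⟩ := h.le v hv
    obtain ⟨d, hd⟩ : ∃ d : K, d = (Matrix.of fun a b => U a (x b)).det := ⟨_, rfl⟩
    have hφU : φ U = d ^ N * φ U0 := by rw [hd, hval]
    have hd0 : d ≠ 0 := by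
      rintro rfl
      rw [zero_pow (by omega), zero_mul] at hφU
      exact hU0' hφU
    have hωU : ω l U = d ^ m * ω l U0 := by
      rw [hd]
      exact Pool.Agent.Y172.pluri_coord hx hU0 (hω l).1 U
    have hvd : Divisorial (r' + 1) v := by
      obtain ⟨i, -, u, -, hu⟩ := hv
      exact ⟨u, hu⟩
    have hωU0 : ω l U ≠ 0 := by
      rw [hωU]
      exact mul_ne_zero (pow_ne_zero _ hd0) hω0
    obtain ⟨σ, hσ, hσ0, hσle⟩ := ((hω l).2 v hvd U hUr).resolve_left hωU0
    rw [hφU, v.ord_mul (pow_ne_zero _ hd0) hφ0, v.ord_pow] at hUle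
    rw [hωU, v.ord_mul (pow_ne_zero _ hd0) hω0, v.ord_pow] at hσle
    have hord : v.ord ((φ U0 ^ m')⁻¹ * ω l U0) = v.ord (ω l U0) - m' * v.ord (φ U0) := by
      rw [v.ord_mul (inv_ne_zero (pow_ne_zero _ hφ0)) hω0, v.ord_inv, v.ord_pow]
      ring
    have hN0 : (0 : ℚ) < N := by exact_mod_cast hN
    have hsN : (s : ℚ) ≤ N := by exact_mod_cast hs.le
    have hs0 : (0 : ℚ) ≤ s := Nat.cast_nonneg s
    have hm' : (m : ℚ) = N * m' + s := by rw [hms]; push_cast; ring
    have hmn : (0 : ℚ) ≤ m := Nat.cast_nonneg m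
    -- `N * ord ≥ N * ord σ + s * ord φ`
    have key : (N : ℚ) * v.ord σ + s * v.ord (φ U0) ≤
        N * (v.ord (ω l U0) - m' * v.ord (φ U0)) := by
      push_cast at hUle hσle
      have h1 := mul_le_mul_of_nonneg_left hUle hmn
      have h2 := mul_le_mul_of_nonneg_left hσle hN0.le
      have h3 : (m : ℚ) * (v.ord (φ U0)) = N * m' * v.ord (φ U0) + s * v.ord (φ U0) := by
        rw [hm']
        ring
      nlinarith
    rcases le_total 0 (v.ord (φ U0)) with h5 | h5
    · refine ⟨σ, Finset.mem_union_left _ hσ, hσ0, ?_⟩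
      rw [hord]
      have h6 : (0 : ℚ) ≤ v.ord (φ U0) := by exact_mod_cast h5
      have h7 : (N : ℚ) * v.ord σ ≤ N * (v.ord (ω l U0) - m' * v.ord (φ U0)) := by
        have := mul_nonneg hs0 h6
        linarith
      have h8 := le_of_mul_le_mul_left h7 hN0
      push_cast
      rw [one_mul]
      exact_mod_cast h8
    · refine ⟨σ * φ U0, Finset.mem_union_right _ (Finset.mem_image_of_mem _ hσ),
        mul_ne_zero hσ0 hφ0, ?_⟩
      rw [hord, v.ord_mul hσ0 hφ0]
      have h6 : (v.ord (φ U0) : ℚ) ≤ 0 := by exact_mod_cast h5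
      have h7 : (N : ℚ) * (v.ord σ + v.ord (φ U0)) ≤
          N * (v.ord (ω l U0) - m' * v.ord (φ U0)) := by
        have : (N : ℚ) * v.ord (φ U0) ≤ s * v.ord (φ U0) :=
          mul_le_mul_of_nonpos_right hsN h6
        linarith
      have h8 := le_of_mul_le_mul_left h7 hN0
      push_cast
      rw [one_mul]
      exact_mod_cast h8

end

end Pool.Agent.T2h13.AF
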