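import Pool.Agent.T2h13.AF.Few

/-!
Frames of vector fields at a place which are adapted to a fibration.
-/

set_option autoImplicit false
set_option linter.overlappingInstances false
set_option linter.unusedSectionVars false
set_option maxHeartbeats 4000000
set_option synthInstance.maxHeartbeats 400000

open FF Pool.Agent.W603.LV Pool.Agent.W602.GT Pool.Agent.W619.PQ Pool.Agent.Y172

namespace Pool.Agent.T2h13.AF

section

variable {k K : Type*} [Field k] [Field K] [Algebra k K]

/-- a minor of the least order -/
theorem exists_kappa (P : Place k K) {ι : Type*} [Finite ι] {r : ℕ} (a : Matrix (Fin r) ι K)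
    (h : ∃ κ : Fin r → ι, (a.submatrix id κ).det ≠ 0) :
    ∃ κ : Fin r → ι, (a.submatrix id κ).det ≠ 0 ∧ ∀ κ' : Fin r → ι,
      (a.submatrix id κ').det = 0 ∨
        P.ord (a.submatrix id κ).det ≤ P.ord (a.submatrix id κ').det := by
  classical
  obtain ⟨κ0, h0⟩ := h
  have hfin : {κ : Fin r → ι | (a.submatrix id κ).det ≠ 0}.Finite := Set.toFinite _
  obtain ⟨κ, hκ, hmin⟩ := Set.exists_min_image _ (fun κ => P.ord (a.submatrix id κ).det) hfin
    ⟨κ0, h0⟩
  refine ⟨κ, hκ, fun κ' => ?_⟩
  by_cases h1 : (a.submatrix id κ').det = 0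
  · exact Or.inl h1
  · exact Or.inr (hmin κ' h1)

theorem reg_inv_mul (P : Place k K) {ι : Type*} [Finite ι] {r : ℕ} {a : Matrix (Fin r) ι K}
    {κ : Fin r → ι} (h0 : (a.submatrix id κ).det ≠ 0)
    (hmin : ∀ κ' : Fin r → ι, (a.submatrix id κ').det = 0 ∨
      P.ord (a.submatrix id κ).det ≤ P.ord (a.submatrix id κ').det) (i : Fin r) (j : ι) :
    P.Reg (∑ b, (a.submatrix id κ)⁻¹ i b * a b j) := by
  classical
  have h1 : ∑ b, (a.submatrix id κ)⁻¹ i b * a b j =
      (a.submatrix id κ).det⁻¹ * (a.submatrix id (Function.update κ i j)).det := by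
    have e1 : (a.submatrix id κ).updateCol i (fun l => a l j) =
        a.submatrix id (Function.update κ i j) := by
      ext p q
      by_cases hq : q = i
      · subst hq
        rw [Matrix.updateCol_self, Matrix.submatrix_apply, Function.update_self, id]
      · rw [Matrix.updateCol_ne hq, Matrix.submatrix_apply, Matrix.submatrix_apply,
          Function.update_of_ne hq]
    have h2 : (a.submatrix id κ).det⁻¹ * (a.submatrix id (Function.update κ i j)).det =
        (((a.submatrix id κ)⁻¹).mulVec fun l => a l j) i := by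
      rw [Matrix.inv_def, Matrix.smul_mulVec, Pi.smul_apply, ← Matrix.cramer_eq_adjugate_mulVec,
        Matrix.cramer_apply, e1, smul_eq_mul, Ring.inverse_eq_inv']
    rw [h2]
    rfl
  rw [h1]
  rcases hmin (Function.update κ i j) with h3 | h3
  · rw [h3, mul_zero]
    exact P.reg_zero
  · by_cases h4 : (a.submatrix id (Function.update κ i j)).det = 0
    · rw [h4, mul_zero]
      exact P.reg_zero
    · right
      rw [P.ord_mul (inv_ne_zero h0) h4, P.ord_inv]
      linarith

theorem exists_sigma {n r : ℕ} {κ : Fin r → Fin (n + r)} (hκ : Function.Injective κ) :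
    ∃ σ : Fin n ⊕ Fin r ≃ Fin (n + r), ∀ a, σ (Sum.inr a) = κ a := by
  classical
  have h1 : Fintype.card {j // ¬ j ∈ Set.range κ} = n := by
    rw [Fintype.card_subtype_compl]
    have h2 : Fintype.card {j // j ∈ Set.range κ} = r := by
      have := Fintype.card_congr (Equiv.ofInjective κ hκ)
      rw [Fintype.card_fin] at this
      exact this.symm
    rw [h2, Fintype.card_fin]
    omega
  let e1 : Fin n ≃ {j // ¬ j ∈ Set.range κ} := (Fintype.equivFinOfCardEq h1).symm
  refine ⟨(Equiv.sumComm _ _).trans ((Equiv.sumCongr (Equiv.ofInjective κ hκ) e1).trans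
    (Equiv.sumCompl fun j => j ∈ Set.range κ)), fun a => ?_⟩
  simp

end

section

variable {K : Type} [Field K] [Algebra ℂ K] {n r : ℕ}

/-- **Adapted frames.** -/
theorem exists_adapted {Q : Place ℂ K} {E : IntermediateField ℂ K} {y : Fin (n + r) → K}
    {G : Fin (n + r) → Derivation ℂ K K} {i0 : Fin (n + r)} (hl : Loc Q y G i0) (t : Fin n → E)
    {x : Fin r → K} {U : Fin r → Derivation E K K}
    (hU : ∀ a l, U a (x l) = if a = l then 1 else 0) :
    ∃ (m s : K) (F : Fin n → Derivation ℂ K K) (U' : Fin r → Derivation E K K), m ≠ 0 ∧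
      (s = 1 ∨ s = -1) ∧ (∀ i, DerReg Q (F i)) ∧ (∀ a, DerReg Q (rho E (U' a))) ∧
      (Matrix.of fun a l => U' a (x l)).det * m = 1 ∧
      (Matrix.of fun i j => G i ((Fin.append (fun j => (t j : K)) x :
        Fin (n + r) → K) j)).det * m = s * (Matrix.of fun i j => F i (t j : K)).det := by
  classical
  obtain ⟨a, ha⟩ : ∃ a : Matrix (Fin r) (Fin (n + r)) K, a = Matrix.of fun b j => U b (y j) :=
    ⟨_, rfl⟩
  have hexp : ∀ b, rho E (U b) = ∑ j, a b j • G j := by
    intro b
    rw [ha]
    exact (Pool.Agent.W73.PG.PULL.expand y hl.bas G hl.dual (rho E (U b))).symm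
  have hexp' : ∀ b f, U b f = ∑ j, a b j * G j f := by
    intro b f
    have h1 : rho E (U b) f = (∑ j, a b j • G j) f := by rw [hexp b]
    rw [rho_apply] at h1
    rw [h1, sum_smul_apply]
  -- a nonzero minor
  have hmin0 : ∃ κ : Fin r → Fin (n + r), (a.submatrix id κ).det ≠ 0 := by
    by_contra hcon
    push Not at hcon
    have h1 : (Matrix.of fun i j => ∑ l, G l (x i) * a j l :
        Matrix (Fin r) (Fin r) K).det = 1 := by
      have h2 : (Matrix.of fun i j => ∑ l, G l (x i) * a j l : Matrix (Fin r) (Fin r) K) = 1 := by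
        ext i j
        rw [Matrix.of_apply, Matrix.one_apply]
        have h3 := hU j i
        rw [hexp'] at h3
        rw [← Finset.sum_congr rfl fun l _ => mul_comm (a j l) (G l (x i)), h3]
        by_cases hij : i = j
        · rw [if_pos hij, if_pos hij.symm]
        · rw [if_neg hij, if_neg (Ne.symm hij)]
      rw [h2, Matrix.det_one]
    have h4 := det_rows (fun i l => G l (x i)) (fun l j => a j l)
    rw [h4] at h1
    rw [Finset.sum_eq_zero fun κ _ => ?_] at h1
    · exact zero_ne_one h1
    · have h5 : (Matrix.of fun i j => a j (κ i) : Matrix (Fin r) (Fin r) K).det = 0 := by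
        rw [← Matrix.det_transpose]
        exact hcon κ
      rw [h5, mul_zero]
  obtain ⟨κ, hκ0, hκ⟩ := exists_kappa Q a hmin0
  have hinj : Function.Injective κ := by
    intro p q hpq
    by_contra hne
    apply hκ0
    refine Matrix.det_zero_of_column_eq hne fun i => ?_
    rw [Matrix.submatrix_apply, Matrix.submatrix_apply, hpq]
  obtain ⟨σ, hσ⟩ := exists_sigma hinj
  obtain ⟨A, hA⟩ : ∃ A, A = a.submatrix id κ := ⟨_, rfl⟩
  have hA0 : IsUnit A.det := by
    rw [hA]
    exact isUnit_iff_ne_zero.2 hκ0
  obtain ⟨z, hz⟩ : ∃ z : Fin (n + r) → K, z = Fin.append (fun j => (t j : K)) x := ⟨_, rfl⟩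
  obtain ⟨Z, hZ⟩ : ∃ Z : Matrix (Fin (n + r)) (Fin (n + r)) K, Z = Matrix.of fun i j => G i (z j) :=
    ⟨_, rfl⟩
  let τ : Fin n ⊕ Fin r ≃ Fin (n + r) := finSumFinEquiv
  -- the sign
  have hdet : ∃ s : K, (s = 1 ∨ s = -1) ∧ (Z.submatrix σ τ).det = s * Z.det := by
    let π : Equiv.Perm (Fin (n + r)) := τ.symm.trans σ
    have h1 : Z.submatrix σ τ = (Z.submatrix π id).submatrix τ τ := by
      ext i j
      simp [π]
    rw [h1, Matrix.det_submatrix_equiv_self, Matrix.det_permute]
    refine ⟨_, ?_, rfl⟩
    rcases Int.units_eq_one_or (Equiv.Perm.sign π) with h2 | h2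
    · left
      simp [h2]
    · right
      simp [h2]
  obtain ⟨s, hs, hsdet⟩ := hdet
  let U' : Fin r → Derivation E K K := fun i => ∑ b, A⁻¹ i b • U b
  have hU' : ∀ i f, U' i f = ∑ b, A⁻¹ i b * U b f := by
    intro i f
    change (∑ b, A⁻¹ i b • U b) f = _
    have : ∀ s : Finset (Fin r), (∑ b ∈ s, A⁻¹ i b • U b) f = ∑ b ∈ s, A⁻¹ i b * U b f := by
      intro s
      induction s using Finset.induction_on with
      | empty => simp
      | insert b s hb ih =>
        rw [Finset.sum_insert hb, Finset.sum_insert hb, Derivation.add_apply, ih,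
          Derivation.smul_apply, smul_eq_mul]
    exact this _
  refine ⟨A.det, s, fun i => G (σ (Sum.inl i)), U', hA0.ne_zero, hs, fun i => hl.pres _,
    fun i f hf => ?_, ?_, ?_⟩
  · -- the regularity of the vertical fields
    rw [rho_apply, hU']
    have h1 : ∑ b, A⁻¹ i b * U b f = ∑ j, (∑ b, A⁻¹ i b * a b j) * G j f := by
      simp only [hexp', Finset.mul_sum, Finset.sum_mul]
      rw [Finset.sum_comm]
      refine Finset.sum_congr rfl fun j _ => Finset.sum_congr rfl fun b _ => ?_
      ring
    rw [h1]
    have h2 : ∀ s : Finset (Fin (n + r)), Q.Reg (∑ j ∈ s, (∑ b, A⁻¹ i b * a b j) * G j f) := by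
      intro s
      induction s using Finset.induction_on with
      | empty =>
        rw [Finset.sum_empty]
        exact Q.reg_zero
      | insert b s hb ih =>
        rw [Finset.sum_insert hb]
        refine Q.reg_add (Q.reg_mul ?_ (hl.pres b f hf)) ih
        rw [hA]
        exact reg_inv_mul Q hκ0 hκ i b
    exact h2 _
  · -- the determinant of the vertical fields
    have h1 : (Matrix.of fun a l => U' a (x l)) = A⁻¹ := by
      ext i l
      rw [Matrix.of_apply, hU']
      rw [Finset.sum_eq_single l]
      · rw [hU, if_pos rfl, mul_one]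
      · intro b _ hb
        rw [hU, if_neg hb, mul_zero]
      · intro h
        exact absurd (Finset.mem_univ _) h
    rw [h1, ← Matrix.det_mul, Matrix.nonsing_inv_mul _ hA0, Matrix.det_one]
  · -- the complementary minor
    obtain ⟨P, hP⟩ : ∃ P : Matrix (Fin n ⊕ Fin r) (Fin n ⊕ Fin r) K,
      P = Matrix.fromBlocks 1 0 (a.submatrix id fun i => σ (Sum.inl i)) A := ⟨_, rfl⟩
    have hPdet : P.det = A.det := by
      rw [hP, Matrix.det_fromBlocks_zero₁₂, Matrix.det_one, one_mul]
    have hprod : P * Z.submatrix σ τ = Matrix.fromBlocks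
        (Matrix.of fun i j => G (σ (Sum.inl i)) (t j : K))
        (Matrix.of fun i l => G (σ (Sum.inl i)) (x l)) 0 1 := by
      ext p q
      rcases p with p | p
      · rw [Matrix.mul_apply, Finset.sum_eq_single (Sum.inl p)]
        · rcases q with q | q
          · simp [hP, hZ, hz, τ]
          · simp [hP, hZ, hz, τ]
        · intro b _ hb
          rcases b with b | b
          · have : p ≠ b := fun h => hb (by rw [h])
            simp [hP, Matrix.one_apply_ne this]
          · simp [hP]
        · intro h
          exact absurd (Finset.mem_univ _) h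
      · have h1 : (P * Z.submatrix σ τ) (Sum.inr p) q = ∑ j, a p j * G j (z (τ q)) := by
          rw [Matrix.mul_apply, ← Equiv.sum_comp σ]
          refine Finset.sum_congr rfl fun b _ => ?_
          rcases b with b | b
          · simp [hP, hZ]
          · simp [hP, hZ, hA, hσ]
        rw [h1, ← hexp']
        rcases q with q | q
        · have h2 : z (τ (Sum.inl q)) = (t q : K) := by
            simp [hz, τ]
          rw [h2]
          have h3 : U p (t q : K) = 0 := by
            have := (U p).map_algebraMap (t q)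
            exact this
          rw [h3]
          simp
        · have h2 : z (τ (Sum.inr q)) = x q := by
            simp [hz, τ]
          rw [h2, hU]
          simp [Matrix.one_apply]
    have h3 := congrArg Matrix.det hprod
    rw [Matrix.det_mul, hPdet, hsdet, Matrix.det_fromBlocks_zero₂₁, Matrix.det_one, mul_one] at h3
    have hs2 : s * s = 1 := by
      rcases hs with h | h <;> rw [h] <;> ring
    rw [← hz, ← hZ, ← h3]
    calc Z.det * A.det = (s * s) * (Z.det * A.det) := by rw [hs2, one_mul]
      _ = s * (A.det * (s * Z.det)) := by ring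

end

end Pool.Agent.T2h13.AF
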