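import Pool.Agent.T2h13.AF.Ab1
import Pool.Agent.T2h13.AF.DefsC
import Pool.Agent.Y174.V5
import Pool.Agent.Y71.NT.Abh

/-!
The products of the forms on the base and of the forms along the fibres, and their orders.
-/

set_option autoImplicit false
set_option linter.overlappingInstances false
set_option linter.unusedSectionVars false
set_option maxHeartbeats 4000000
set_option synthInstance.maxHeartbeats 400000

open FF Pool.Agent.W603.LV Pool.Agent.W602.GT Pool.Agent.W619.PQ Pool.Agent.Y172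

namespace Pool.Agent.T2h13.AF

section

variable {K : Type} [Field K] [Algebra ℂ K] {n r : ℕ} {Z : Type} [Field Z] [Algebra ℂ Z]
  [Algebra Z K] [IsScalarTower ℂ Z K]

/-- the product of a form on the base and of a form along the fibres -/
noncomputable def prodForm {E : IntermediateField ℂ K} (t : Fin n → Z)
    (ε : Fin n → Derivation ℂ Z Z) (x : Fin r → K) (U : Fin r → Derivation E K K) (N0 N : ℕ)
    (η : (Fin n → Derivation ℂ Z Z) → Z) (φ : (Fin r → Derivation E K K) → K)
    (D : Fin (n + r) → Derivation ℂ K K) : K :=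
  (Matrix.of fun i j => D i ((Fin.append (fun j => algebraMap Z K (t j)) x :
    Fin (n + r) → K) j)).det ^ (N0 * N) * (algebraMap Z K (η ε) ^ N * φ U ^ N0)

theorem prodForm_pluri {E : IntermediateField ℂ K} (t : Fin n → Z)
    (ε : Fin n → Derivation ℂ Z Z) (x : Fin r → K) (U : Fin r → Derivation E K K) (N0 N : ℕ)
    (η : (Fin n → Derivation ℂ Z Z) → Z) (φ : (Fin r → Derivation E K K) → K) :
    IsPluri (N0 * N) (prodForm t ε x U N0 N η φ) := by
  intro A D
  obtain ⟨z, hz⟩ : ∃ z : Fin (n + r) → K, z = Fin.append (fun j => algebraMap Z K (t j)) x :=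
    ⟨_, rfl⟩
  unfold prodForm
  rw [← hz]
  have e1 : (Matrix.of fun a b => (∑ j, A a j • D j) (z b)) =
      A * Matrix.of fun a b => D a (z b) := by
    ext a b
    rw [Matrix.of_apply, Matrix.mul_apply, sum_smul_apply]
    rfl
  rw [e1, Matrix.det_mul, mul_pow, mul_assoc]

/-- the value of the product on regular vector fields, in terms of adapted frames -/
theorem prod_adapted [Algebra.EssFiniteType ℂ K] (hK : Algebra.trdeg ℂ K = (n + r : ℕ))
    {E : IntermediateField ℂ K} (hZE : ∀ z : Z, algebraMap Z K z ∈ E) (t : Fin n → Z)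
    (ε : Fin n → Derivation ℂ Z Z) {x : Fin r → K} (hx : IsTranscendenceBasis E x)
    {U : Fin r → Derivation E K K} (hU : ∀ a l, U a (x l) = if a = l then 1 else 0) (N0 N : ℕ)
    (η : (Fin n → Derivation ℂ Z Z) → Z) {φ : (Fin r → Derivation E K K) → K}
    (hφ : IsPluri N φ) {Q : Place ℂ K} (hQ : Divisorial (n + r) Q) :
    ∃ (F : Fin n → Derivation ℂ K K) (U' : Fin r → Derivation E K K), (∀ i, DerReg Q (F i)) ∧
      (∀ a, DerReg Q (rho E (U' a))) ∧ ∀ D : Fin (n + r) → Derivation ℂ K K,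
        (∀ i, DerReg Q (D i)) → ∃ c, Q.Reg c ∧ prodForm t ε x U N0 N η φ D =
          c * (((Matrix.of fun i j => F i (algebraMap Z K (t j))).det ^ N0 *
            algebraMap Z K (η ε)) ^ N * φ U' ^ N0) := by
  have hE0 : CharZero E := charZero_of_injective_algebraMap (algebraMap ℂ E).injective
  obtain ⟨y, G, i0, hl⟩ := exists_loc hK hQ
  obtain ⟨m, s, F, U', hm, hs, hF, hU', hdU, hdG⟩ := exists_adapted hl
    (fun j => (⟨algebraMap Z K (t j), hZE _⟩ : E)) hU
  refine ⟨F, U', hF, hU', fun D hD => ?_⟩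
  obtain ⟨z, hz⟩ : ∃ z : Fin (n + r) → K, z = Fin.append (fun j => algebraMap Z K (t j)) x :=
    ⟨_, rfl⟩
  have h1 : (Matrix.of fun i j => D i (z j)).det =
      (Matrix.of fun i j => D i (y j)).det * (Matrix.of fun i j => G i (z j)).det := by
    rw [← Matrix.det_mul]
    congr 1
    ext i j
    rw [Matrix.of_apply, Matrix.mul_apply]
    have h1 := Pool.Agent.W73.PG.PULL.expand y hl.bas G hl.dual (D i)
    conv_lhs => rw [← h1]
    rw [sum_smul_apply]
    rfl
  have h2 : φ U = m ^ N * φ U' := by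
    have h3 := pluri_coord hx hU hφ U'
    rw [h3, ← mul_assoc, ← mul_pow, mul_comm m, hdU, one_pow, one_mul]
  have hs1 : Q.Reg s := by
    rcases hs with h | h
    · rw [h]
      exact Q.reg_one
    · rw [h]
      exact Q.reg_neg Q.reg_one
  refine ⟨(Matrix.of fun i j => D i (y j)).det ^ (N0 * N) * s ^ (N0 * N), ?_, ?_⟩
  · refine Q.reg_mul ?_ ?_
    · have h9 : Ge Q 0 (Matrix.of fun i j => D i (y j)).det :=
        ge_det Q _ fun a b => hD a _ (hl.reg b)
      have h10 := h9.pow (N0 * N)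
      rwa [mul_zero] at h10
    · have h10 := Ge.pow (P := Q) (N := 0) (show Ge Q 0 s from hs1) (N0 * N)
      rwa [mul_zero] at h10
  · change (Matrix.of fun i j => G i ((Fin.append (fun j => algebraMap Z K (t j)) x :
        Fin (n + r) → K) j)).det * m = _ at hdG
    rw [← hz] at hdG
    unfold prodForm
    rw [← hz, h1, h2, mul_pow, mul_pow, ← pow_mul, mul_comm N N0, mul_pow _ (algebraMap Z K (η ε)),
      ← pow_mul]
    have h3 : (Matrix.of fun i j => G i (z j)).det ^ (N0 * N) * m ^ (N0 * N) =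
        s ^ (N0 * N) * (Matrix.of fun i j => F i (algebraMap Z K (t j))).det ^ (N0 * N) := by
      rw [← mul_pow, ← mul_pow, hdG]
    linear_combination (Matrix.of fun i j => D i (y j)).det ^ (N0 * N) *
      algebraMap Z K (η ε) ^ N * φ U' ^ N0 * h3

/-- **The order of the products at the divisors which do not dominate the base.** -/
theorem prod_vert [Algebra.EssFiniteType ℂ K] [Algebra.EssFiniteType ℂ Z]
    (hK : Algebra.trdeg ℂ K = (n + r : ℕ)) (hZ : Algebra.trdeg ℂ Z = n)
    {E : IntermediateField ℂ K} (hZE : ∀ z : Z, algebraMap Z K z ∈ E) {t : Fin n → Z}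
    (ht : IsTranscendenceBasis ℂ t) {ε : Fin n → Derivation ℂ Z Z}
    (hε : ∀ i j, ε i (t j) = if i = j then 1 else 0) {x : Fin r → K}
    (hx : IsTranscendenceBasis E x) {U : Fin r → Derivation E K K}
    (hU : ∀ a l, U a (x l) = if a = l then 1 else 0) {N0 N : ℕ}
    {η : (Fin n → Derivation ℂ Z Z) → Z} (hη : IsPluri N0 η)
    (hηr : ∀ R : Place ℂ Z, Divisorial n R → RegAt R η) {φ : (Fin r → Derivation E K K) → K}
    {Γ : Place E K → ℚ} (hφ : FolForm E (n + r) r N Γ φ) {Q : Place ℂ K} (hQ : Divisorial (n + r) Q) {R : Place ℂ Z}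
    {e : ℕ} (h : Over Q R e) {D : Fin (n + r) → Derivation ℂ K K} (hD : ∀ i, DerReg Q (D i)) :
    Ge Q ((N0 * N : ℕ) * ((e : ℤ) - 1)) (prodForm t ε x U N0 N η φ D) := by
  have hR : Divisorial n R := Pool.Agent.Y71.NT.t_abh Z K n (n + r) hZ hK Q R e h hQ
  obtain ⟨F, U', hF, hU', hall⟩ := prod_adapted hK hZE t ε hx hU N0 N η hφ.1 hQ
  obtain ⟨c, hc, hcD⟩ := hall D hD
  rw [hcD]
  obtain ⟨yR, ER, i0, hl⟩ := exists_loc hZ hR
  have h1 := Pool.Agent.W73.PG.PULL.form_eq (L := K) t yR ht hl.bas ε ER hε hl.dual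
    (m := N0) η hη F
  rw [h1]
  have hy0 : algebraMap Z K (yR i0) ≠ 0 := (map_ne_zero _).2 hl.ne
  have hord : Q.ord (algebraMap Z K (yR i0)) = e := by
    rw [h.2, hl.unif, mul_one]
  have h2 := Pool.Agent.Y174.det_ge F hF (fun j => algebraMap Z K (yR j)) i0 hord hy0
    fun j => h.reg.2 (hl.reg j)
  have h3 : Ge Q 0 (algebraMap Z K (η ER)) := h.reg.2 (hηr R hR ER hl.pres)
  have h4 : Ge Q 0 (φ U') := by
    refine hφ.2.2 Q hQ ?_ U' hU'
    obtain ⟨f, -, hf⟩ := R.surj
    refine ⟨algebraMap Z K f, hZE f, ?_⟩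
    rw [h.2, hf, mul_one]
    have := h.1
    omega
  have h5 := (show Ge Q 0 c from hc).mul ((((h2.pow N0).mul h3).pow N).mul (h4.pow N0))
  refine h5.mono (le_of_eq ?_)
  push_cast
  ring

/-- **The order of the products at the divisors which dominate the base.** -/
theorem prod_hor [Algebra.EssFiniteType ℂ K] (hK : Algebra.trdeg ℂ K = (n + r : ℕ))
    {E : IntermediateField ℂ K} (hZE : ∀ z : Z, algebraMap Z K z ∈ E) (t : Fin n → Z)
    (ε : Fin n → Derivation ℂ Z Z) {x : Fin r → K}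
    (hx : IsTranscendenceBasis E x) {U : Fin r → Derivation E K K}
    (hU : ∀ a l, U a (x l) = if a = l then 1 else 0) {N0 N : ℕ}
    (η : (Fin n → Derivation ℂ Z Z) → Z) {φ : (Fin r → Derivation E K K) → K}
    (hφ : IsPluri N φ) {Q : Place ℂ K} (hQ : Divisorial (n + r) Q)
    (h : ∀ z : Z, Q.ord (algebraMap Z K z) = 0) {c0 : ℤ}
    (hc0 : ∀ U' : Fin r → Derivation E K K, (∀ a, DerReg Q (rho E (U' a))) → Ge Q c0 (φ U'))
    {D : Fin (n + r) → Derivation ℂ K K} (hD : ∀ i, DerReg Q (D i)) :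
    Ge Q (N0 * c0) (prodForm t ε x U N0 N η φ D) := by
  obtain ⟨F, U', hF, hU', hall⟩ := prod_adapted hK hZE t ε hx hU N0 N η hφ hQ
  obtain ⟨c, hc, hcD⟩ := hall D hD
  rw [hcD]
  have h2 : Ge Q 0 (Matrix.of fun i j => F i (algebraMap Z K (t j)) :
      Matrix (Fin n) (Fin n) K).det :=
    ge_det Q _ fun a b => hF a _ (Or.inr (h (t b)).ge)
  have h3 : Ge Q 0 (algebraMap Z K (η ε)) := Or.inr (h _).ge
  have h5 := (show Ge Q 0 c from hc).mul ((((h2.pow N0).mul h3).pow N).mul ((hc0 U' hU').pow N0))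
  refine h5.mono (le_of_eq ?_)
  push_cast
  ring

end

end Pool.Agent.T2h13.AF
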