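import Pool.Agent.T2h13.AF.Ab2
import Pool.Agent.T2h13.AF.Hom
import Pool.Agent.Y184.NT.Main2
import Pool.Agent.Y172.Cov3
import Pool.Agent.Y172.Dim
import Pool.Agent.W602.GT.KDefs

/-!
Sections on a variety which is dominated by a fibration: the lower bound.
-/

set_option autoImplicit false
set_option linter.overlappingInstances false
set_option linter.unusedSectionVars false
set_option maxHeartbeats 4000000
set_option synthInstance.maxHeartbeats 400000

open FF Pool.Agent.W603.LV Pool.Agent.W602.GT Pool.Agent.W619.PQ Pool.Agent.Y172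

namespace Pool.Agent.T2h13.AF

theorem ai_pow {k K : Type} [Field k] [Field K] [Algebra k K] {ι : Type} {x : ι → K}
    (hx : AlgebraicIndependent k x) {m : ℕ} (hm : m ≠ 0) :
    AlgebraicIndependent k fun i => x i ^ m := by
  have h1 := hx.polynomial_aeval_of_transcendental (f := fun _ => (Polynomial.X : Polynomial k) ^ m)
    fun _ => (Polynomial.transcendental_X k).pow (Nat.pos_of_ne_zero hm)
  simpa using h1

/-- a common denominator of the coefficients -/
theorem exists_den' {K : Type} [Field K] [Algebra ℂ K] {N : ℕ} {y : Fin (N + 1) → K}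
    {Δ : Place ℂ K → ℚ} (hΔ : Effective y Δ) : ∃ d0 : ℕ, 1 ≤ d0 ∧ ∀ P, IsPrimeDivisor y P →
      ∀ s : ℕ, ∃ z : ℤ, ((s * d0 : ℕ) : ℚ) * Δ P = z := by
  classical
  let S := hΔ.2.toFinset
  refine ⟨∏ P ∈ S, (Δ P).den, Nat.pos_of_ne_zero (Finset.prod_ne_zero_iff.2 fun P _ =>
    (Δ P).den_ne_zero), fun P hP s => ?_⟩
  by_cases h0 : Δ P = 0
  · exact ⟨0, by simp [h0]⟩
  have hPS : P ∈ S := by
    rw [Set.Finite.mem_toFinset]
    exact ⟨hP, h0⟩
  refine ⟨s * (∏ Q ∈ S.erase P, (Δ Q).den : ℕ) * (Δ P).num, ?_⟩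
  rw [← Finset.prod_erase_mul _ _ hPS]
  have h1 : ((Δ P).den : ℚ) * Δ P = (Δ P).num := by
    rw [mul_comm]
    exact Rat.mul_den_eq_num (Δ P)
  push_cast
  rw [← h1]
  ring

section

variable {K : Type} [Field K] [Algebra ℂ K] [Algebra.EssFiniteType ℂ K] {n r : ℕ}
  {L : Type} [Field L] [Algebra ℂ L] [Algebra.EssFiniteType ℂ L] [Algebra L K]
  [IsScalarTower ℂ L K] [FiniteDimensional L K]
  {Z : Type} [Field Z] [Algebra ℂ Z] [Algebra.EssFiniteType ℂ Z] [Algebra Z L] [Algebra Z K]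
  [IsScalarTower ℂ Z K] [IsScalarTower Z L K] {N' : ℕ} {y : Fin (N' + 1) → L}

theorem basis_app {E : IntermediateField ℂ K} (hE : Algebra.trdeg ℂ E = n)
    (hZE : ∀ z : Z, algebraMap Z K z ∈ E) {t : Fin n → Z} (ht : IsTranscendenceBasis ℂ t)
    {x : Fin r → K} (hx : IsTranscendenceBasis E x) :
    IsTranscendenceBasis ℂ (Fin.append (fun j => algebraMap Z K (t j)) x : Fin (n + r) → K) := by
  have h1 : AlgebraicIndependent ℂ (fun j => (⟨algebraMap Z K (t j), hZE _⟩ : E)) := by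
    have h2 : AlgebraicIndependent ℂ (fun j => algebraMap Z K (t j)) :=
      ht.1.map' (f := IsScalarTower.toAlgHom ℂ Z K) (algebraMap Z K).injective
    exact AlgebraicIndependent.of_comp E.val h2
  have h3 : IsTranscendenceBasis ℂ (fun j => (⟨algebraMap Z K (t j), hZE _⟩ : E)) := by
    refine h1.isTranscendenceBasis_of_trdeg_le ?_ ?_
    · rw [hE]
      exact Cardinal.natCast_lt_aleph0
    · rw [hE]
      simp
  exact Pool.Agent.Y174.basis_append h3 hx

/-- a place which is trivial on `Z` is trivial on `E` -/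
theorem ord_E {E : IntermediateField ℂ K} (hZE : ∀ z : Z, algebraMap Z K z ∈ E)
    (hEZ : ∀ e ∈ E, IsAlgebraic Z e) {Q : Place ℂ K} (h : ∀ z : Z, Q.ord (algebraMap Z K z) = 0)
    {e : K} (he : e ∈ E) : Q.ord e = 0 := by
  let i1 : Algebra Z E := RingHom.toAlgebra
    { toFun := fun z => ⟨algebraMap Z K z, hZE z⟩
      map_one' := Subtype.ext (map_one _)
      map_mul' := fun _ _ => Subtype.ext (map_mul _ _ _)
      map_zero' := Subtype.ext (map_zero _)
      map_add' := fun _ _ => Subtype.ext (map_add _ _ _) }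
  have h1 : IsScalarTower Z E K := IsScalarTower.of_algebraMap_eq fun _ => rfl
  have h0 : IsScalarTower ℂ Z E := IsScalarTower.of_algebraMap_eq fun c =>
    Subtype.ext (IsScalarTower.algebraMap_apply ℂ Z K c)
  have h2 : Algebra.IsAlgebraic Z E := by
    constructor
    intro f
    have h3 := hEZ f f.2
    exact (isAlgebraic_algebraMap_iff (algebraMap E K).injective).1 h3
  exact ord_eq_zero_of_alg (K0 := Z) (K1 := E) (K2 := K) Q h ⟨e, he⟩

/-- the ramification index over the smaller field is at least as large -/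
theorem index_le {Q : Place ℂ K} {P : Place ℂ L} {e : ℕ} (h : Over Q P e) {R : Place ℂ Z} {e' : ℕ}
    (h' : Over Q R e') : e ≤ e' := by
  obtain ⟨f, -, hf⟩ := R.surj
  have h1 := h'.2 f
  rw [hf, mul_one, IsScalarTower.algebraMap_apply Z L K, h.2] at h1
  have h2 : (e : ℤ) ∣ e' := ⟨_, h1.symm⟩
  exact Nat.le_of_dvd h'.1 (by exact_mod_cast h2)

/-- the form `φ` along the fibres is large enough at the horizontal divisors -/
def Tame (E : IntermediateField ℂ K) (y : Fin (N' + 1) → L) (Δ : Place ℂ L → ℚ) (r N : ℕ)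
    (φ : (Fin r → Derivation E K K) → K) : Prop :=
  ∀ (Q : Place ℂ K) (P : Place ℂ L) (e : ℕ), IsPrimeDivisor y P → Over Q P e →
    (∀ z ∈ E, Q.ord z = 0) → ∀ U : Fin r → Derivation E K K, (∀ a, DerReg Q (rho E (U a))) →
      φ U = 0 ∨ (N : ℚ) * (e * (1 - Δ P) - 1) ≤ Q.ord (φ U)

/-- **The sections given by the forms on the base.** -/
theorem lower (hK : Algebra.trdeg ℂ K = (n + r : ℕ)) (hZ : Algebra.trdeg ℂ Z = n)
    {E : IntermediateField ℂ K} (hE : Algebra.trdeg ℂ E = n)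
    (hZE : ∀ z : Z, algebraMap Z K z ∈ E) (hEZ : ∀ e ∈ E, IsAlgebraic Z e)
    (hy : NormalModel y) {Δ : Place ℂ L → ℚ} (hΔ : Effective y Δ)
    (hk : KodGe ℂ Z n (fun _ => False) n) {N : ℕ} (hN : 1 ≤ N)
    {φ : (Fin r → Derivation E K K) → K} {Γ : Place E K → ℚ}
    (hφ : FolForm E (n + r) r N Γ φ) (hφ0 : φ ≠ 0)
    (hT : Tame E y Δ r N φ) : ∃ m0 : ℕ, 1 ≤ m0 ∧
      ∃ ω : Fin (n + 1) → (Fin (n + r) → Derivation ℂ L L) → L,
        (∀ j, IsSection y (n + r) m0 (m0 • Δ) (ω j)) ∧ ∃ D, ω 0 D ≠ 0 ∧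
          AlgebraicIndependent ℂ (fun i : Fin n => ω i.succ D / ω 0 D) := by
  classical
  have hL : Algebra.trdeg ℂ L = (n + r : ℕ) :=
     Pool.Agent.Y184.NT.trdeg_below (K := K) hK
  have hE0 : CharZero E := charZero_of_injective_algebraMap (algebraMap ℂ E).injective
  obtain ⟨N0, hN0, η, hη, D0, hD0, hai⟩ := hk
  obtain ⟨t, ε, ht, hε⟩ := exists_crd hZ
  obtain ⟨x, U, hx, hU⟩ := exists_crd (trdeg_fib hK hE)
  obtain ⟨d0, hd0, hden⟩ := exists_den' hΔ
  -- the values on the frame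
  have hφU : φ U ≠ 0 := by
    intro h0
    apply hφ0
    funext D
    rw [pluri_coord hx hU hφ.1 D, h0, mul_zero]
    rfl
  have hval : ∀ j, η j D0 = (Matrix.of fun i j => D0 i (t j)).det ^ N0 * η j ε :=
    fun j => pluri_coord ht hε (hη j).1 D0
  have hc0 : (Matrix.of fun i j => D0 i (t j)).det ^ N0 ≠ 0 := by
    intro h0
    rw [hval, h0, zero_mul] at hD0
    exact hD0 rfl
  have hη0 : η 0 ε ≠ 0 := by
    intro h0
    rw [hval, h0, mul_zero] at hD0
    exact hD0 rfl
  have hai' : AlgebraicIndependent ℂ (fun i : Fin n => η i.succ ε / η 0 ε) := by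
    have e1 : (fun i : Fin n => η i.succ D0 / η 0 D0) = fun i : Fin n => η i.succ ε / η 0 ε := by
      funext i
      rw [hval i.succ, hval 0, mul_div_mul_left _ _ hc0]
    rwa [e1] at hai
  -- the frame upstairs
  obtain ⟨z, hz⟩ : ∃ z : Fin (n + r) → K, z = Fin.append (fun j => algebraMap Z K (t j)) x :=
    ⟨_, rfl⟩
  have hzb : IsTranscendenceBasis ℂ z := by
    rw [hz]
    exact basis_app hE hZE ht hx
  choose G0 hG0 using fun i : Fin (n + r) =>
    exists_der _ hzb fun j => if i = j then 1 else 0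
  let W : Fin (n + 1) → (Fin (n + r) → Derivation ℂ K K) → K := fun j D =>
    (prodForm t ε x U N0 N (η j) φ D) ^ d0
  have hWp : ∀ j, IsPluri (N0 * N * d0) (W j) := fun j =>
    pluri_pow (prodForm_pluri t ε x U N0 N (η j) φ) d0
  have hWG : ∀ j, W j G0 = (algebraMap Z K (η j ε) ^ N * φ U ^ N0) ^ d0 := by
    intro j
    change (prodForm t ε x U N0 N (η j) φ G0) ^ d0 = _
    unfold prodForm
    rw [← hz]
    have h1 : (Matrix.of fun i j => G0 i (z j) : Matrix (Fin (n + r)) (Fin (n + r)) K) = 1 := by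
      ext i j
      rw [Matrix.of_apply, hG0, Matrix.one_apply]
    rw [h1, Matrix.det_one, one_pow, one_mul]
  have hreg : ∀ P ∈ {P : Place ℂ L | IsPrimeDivisor y P}, ∀ (Q : Place ℂ K) (e : ℕ),
      Over Q P e → ∀ j, ∀ G : Fin (n + r) → Derivation ℂ K K, (∀ i, DerReg Q (G i)) →
        W j G = 0 ∨ -((N0 * N * d0 : ℕ) * (1 - e * (1 - (Δ P : ℝ)))) ≤
          (Q.ord (W j G) : ℝ) := by
    intro P hP Q e hQ j G hG
    have hPd : Divisorial (n + r) P := hP.divisorial hy hL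
    have hQd : Divisorial (n + r) Q := divisorial_up hQ hPd
    have hMpos : (0 : ℝ) ≤ (N0 * N * d0 : ℕ) := Nat.cast_nonneg _
    by_cases htriv : ∃ f : Z, Q.ord (algebraMap Z K f) ≠ 0
    · obtain ⟨e', P', hP'⟩ := exists_over Q htriv
      have h3 := (prod_vert hK hZ hZE ht hε hx hU (hη j).1
        (fun R hR => (hη j).2.2 R hR id) hφ hQd hP' hG).pow d0
      have h4 := index_le hQ hP'
      rcases h3 with h3 | h3
      · exact Or.inl h3
      right
      have h5 : ((((d0 : ℤ) * ((N0 * N : ℕ) * ((e' : ℤ) - 1)) : ℤ)) : ℝ) ≤ Q.ord (W j G) := by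
        exact_mod_cast h3
      refine le_trans ?_ h5
      have h6 : (0 : ℝ) ≤ (Δ P : ℝ) := by exact_mod_cast hΔ.1 P hP
      have h7 : (e : ℝ) ≤ e' := by exact_mod_cast h4
      have h8 : (0 : ℝ) ≤ (e : ℝ) := Nat.cast_nonneg e
      have h9 : (e : ℝ) * (1 - Δ P) - 1 ≤ e' - 1 := by nlinarith
      have h10 := mul_le_mul_of_nonneg_left h9 hMpos
      push_cast at h10 ⊢
      nlinarith
    · push Not at htriv
      have hEt : ∀ z ∈ E, Q.ord z = 0 := fun z hz => ord_E hZE hEZ htriv hz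
      have hreal : ∀ U' : Fin r → Derivation E K K, (∀ a, DerReg Q (rho E (U' a))) →
          φ U' = 0 ∨ (N : ℚ) * (e * (1 - Δ P) - 1) ≤ Q.ord (φ U') := hT Q P e hP hQ hEt
      have h3 := prod_hor hK hZE t ε hx hU (N0 := N0) (η j) hφ.1 hQd htriv
        (c0 := ⌈(N : ℚ) * (e * (1 - Δ P) - 1)⌉) (fun U' hU' => (hreal U' hU').imp_right
          fun h => Int.ceil_le.2 h) hG
      rcases h3.pow d0 with h3 | h3
      · exact Or.inl h3
      right
      have h5 : ((((d0 : ℤ) * (N0 * ⌈(N : ℚ) * (e * (1 - Δ P) - 1)⌉) : ℤ)) : ℝ) ≤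
          Q.ord (W j G) := by
        exact_mod_cast h3
      refine le_trans ?_ h5
      have h6 : ((N : ℝ) * (e * (1 - Δ P) - 1)) ≤
          ((⌈(N : ℚ) * (e * (1 - Δ P) - 1)⌉ : ℤ) : ℝ) := by
        have h7 := Int.le_ceil ((N : ℚ) * (e * (1 - Δ P) - 1))
        exact_mod_cast h7
      have h8 : (0 : ℝ) ≤ (d0 : ℝ) * N0 := by positivity
      have h9 := mul_le_mul_of_nonneg_left h6 h8
      push_cast at h9 ⊢
      nlinarith
  have hne : W 0 G0 ≠ 0 := by
    rw [hWG]
    exact pow_ne_zero _ (mul_ne_zero (pow_ne_zero _ ((map_ne_zero _).2 hη0))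
      (pow_ne_zero _ hφU))
  have hind0 : AlgebraicIndependent ℂ (fun i : Fin n => W i.succ G0 / W 0 G0) := by
    have h3 : (fun i : Fin n => W i.succ G0 / W 0 G0) = fun i : Fin n =>
        (algebraMap Z K (η i.succ ε / η 0 ε)) ^ (N * d0) := by
      funext i
      rw [hWG, hWG, map_div₀, div_pow, ← div_pow, mul_div_mul_right _ _ (pow_ne_zero _ hφU),
        ← div_pow, ← pow_mul, div_pow]
    rw [h3]
    exact ai_pow (hai'.map' (f := IsScalarTower.toAlgHom ℂ Z K)
      (algebraMap Z K).injective) (Nat.mul_pos hN hd0).ne'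
  obtain ⟨R, Ω, hR, h1, h2, E', hE', hind⟩ := descend1 (K := L) (L := K) hL
    (X := {P | IsPrimeDivisor y P}) (fun P hP => hP.divisorial hy hL) (Δ := Δ)
    (M := N0 * N * d0) (fun P hP => hden P hP (N0 * N)) (W := W) hWp hreg hne hind0
  refine ⟨N0 * N * d0 * R, ?_, Ω, fun j => ⟨h1 j, fun P hP G hG => ?_⟩, E', hE', hind⟩
  · exact Nat.mul_pos (Nat.mul_pos (Nat.mul_pos hN0 hN) hd0) hR
  · rcases h2 P hP j G hG with h3 | h3
    · exact Or.inl h3
    · exact Or.inr (by simpa using h3)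

end

end Pool.Agent.T2h13.AF
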