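import Pool.Agent.T2h13.AF.Ab3
import Pool.Agent.R887.Pull
import Pool.Agent.R887.Disc2

/-!
Sections on a variety which is dominated by a fibration, and sections on the generic fibre.
-/

set_option autoImplicit false
set_option linter.overlappingInstances false
set_option linter.unusedSectionVars false
set_option maxHeartbeats 4000000
set_option synthInstance.maxHeartbeats 400000

open FF Pool.Agent.W603.LV Pool.Agent.W602.GT Pool.Agent.W619.PQ Pool.Agent.Y172
open Pool.Agent.R887 (pull pull_pluri pull_ord pull_ne disc_bound2 LogDisc)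

namespace Pool.Agent.T2h13.AF

section

variable {K : Type} [Field K] [Algebra ℂ K] [Algebra.EssFiniteType ℂ K] {n r : ℕ}
  {L : Type} [Field L] [Algebra ℂ L] [Algebra.EssFiniteType ℂ L] [Algebra L K]
  [IsScalarTower ℂ L K] [FiniteDimensional L K] {N' : ℕ} {y : Fin (N' + 1) → L}

/-- The restriction of the pull back of `K_X + Δ` to the generic fibre `F` is at most `K_F + Γ`. -/
def HorLe (E : IntermediateField ℂ K) (r w : ℕ) (Γ : Place E K → ℚ) (y : Fin (N' + 1) → L)
    (Δ : Place ℂ L → ℚ) : Prop :=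
  ∀ Q : Place E K, Divisorial r Q → ∀ (P : Place ℂ L) (e : ℕ), Over (res Q) P e →
    ∃ α : ℚ, LogDisc y w Δ P α ∧ 1 - Γ Q ≤ e * α

/-- the form on the generic fibre -/
noncomputable def relW (E : IntermediateField ℂ K) (x : Fin r → K) (m : ℕ) (c : K)
    (D : Fin r → Derivation E K K) : K :=
  (Matrix.of fun a b => D a (x b)).det ^ m * c

theorem relW_pluri (E : IntermediateField ℂ K) (x : Fin r → K) (m : ℕ) (c : K) :
    IsPluri m (relW E x m c) := by
  intro A D
  have e1 : (Matrix.of fun a b => (∑ j, A a j • D j) (x b)) =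
      A * Matrix.of fun a b => D a (x b) := by
    ext a b
    rw [Matrix.of_apply, Matrix.mul_apply, sum_smul_apply]
    rfl
  unfold relW
  rw [e1, Matrix.det_mul, mul_pow, mul_assoc]

/-- the restriction of the pull back of a form to the generic fibre -/
theorem relW_eq {E : IntermediateField ℂ K} {t : Fin n → E} {x : Fin r → K}
    (hz : IsTranscendenceBasis ℂ (Fin.append (fun j => (t j : K)) x : Fin (n + r) → K))
    {G0 : Fin (n + r) → Derivation ℂ K K}
    (hG0 : ∀ i j, G0 i ((Fin.append (fun j => (t j : K)) x : Fin (n + r) → K) j) =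
      if i = j then 1 else 0) {m : ℕ} {W : (Fin (n + r) → Derivation ℂ K K) → K}
    (hW : IsPluri m W) {F : Fin n → Derivation ℂ K K}
    (hF : ∀ i j, F i (t j : K) = if i = j then 1 else 0) (D : Fin r → Derivation E K K) :
    relW E x m (W G0) D = W (Fin.append F fun a => rho E (D a)) := by
  rw [pluri_coord hz hG0 hW (Fin.append F fun a => rho E (D a))]
  unfold relW
  have h1 := Pool.Agent.Y174.det_append (t := fun j => (t j : K)) x (G := F)
    (D := fun a => rho E (D a)) hF fun i j => rho_zero (D i) _ (t j).2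
  have h2 : (Matrix.of fun a b => D a (x b)).det =
      (Matrix.of fun i j => rho E (D i) (x j) : Matrix (Fin r) (Fin r) K).det := rfl
  rw [h2, ← h1]

/-- **Sections on the generic fibre.** -/
theorem rel_sec (hr : 1 ≤ r) (hK : Algebra.trdeg ℂ K = (n + r : ℕ)) {E : IntermediateField ℂ K}
    {t : Fin n → E} (ht : IsTranscendenceBasis ℂ t) {x : Fin r → K}
    (hz : IsTranscendenceBasis ℂ (Fin.append (fun j => (t j : K)) x : Fin (n + r) → K))
    {G0 : Fin (n + r) → Derivation ℂ K K}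
    (hG0 : ∀ i j, G0 i ((Fin.append (fun j => (t j : K)) x : Fin (n + r) → K) j) =
      if i = j then 1 else 0) (hy : NormalModel y) {Δ A : Place ℂ L → ℚ}
    (hA : Effective y A) {Γ : Place E K → ℚ} (hH : HorLe E r (n + r) Γ y Δ)
    {x0 : Fin (n + r) → L}
    {E0 : Fin (n + r) → Derivation ℂ L L} (hx0 : IsTranscendenceBasis ℂ x0)
    (hE0 : ∀ i j, E0 i (x0 j) = if i = j then 1 else 0) :
    ∃ S : Finset K, ∀ m : ℕ, 1 ≤ m → ∀ ω, IsSection y (n + r) m (m • Δ + A) ω →
      FibSec E r Γ S m (relW E x m (pull K x0 E0 m ω G0)) := by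
  classical
  obtain ⟨r', rfl⟩ : ∃ r', r = r' + 1 := ⟨r - 1, by omega⟩
  have hL : Algebra.trdeg ℂ L = (n + (r' + 1) : ℕ) :=
    Pool.Agent.Y184.NT.trdeg_below (K := K) hK
  have hfr : IsFrame E0 := fun D => ⟨_, (Pool.Agent.W73.PG.PULL.expand x0 hx0 E0 hE0 D).symm⟩
  choose s hs hs0 hsb using fun j => disc_bound2 (Δ := Δ) hy hA hfr j
  refine ⟨Finset.univ.image fun j => (algebraMap L K (s j))⁻¹, fun m hm ω hω =>
    ⟨relW_pluri E x m _, fun v hv D hD => ?_⟩⟩
  obtain ⟨hvd, F, hFr, hF⟩ := exists_local hK ht hv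
  rw [relW_eq hz hG0 (pull_pluri x0 E0 m ω) hF]
  obtain ⟨P, e, hP⟩ := exists_below (k := ℂ) (K := L) (L := K) (res v)
  have hPd : Divisorial (n + (r' + 1)) P := divisorial_down hP hvd
  obtain ⟨j, hj⟩ := exists_centred hy P
  obtain ⟨α, hα, hα1⟩ := hH v hv P e hP
  have hω' : IsSection y (n + (r' + 1)) m (m • Δ + 1 • A) ω := by rwa [one_smul]
  have h1 := hsb j P hj α hα m 1 hm ω hω'
  have h2 : OrdGe P ω ((⌈(m : ℚ) * (α - 1)⌉ - P.ord (s j) : ℤ) : ℚ) := by
    intro G hG
    refine (h1 G hG).imp_right fun h3 => ?_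
    have h4 : ⌈(m : ℚ) * (α - 1)⌉ ≤ P.ord (ω G) + P.ord (s j) := by
      rw [Int.ceil_le]
      push_cast at h3 ⊢
      linarith
    have h5 : ⌈(m : ℚ) * (α - 1)⌉ - P.ord (s j) ≤ P.ord (ω G) := by linarith
    exact_mod_cast h5
  have h3 := pull_ord (K' := K) hL hx0 hE0 hP hPd hω.1 h2
    (D := Fin.append F fun a => rho E (D a)) (fun i => by
      refine Fin.addCases (fun i => ?_) (fun i => ?_) i
      · rw [Fin.append_left]
        exact hFr i
      · rw [Fin.append_right]
        exact hD i)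
  rcases h3 with h3 | h3
  · exact Or.inl h3
  right
  refine ⟨(algebraMap L K (s j))⁻¹, Finset.mem_image_of_mem _ (Finset.mem_univ j),
    inv_ne_zero ((map_ne_zero _).2 (hs0 j)), ?_⟩
  have h4 : v.ord (algebraMap L K (s j)) = e * P.ord (s j) := hP.2 (s j)
  have h3' : (m : ℤ) * (e - 1) + e * (⌈(m : ℚ) * (α - 1)⌉ - P.ord (s j)) ≤
      v.ord (pull K x0 E0 m ω (Fin.append F fun a => rho E (D a))) := h3
  rw [v.ord_inv, h4]
  have h5 : (-(e * P.ord (s j) : ℤ) : ℚ) - m * Γ v ≤
      ((m : ℤ) * (e - 1) + e * (⌈(m : ℚ) * (α - 1)⌉ - P.ord (s j)) : ℤ) := by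
    have h7 := Int.le_ceil ((m : ℚ) * (α - 1))
    have h8 : (0 : ℚ) ≤ e := Nat.cast_nonneg e
    have h9 := mul_le_mul_of_nonneg_left h7 h8
    have h10 : (0 : ℚ) ≤ m := Nat.cast_nonneg m
    have h11 : (0 : ℚ) ≤ (m : ℚ) * (e * α - 1 + Γ v) := mul_nonneg h10 (by linarith)
    push_cast
    nlinarith
  have h6 : (((m : ℤ) * (e - 1) + e * (⌈(m : ℚ) * (α - 1)⌉ - P.ord (s j)) : ℤ) : ℚ) ≤
      (v.ord (pull K x0 E0 m ω (Fin.append F fun a => rho E (D a))) : ℚ) := by
    exact_mod_cast h3'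
  push_cast at h5 h6 ⊢
  linarith

end

end Pool.Agent.T2h13.AF
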