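import Pool.Agent.T2h13.AF.Ab4
import Pool.Agent.Y174.W3
import Pool.Agent.Y174.V6
import Pool.Agent.N110.Sec
import Pool.Agent.R887.Frm

/-!
Sections on a variety which is dominated by a fibration: the upper bound.
-/

set_option autoImplicit false
set_option linter.overlappingInstances false
set_option linter.unusedSectionVars false
set_option maxHeartbeats 4000000
set_option synthInstance.maxHeartbeats 400000

open FF Pool.Agent.W603.LV Pool.Agent.W602.GT Pool.Agent.W619.PQ Pool.Agent.Y172 MvPolynomial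
open Pool.Agent.R887 (pull pull_pluri pull_ord pull_ne disc_bound2 LogDisc Bnd exists_ordc)
open Pool.Agent.N110 (Lsp IsDisc isSection_iff dom_sections affS fin_affS)
open Pool.Agent.Y173.QA (Adic adic_reg DegPl)

namespace Pool.Agent.T2h13.AF

section

variable {L : Type} [Field L] [Algebra ℂ L] {Z : Type} [Field Z] [Algebra ℂ Z]
  [Algebra.EssFiniteType ℂ Z] [Algebra Z L] [IsScalarTower ℂ Z L] {N' n r : ℕ}
  {y : Fin (N' + 1) → L}

/-- **The growth of the sections, from a bound for the generic fibre.** -/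
theorem upper (hy : NormalModel y) (hL : Algebra.trdeg ℂ L = (n + r : ℕ))
    (hZ : Algebra.trdeg ℂ Z = n) {Δ A : Place ℂ L → ℚ} (hΔ : Effective y Δ)
    (hA : Effective y A) {x0 : Fin (n + r) → L} {E0 : Fin (n + r) → Derivation ℂ L L}
    (hx0 : IsTranscendenceBasis ℂ x0) (hE0 : ∀ i j, E0 i (x0 j) = if i = j then 1 else 0)
    {M : ℕ} (hM : ∀ m : ℕ, 1 ≤ m → ∀ (k : ℕ) (f : Fin k → L),
      (∀ i, ∃ ω, IsSection y (n + r) m (m • Δ + A) ω ∧ ω E0 = f i) →
      Module.finrank Z (Submodule.span Z (Set.range f)) ≤ M) :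
    ∃ C : ℕ, ∀ m : ℕ, 1 ≤ m → ∀ (k : ℕ) (f : Fin k → L), LinearIndependent ℂ f →
      (∀ i, ∃ ω, IsSection y (n + r) m (m • Δ + A) ω ∧ ω E0 = f i) → k ≤ C * m ^ n := by
  classical
  have hZ0 : CharZero Z := charZero_of_injective_algebraMap (algebraMap ℂ Z).injective
  have hess := hy.ess
  obtain ⟨i, hi⟩ := hy.ne
  obtain ⟨c, hcfin, hc⟩ := exists_ordc hy hL hx0 hE0
  have hc' : IsDisc y E0 c := hc
  obtain ⟨β, f0, hf0, h1⟩ := dom_sections hy hi hcfin hΔ.2
  obtain ⟨βA, g0, hg0, h2⟩ := h1 A hA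
  obtain ⟨t, -, ht, -⟩ := exists_crd hZ
  obtain ⟨x, -, hx, -⟩ := exists_crd (Pool.Agent.Y174.trdeg_LK (L := Z) hZ hL)
  have hzb := Pool.Agent.Y174.basis_append ht hx
  have hfd := fd_basis hzb
  have hfdZ := fd_basis ht
  obtain ⟨T, hTf, -, C, c1, hcount⟩ := Pool.Agent.Y174.count_rel ht hx hfd hfdZ ({1} : Finset L)
  obtain ⟨z, hz⟩ : ∃ z : Fin (n + r) → L, z = Fin.append (algebraMap Z L ∘ t) x := ⟨_, rfl⟩
  rw [← hz] at hcount hzb
  -- the common denominator
  choose q hq0 hqi using fun s : L => Pool.Agent.TH122.AB.exists_mult hzb s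
  obtain ⟨Q, hQ⟩ : ∃ Q, Q = ∏ l, q (y l / y i) := ⟨_, rfl⟩
  have hQ0 : Q ≠ 0 := by
    rw [hQ]
    exact Finset.prod_ne_zero_iff.2 fun s _ => hq0 _
  have hQz : aeval z Q ≠ 0 := fun h0 =>
    hQ0 ((injective_iff_map_eq_zero _).1 hzb.1 _ h0)
  have hQS : ∀ l, ∀ P : Place ℂ L, (∀ f : MvPolynomial (Fin (n + r)) ℂ, P.Reg (aeval z f)) →
      P.Reg (aeval z Q * (y l / y i)) := by
    intro l P hP
    rw [hQ, ← Finset.mul_prod_erase Finset.univ _ (Finset.mem_univ l), map_mul,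
      mul_comm (aeval _ (q (y l / y i))), mul_assoc]
    exact P.reg_mul (hP _) (Pool.Agent.TH122.AB.reg_of_int hP (hqi _))
  -- the bound at the places at infinity
  obtain ⟨C3, hC3⟩ : ∃ C3 : ℕ, ∀ b, ∀ P ∈ T b, ∀ l,
      -(C3 : ℤ) ≤ P.ord (aeval z Q) + P.ord (y l / y i) := by
    have hfin2 : (⋃ b, T b).Finite := Set.finite_iUnion hTf
    have := hfin2.fintype
    refine ⟨∑ P : (⋃ b, T b), ∑ l, (P.1.ord (aeval z Q) + P.1.ord (y l / y i)).natAbs,
      fun b P hP l => ?_⟩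
    have hPm : P ∈ ⋃ b, T b := Set.mem_iUnion.2 ⟨b, hP⟩
    have h3 : (P.ord (aeval z Q) + P.ord (y l / y i)).natAbs ≤
        ∑ l, (P.ord (aeval z Q) + P.ord (y l / y i)).natAbs :=
      Finset.single_le_sum (f := fun l => (P.ord (aeval z Q) + P.ord (y l / y i)).natAbs)
        (fun _ _ => Nat.zero_le _) (Finset.mem_univ l)
    have h4 : ∑ l, (P.ord (aeval z Q) + P.ord (y l / y i)).natAbs ≤
        ∑ P : (⋃ b, T b), ∑ l, (P.1.ord (aeval z Q) + P.1.ord (y l / y i)).natAbs :=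
      Finset.single_le_sum (f := fun P : (⋃ b, T b) =>
        ∑ l, (P.1.ord (aeval z Q) + P.1.ord (y l / y i)).natAbs)
        (fun _ _ => Nat.zero_le _) (Finset.mem_univ ⟨P, hPm⟩)
    omega
  refine ⟨C * M * ((β + βA) * C3 + c1) ^ n, fun m hm k f hf hsec => ?_⟩
  obtain ⟨B, hB⟩ : ∃ B : ℕ, B = m * β + βA := ⟨_, rfl⟩
  obtain ⟨h, hh⟩ : ∃ h : L, h = (aeval z Q) ^ B * (f0 ^ m * g0) := ⟨_, rfl⟩
  have hh0 : h ≠ 0 := by
    rw [hh]
    exact mul_ne_zero (pow_ne_zero _ hQz) (mul_ne_zero (pow_ne_zero _ hf0) hg0)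
  have hlin : LinearIndependent ℂ fun l => h * f l := by
    have h3 := hf.map' (LinearMap.mulLeft ℂ h) (by
      rw [LinearMap.ker_eq_bot]
      exact fun a b hab => mul_left_cancel₀ hh0 hab)
    exact h3
  have hrk : Module.finrank Z (Submodule.span Z (Set.range fun l => h * f l)) ≤ M := by
    have h2 : Submodule.span Z (Set.range fun l => h * f l) =
        (Submodule.span Z (Set.range f)).map (LinearMap.mulLeft Z h) := by
      rw [Submodule.map_span, ← Set.range_comp]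
      rfl
    rw [h2]
    have h3 : FiniteDimensional Z (Submodule.span Z (Set.range f)) :=
      FiniteDimensional.span_of_finite Z (Set.finite_range _)
    exact (Submodule.finrank_map_le _ _).trans (hM m hm k f hsec)
  -- the orders
  have hord : ∀ l, f l ≠ 0 → ∀ P : Place ℂ L, ∃ p, y p / y i ≠ 0 ∧
      (B : ℤ) * (P.ord (aeval z Q) + P.ord (y p / y i)) ≤ P.ord (h * f l) := by
    intro l hl P
    obtain ⟨ω, hω, hωf⟩ := hsec l
    have h3 : f l ∈ Lsp y c m (m • Δ + 1 • A) := by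
      rw [← hωf, one_smul]
      exact (isSection_iff hc' hω.1).1 hω
    obtain ⟨s, ⟨p, rfl⟩, hs0, h4⟩ := h2 m 1 _ h3 P
    refine ⟨p, hs0, ?_⟩
    have e1 : h * f l = (aeval z Q) ^ B * (f0 ^ m * g0 ^ 1 * f l) := by
      rw [hh]
      ring
    rw [e1, P.ord_mul (pow_ne_zero _ hQz) (mul_ne_zero (mul_ne_zero (pow_ne_zero _ hf0)
      (pow_ne_zero _ hg0)) hl), P.ord_pow, mul_add]
    have h5 : ((m * β + 1 * βA : ℕ) : ℤ) = B := by
      rw [hB, one_mul]
    rw [h5] at h4
    linarith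
  have h3 := hcount (fun _ => B * C3) k M _ hlin hrk (fun l p hp P hP => ?_) fun l b P hP => ?_
  · refine h3.trans ?_
    rw [Finset.prod_const, Finset.card_univ, Fintype.card_fin]
    have h4 : B * C3 + c1 ≤ ((β + βA) * C3 + c1) * m := by
      have h5 : B ≤ (β + βA) * m := by
        rw [hB, Nat.add_mul, Nat.mul_comm m β]
        exact Nat.add_le_add_left (Nat.le_mul_of_pos_right _ hm) _
      have h6 := Nat.mul_le_mul_right C3 h5
      have h7 := Nat.le_mul_of_pos_right c1 hm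
      calc B * C3 + c1 ≤ (β + βA) * m * C3 + c1 * m := Nat.add_le_add h6 h7
        _ = ((β + βA) * C3 + c1) * m := by ring
    calc C * M * (B * C3 + c1) ^ n ≤ C * M * (((β + βA) * C3 + c1) * m) ^ n :=
          Nat.mul_le_mul_left _ (Nat.pow_le_pow_left h4 n)
      _ = C * M * ((β + βA) * C3 + c1) ^ n * m ^ n := by
          rw [Nat.mul_pow]
          ring
  · by_cases hl : f l = 0
    · left
      rw [hl, mul_zero]
    right
    refine ⟨1, Finset.mem_singleton_self _, one_ne_zero, ?_⟩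
    obtain ⟨p', hp0, h4⟩ := hord l hl P
    have h5 := (hQS p' P (adic_reg hP)).resolve_left (mul_ne_zero hQz hp0)
    rw [P.ord_mul hQz hp0] at h5
    rw [P.ord_one, mul_zero]
    exact (mul_nonneg (Int.natCast_nonneg _) h5).trans h4
  · by_cases hl : f l = 0
    · left
      rw [hl, mul_zero]
    right
    obtain ⟨p', hp0, h4⟩ := hord l hl P
    have h5 := hC3 b P hP p'
    have h6 := mul_le_mul_of_nonneg_left h5 (Int.natCast_nonneg B)
    refine le_trans ?_ h4
    push_cast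
    linarith

end

end Pool.Agent.T2h13.AF
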