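import Pool.Agent.T2h13.AF.Ab5

/-!
Sections on a variety which is dominated by a fibration whose generic fibre has numerical dimension
zero.
-/

set_option autoImplicit false
set_option linter.overlappingInstances false
set_option linter.unusedSectionVars false
set_option maxHeartbeats 4000000
set_option synthInstance.maxHeartbeats 400000

open FF Pool.Agent.W603.LV Pool.Agent.W602.GT Pool.Agent.W619.PQ Pool.Agent.Y172
open Pool.Agent.R887 (pull pull_pluri pull_ord pull_ne disc_bound2 LogDisc)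

namespace Pool.Agent.T2h13.AF

section

variable {K : Type} [Field K] [Algebra ℂ K] [Algebra.EssFiniteType ℂ K] {n r : ℕ}
  {L : Type} [Field L] [Algebra ℂ L] [Algebra.EssFiniteType ℂ L] [Algebra L K]
  [IsScalarTower ℂ L K] [FiniteDimensional L K] {N' : ℕ} {y : Fin (N' + 1) → L}

/-- the value of the form on the generic fibre on the frame -/
theorem relW_frame {E : IntermediateField ℂ K} {x : Fin r → K} {U : Fin r → Derivation E K K}
    (hU : ∀ a l, U a (x l) = if a = l then 1 else 0) (m : ℕ) (c : K) : relW E x m c U = c := by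
  unfold relW
  have h1 : (Matrix.of fun i j => U i (x j) : Matrix (Fin r) (Fin r) K) = 1 := by
    ext i j
    rw [Matrix.of_apply, hU, Matrix.one_apply]
  rw [h1, Matrix.det_one, one_pow, one_mul]

/-- linearly independent functions give linearly independent forms -/
theorem relW_indep {E : IntermediateField ℂ K} {x : Fin r → K} {U : Fin r → Derivation E K K}
    (hU : ∀ a l, U a (x l) = if a = l then 1 else 0) (m : ℕ) {k : ℕ} {c : Fin k → K}
    (hc : LinearIndependent E c) : LinearIndependent E fun i => relW E x m (c i) := by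
  refine LinearIndependent.of_comp (LinearMap.proj U) ?_
  have h1 : (LinearMap.proj U : ((Fin r → Derivation E K K) → K) →ₗ[E] K) ∘
      (fun i => relW E x m (c i)) = c := by
    funext i
    exact relW_frame hU m (c i)
  rw [h1]
  exact hc

/-- **The number of the sections which are linearly independent over the base.** -/
theorem few_indep (hr : 1 ≤ r) (hK : Algebra.trdeg ℂ K = (n + r : ℕ)) {E : IntermediateField ℂ K}
    (hE : Algebra.trdeg ℂ E = n) {Γ : Place E K → ℚ} (hν : NuLeZero E r Γ) (hy : NormalModel y)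
    {Δ A : Place ℂ L → ℚ} (hA : Effective y A) (hH : HorLe E r (n + r) Γ y Δ)
    {x0 : Fin (n + r) → L} {E0 : Fin (n + r) → Derivation ℂ L L} (hx0 : IsTranscendenceBasis ℂ x0)
    (hE0 : ∀ i j, E0 i (x0 j) = if i = j then 1 else 0) :
    ∃ C : ℕ, ∀ m : ℕ, 1 ≤ m → ∀ (k : ℕ) (f : Fin k → L),
      (∀ i, ∃ ω, IsSection y (n + r) m (m • Δ + A) ω ∧ ω E0 = f i) →
      LinearIndependent E (fun i => algebraMap L K (f i)) → k ≤ C := by
  have hE' : CharZero E := charZero_of_injective_algebraMap (algebraMap ℂ E).injective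
  obtain ⟨t, -, ht, -⟩ := exists_crd hE
  obtain ⟨x, U, hx, hU⟩ := exists_crd (trdeg_fib hK hE)
  have hzb : IsTranscendenceBasis ℂ (Fin.append (fun j => (t j : K)) x : Fin (n + r) → K) :=
    Pool.Agent.Y174.basis_append ht hx
  choose G0 hG0 using fun i : Fin (n + r) =>
    exists_der _ hzb fun j => if i = j then 1 else 0
  obtain ⟨S, hS⟩ := rel_sec hr hK ht hzb hG0 hy hA hH hx0 hE0
  obtain ⟨C, hC⟩ := hν S
  refine ⟨C, fun m hm k f hf hind => ?_⟩
  choose ω hω hωf using hf
  obtain ⟨J, hJ⟩ : ∃ J : K, J = (Matrix.of fun i j => G0 i (algebraMap L K (x0 j))).det ^ m :=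
    ⟨_, rfl⟩
  have hfr : IsFrame G0 := fun D => ⟨_, (Pool.Agent.W73.PG.PULL.expand _ hzb G0 hG0 D).symm⟩
  have hL : Algebra.trdeg ℂ L = (n + r : ℕ) := Pool.Agent.Y184.NT.trdeg_below (K := K) hK
  have hJ0 : J ≠ 0 := by
    rw [hJ]
    exact pow_ne_zero _ (pull_ne hL hE0 hfr)
  have hval : ∀ i, pull K x0 E0 m (ω i) G0 = J * algebraMap L K (f i) := by
    intro i
    rw [hJ, ← hωf i]
    rfl
  have hind' : LinearIndependent E fun i => pull K x0 E0 m (ω i) G0 := by
    have h1 := hind.map' (LinearMap.mulLeft E J) (by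
      rw [LinearMap.ker_eq_bot]
      exact fun a b hab => mul_left_cancel₀ hJ0 hab)
    have h2 : (fun i => pull K x0 E0 m (ω i) G0) =
        (LinearMap.mulLeft E J) ∘ fun i => algebraMap L K (f i) := by
      funext i
      exact hval i
    rw [h2]
    exact h1
  exact hC m k _ hm (fun l => hS m hm (ω l) (hω l)) (relW_indep hU m hind')

variable {Z : Type} [Field Z] [Algebra ℂ Z] [Algebra.EssFiniteType ℂ Z] [Algebra Z L]
  [Algebra Z K] [IsScalarTower ℂ Z L] [IsScalarTower ℂ Z K] [IsScalarTower Z L K]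

/-- **The growth of the sections.** -/
theorem upper_fib (hr : 1 ≤ r) (hK : Algebra.trdeg ℂ K = (n + r : ℕ)) (hZ : Algebra.trdeg ℂ Z = n)
    {E : IntermediateField ℂ K} (hE : Algebra.trdeg ℂ E = n)
    (hZE : ∀ z : Z, algebraMap Z K z ∈ E) (hEZ : ∀ e ∈ E, IsAlgebraic Z e)
    (hcl : ∀ z : L, IsAlgebraic Z z → ∃ w : Z, algebraMap Z L w = z)
    {Γ : Place E K → ℚ} (hν : NuLeZero E r Γ) (hy : NormalModel y)
    {Δ A : Place ℂ L → ℚ} (hΔ : Effective y Δ) (hA : Effective y A)
    (hH : HorLe E r (n + r) Γ y Δ) {x0 : Fin (n + r) → L}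
    {E0 : Fin (n + r) → Derivation ℂ L L} (hx0 : IsTranscendenceBasis ℂ x0)
    (hE0 : ∀ i j, E0 i (x0 j) = if i = j then 1 else 0) :
    ∃ C : ℕ, ∀ m : ℕ, 1 ≤ m → ∀ (k : ℕ) (f : Fin k → L), LinearIndependent ℂ f →
      (∀ i, ∃ ω, IsSection y (n + r) m (m • Δ + A) ω ∧ ω E0 = f i) → k ≤ C * m ^ n := by
  have hZ0 : CharZero Z := charZero_of_injective_algebraMap (algebraMap ℂ Z).injective
  have hL : Algebra.trdeg ℂ L = (n + r : ℕ) := Pool.Agent.Y184.NT.trdeg_below (K := K) hK
  obtain ⟨C, hC⟩ := few_indep hr hK hE hν hy (Δ := Δ) hA hH hx0 hE0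
  let i1 : Algebra Z E := RingHom.toAlgebra
    { toFun := fun z => ⟨algebraMap Z K z, hZE z⟩
      map_one' := Subtype.ext (map_one _)
      map_mul' := fun _ _ => Subtype.ext (map_mul _ _ _)
      map_zero' := Subtype.ext (map_zero _)
      map_add' := fun _ _ => Subtype.ext (map_add _ _ _) }
  have h1 : IsScalarTower Z E K := IsScalarTower.of_algebraMap_eq fun _ => rfl
  have h0 : IsScalarTower ℂ Z E := IsScalarTower.of_algebraMap_eq fun c =>
    Subtype.ext (IsScalarTower.algebraMap_apply ℂ Z K c)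
  have h2 : Algebra.IsAlgebraic Z E := by
    constructor
    intro f
    have h3 := hEZ f f.2
    exact (isAlgebraic_algebraMap_iff (algebraMap E K).injective).1 h3
  refine upper hy hL hZ hΔ hA hx0 hE0 (M := C) fun m hm k f hf => ?_
  have h5 : FiniteDimensional Z (Submodule.span Z (Set.range f)) :=
    FiniteDimensional.span_of_finite Z (Set.finite_range _)
  obtain ⟨g, hg, -, hglin⟩ := Submodule.exists_fun_fin_finrank_span_eq Z (Set.range f)
  have h4 := Pool.Agent.Y174.lin_disj (L := Z) (K := L) (Λ := E) (F := K)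
    (fun z hz => hcl z hz.isAlgebraic) hglin
  refine hC m hm _ g (fun i => ?_) h4
  obtain ⟨j, hj⟩ := hg i
  obtain ⟨ω, hω, hωf⟩ := hf j
  exact ⟨ω, hω, by rw [hωf, hj]⟩

end

end Pool.Agent.T2h13.AF
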