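import Pool.Agent.T2h13.AF.Loc
import Pool.Agent.Y721.NT.Vert

/-!
The divisorial places of the total space which are trivial on the base are the divisorial places of
the generic fibre.
-/

set_option autoImplicit false
set_option linter.overlappingInstances false
set_option linter.unusedSectionVars false
set_option maxHeartbeats 4000000
set_option synthInstance.maxHeartbeats 400000

open FF
open Pool.Agent.W602.GT (Divisorial DerReg)
open Pool.Agent.Y721.NT (red_aeval)

namespace Pool.Agent.T2h13.AF

section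

/-- a place with many algebraically independent residues is divisorial -/
theorem div_of_res {k K : Type} [Field k] [Field K] [Algebra k K] {P : Place k K} {n : ℕ}
    (m : Fin (n - 1) → P.RF) (hm : AlgebraicIndependent k m) : Divisorial n P := by
  choose x hx hxm using fun i => P.red_surjective (m i)
  refine ⟨x, fun G hG => ?_⟩
  obtain ⟨h3, h4⟩ := red_aeval P x hx G
  have h5 : MvPolynomial.aeval (fun i => P.red (x i)) G ≠ 0 := by
    intro h0
    apply hG
    have h6 : (fun i => P.red (x i)) = m := funext hxm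
    rw [h6] at h0
    exact (injective_iff_map_eq_zero _).1 hm G h0
  rw [← h4, Ne, P.red_eq_zero_iff h3] at h5
  push Not at h5
  refine ⟨h5.1, ?_⟩
  have := (P.reg_iff h5.1).1 h3
  omega

variable {K : Type} [Field K] [Algebra ℂ K] {n r : ℕ}

/-- a place which is trivial on `E` as a place over `E` -/
def upE {E : IntermediateField ℂ K} (Q : Place ℂ K) (h : ∀ z ∈ E, Q.ord z = 0) : Place E K where
  ord := Q.ord
  ord_zero := Q.ord_zero
  ord_mul := Q.ord_mul
  ord_add := Q.ord_add
  ord_const := fun {c} _ => h c c.2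
  surj := Q.surj

theorem res_upE {E : IntermediateField ℂ K} (Q : Place ℂ K) (h : ∀ z ∈ E, Q.ord z = 0) :
    res (upE Q h) = Q := rfl

/-- **Horizontal divisorial places.** -/
theorem upE_div {E : IntermediateField ℂ K} (hE : Algebra.trdeg ℂ E = n) (hr : 1 ≤ r)
    {Q : Place ℂ K} (h : ∀ z ∈ E, Q.ord z = 0) (hQ : Divisorial (n + r) Q) :
    Divisorial r (upE Q h) := by
  obtain ⟨w, hw⟩ : ∃ w : Place E K, w = upE Q h := ⟨_, rfl⟩
  rw [← hw]
  let i1 : Algebra ℂ w.RF := ((algebraMap E w.RF).comp (algebraMap ℂ E)).toAlgebra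
  have i2 : IsScalarTower ℂ E w.RF := IsScalarTower.of_algebraMap_eq fun _ => rfl
  have hN : ((n + r - 1 : ℕ) : Cardinal) ≤ Algebra.trdeg ℂ w.RF := by
    obtain ⟨u, hu⟩ := hQ
    have hreg : ∀ i, w.Reg (u i) := by
      intro i
      have h1 := (hu (MvPolynomial.X i) (MvPolynomial.X_ne_zero i)).2
      rw [MvPolynomial.aeval_X] at h1
      rw [hw]
      exact Or.inr h1.ge
    have hind : AlgebraicIndependent ℂ (fun i => w.red (u i)) := by
      rw [algebraicIndependent_iff]
      intro G hG
      by_contra hG0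
      obtain ⟨h1, h2⟩ := hu G hG0
      have h3 := (red_aeval w u hreg (MvPolynomial.map (algebraMap ℂ E) G)).2
      rw [MvPolynomial.aeval_map_algebraMap, MvPolynomial.aeval_map_algebraMap, hG] at h3
      refine w.red_ne_zero h1 ?_ h3
      rw [hw]
      exact h2
    have h4 := hind.cardinalMk_le_trdeg
    rwa [Cardinal.mk_fin] at h4
  have e2 : Algebra.trdeg ℂ E + Algebra.trdeg E w.RF = Algebra.trdeg ℂ w.RF :=
    _root_.trdeg_add_eq ℂ E (A := w.RF)
  have hle : ((r - 1 : ℕ) : Cardinal) ≤ Algebra.trdeg E w.RF := by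
    rw [← e2, hE] at hN
    have h5 : ((n + r - 1 : ℕ) : Cardinal) = (n : Cardinal) + ((r - 1 : ℕ) : Cardinal) := by
      have : n + r - 1 = n + (r - 1) := by omega
      rw [this]
      push_cast
      rfl
    rw [h5, add_comm (n : Cardinal), add_comm (n : Cardinal)] at hN
    exact (Cardinal.add_le_add_iff_of_lt_aleph0 Cardinal.natCast_lt_aleph0).1 hN
  obtain ⟨s, hs⟩ := exists_isTranscendenceBasis E w.RF
  rw [← hs.cardinalMk_eq_trdeg, ← Cardinal.mk_fin, Cardinal.le_def] at hle
  obtain ⟨f⟩ := hle
  exact div_of_res (fun i => ((f i : s) : w.RF)) (hs.1.comp f f.injective)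

end

end Pool.Agent.T2h13.AF
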