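import Pool.Agent.T2h13.AF.Ab6
import Pool.Agent.T2h13.AF.DivE

/-!
The case that the form along the fibres is not large enough: there are no sections.
-/

set_option autoImplicit false
set_option linter.overlappingInstances false
set_option linter.unusedSectionVars false
set_option maxHeartbeats 4000000
set_option synthInstance.maxHeartbeats 400000

open FF Pool.Agent.W603.LV Pool.Agent.W602.GT Pool.Agent.W619.PQ Pool.Agent.Y172
open Pool.Agent.R887 (pull pull_pluri pull_ord pull_ne disc_bound2 LogDisc)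

namespace Pool.Agent.T2h13.AF

section

variable {k K : Type*} [Field k] [Field K] [Algebra k K]

theorem ord_sum {ι : Type*} [DecidableEq ι] (w : Place k K) {f : ι → K} (s : Finset ι)
    (hs : s.Nonempty) (h0 : ∀ i ∈ s, f i ≠ 0)
    (hinj : ∀ i ∈ s, ∀ j ∈ s, w.ord (f i) = w.ord (f j) → i = j) :
    ∑ i ∈ s, f i ≠ 0 ∧ ∃ i ∈ s, w.ord (∑ i ∈ s, f i) = w.ord (f i) := by
  induction hs using Finset.Nonempty.cons_induction with
  | singleton a =>
    rw [Finset.sum_singleton]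
    exact ⟨h0 a (Finset.mem_singleton_self a), a, Finset.mem_singleton_self a, rfl⟩
  | cons a s ha hs ih =>
    obtain ⟨h1, i, hi, h2⟩ := ih (fun i hi => h0 i (Finset.mem_cons_of_mem hi))
      fun i hi j hj => hinj i (Finset.mem_cons_of_mem hi) j (Finset.mem_cons_of_mem hj)
    have hfa := h0 a (Finset.mem_cons_self a s)
    rw [Finset.sum_cons]
    rcases lt_trichotomy (w.ord (f a)) (w.ord (∑ i ∈ s, f i)) with h3 | h3 | h3
    · obtain ⟨h4, h5⟩ := w.ord_add_eq hfa h1 h3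
      exact ⟨h4, a, Finset.mem_cons_self a s, h5⟩
    · exfalso
      rw [h2] at h3
      have h4 := hinj a (Finset.mem_cons_self a s) i (Finset.mem_cons_of_mem hi) h3
      rw [h4] at ha
      exact ha hi
    · obtain ⟨h4, h5⟩ := w.ord_add_eq h1 hfa h3
      rw [add_comm]
      exact ⟨h4, i, Finset.mem_cons_of_mem hi, h5.trans h2⟩

/-- functions with different orders are linearly independent -/
theorem lin_of_ord {ι : Type*} [Fintype ι] (w : Place k K) {f : ι → K} (h0 : ∀ i, f i ≠ 0)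
    (hinj : Function.Injective fun i => w.ord (f i)) : LinearIndependent k f := by
  classical
  rw [Fintype.linearIndependent_iff]
  intro c hc
  by_contra hcon
  push Not at hcon
  obtain ⟨i0, hi0⟩ := hcon
  let s := Finset.univ.filter fun i => c i ≠ 0
  have h1 : ∑ i ∈ s, c i • f i = 0 := by
    rw [← hc, Finset.sum_filter]
    refine Finset.sum_congr rfl fun i _ => ?_
    by_cases h : c i = 0
    · simp [h]
    · simp [h]
  have hne : ∀ i ∈ s, c i • f i ≠ 0 := fun i hi =>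
    smul_ne_zero (Finset.mem_filter.1 hi).2 (h0 i)
  have hord : ∀ i ∈ s, w.ord (c i • f i) = w.ord (f i) := by
    intro i hi
    have hci := (Finset.mem_filter.1 hi).2
    rw [Algebra.smul_def, w.ord_mul ((map_ne_zero _).2 hci) (h0 i), w.ord_const hci, zero_add]
  refine (ord_sum w s ⟨i0, Finset.mem_filter.2 ⟨Finset.mem_univ _, hi0⟩⟩ hne
    fun i hi j hj hij => ?_).1 h1
  rw [hord i hi, hord j hj] at hij
  exact hinj hij

end

section

variable {K : Type} [Field K] [Algebra ℂ K] [Algebra.EssFiniteType ℂ K] {n r : ℕ}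
  {L : Type} [Field L] [Algebra ℂ L] [Algebra.EssFiniteType ℂ L] [Algebra L K]
  [IsScalarTower ℂ L K] [FiniteDimensional L K] {N' : ℕ} {y : Fin (N' + 1) → L}

/-- **No sections.** -/
theorem no_sections (hr : 1 ≤ r) (hK : Algebra.trdeg ℂ K = (n + r : ℕ))
    {E : IntermediateField ℂ K} (hE : Algebra.trdeg ℂ E = n)
    {Γ : Place E K → ℚ} (hν : NuLeZero E r Γ) (hy : NormalModel y) {Δ A : Place ℂ L → ℚ}
    (hA : Effective y A) (hH : HorLe E r (n + r) Γ y Δ) {N : ℕ} (hN : 1 ≤ N)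
    {φ : (Fin r → Derivation E K K) → K} (hφ : FolForm E (n + r) r N Γ φ)
    (hT : ¬ Tame E y Δ r N φ) :
    ∃ m1 : ℕ, ∀ m, m1 ≤ m → ∀ ω, IsSection y (n + r) m (m • Δ + A) ω → ω = 0 := by
  classical
  have hE' : CharZero E := charZero_of_injective_algebraMap (algebraMap ℂ E).injective
  have hL : Algebra.trdeg ℂ L = (n + r : ℕ) := Pool.Agent.Y184.NT.trdeg_below (K := K) hK
  obtain ⟨x0, E0, hx0, hE0⟩ := exists_crd hL
  obtain ⟨t, -, ht, -⟩ := exists_crd hE
  obtain ⟨x, U0, hx, hU0⟩ := exists_crd (trdeg_fib hK hE)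
  have hzb : IsTranscendenceBasis ℂ (Fin.append (fun j => (t j : K)) x : Fin (n + r) → K) :=
    Pool.Agent.Y174.basis_append ht hx
  choose G0 hG0 using fun i : Fin (n + r) =>
    exists_der _ hzb fun j => if i = j then 1 else 0
  have hfr : IsFrame G0 := fun D => ⟨_, (Pool.Agent.W73.PG.PULL.expand _ hzb G0 hG0 D).symm⟩
  have hfr0 : IsFrame E0 := fun D => ⟨_, (Pool.Agent.W73.PG.PULL.expand _ hx0 E0 hE0 D).symm⟩
  obtain ⟨S, hS⟩ := rel_sec hr hK ht hzb hG0 hy (Δ := Δ) hA hH hx0 hE0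
  obtain ⟨C, hC⟩ := hν (S.image fun s => s ^ N)
  -- the bad place
  unfold Tame at hT
  push Not at hT
  obtain ⟨Q, P, e, hP, hQP, hQE, U, hU, hφU, hlt⟩ := hT
  have hPd : Divisorial (n + r) P := hP.divisorial hy hL
  have hQd : Divisorial (n + r) Q := divisorial_up hQP hPd
  obtain ⟨w, hw⟩ : ∃ w, w = upE Q hQE := ⟨_, rfl⟩
  have hwd : Divisorial r w := by
    rw [hw]
    exact upE_div hE hr hQE hQd
  have hwr : res w = Q := by
    rw [hw]
    rfl
  have hword : ∀ f, w.ord f = Q.ord f := fun f => by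
    rw [hw]
    rfl
  obtain ⟨F, hFr, hF⟩ : ∃ F : Fin n → Derivation ℂ K K,
      (∀ j, DerReg (res w) (F j)) ∧ ∀ i j, F i (t j : K) = if i = j then 1 else 0 := by
    obtain ⟨r', rfl⟩ : ∃ r', r = r' + 1 := ⟨r - 1, by omega⟩
    exact (exists_local hK ht hwd).2
  rw [hwr] at hFr
  -- the determinant of the vertical frame
  obtain ⟨d, hd⟩ : ∃ d : K, d = (Matrix.of fun a b => U a (x b)).det := ⟨_, rfl⟩
  have hφd : φ U = d ^ N * φ U0 := by
    rw [hd]
    exact pluri_coord hx hU0 hφ.1 U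
  have hd0 : d ≠ 0 := by
    rintro rfl
    rw [zero_pow (by omega), zero_mul] at hφd
    exact hφU hφd
  have hφ0 : φ U0 ≠ 0 := by
    intro h0
    rw [h0, mul_zero] at hφd
    exact hφU hφd
  by_contra hcon
  push Not at hcon
  -- the function of a section
  let g : ℕ → ((Fin (n + r) → Derivation ℂ L L) → L) → K := fun m ω =>
    (pull K x0 E0 m ω G0) ^ N / φ U0 ^ m
  have hg0 : ∀ m ω, IsPluri m ω → ω ≠ 0 → g m ω ≠ 0 := by
    intro m ω hω h0
    refine div_ne_zero (pow_ne_zero _ ?_) (pow_ne_zero _ hφ0)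
    refine mul_ne_zero (pow_ne_zero _ (pull_ne hL hE0 hfr)) ?_
    rw [Ne, map_eq_zero]
    exact fun h => h0 (pluri_zero hfr0 hω h)
  obtain ⟨a, ha⟩ : ∃ a : ℤ, a = Q.ord (φ U) := ⟨_, rfl⟩
  obtain ⟨b, hb⟩ : ∃ b : ℚ, b = e * (1 - Δ P) - 1 := ⟨_, rfl⟩
  rw [← ha, ← hb] at hlt
  have hgord : ∀ m ω, 1 ≤ m → IsSection y (n + r) m (m • Δ + A) ω → ω ≠ 0 →
      (m : ℚ) * (N * b - a) - N * e * A P ≤ Q.ord (g m ω) := by
    intro m ω hm hω h0
    have h2 : OrdGe P ω ((⌈-((m : ℚ) * Δ P + A P)⌉ : ℤ) : ℚ) := by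
      intro G hG
      refine (hω.2 P hP G hG).imp_right fun h3 => ?_
      rw [Pi.add_apply, Pi.smul_apply, nsmul_eq_mul] at h3
      have h4 : ⌈-((m : ℚ) * Δ P + A P)⌉ ≤ P.ord (ω G) := Int.ceil_le.2 h3
      exact_mod_cast h4
    have h3 := pull_ord (K' := K) hL hx0 hE0 hQP hPd hω.1 h2
      (D := Fin.append F fun a => rho E (U a)) (fun i => by
        refine Fin.addCases (fun i => ?_) (fun i => ?_) i
        · rw [Fin.append_left]
          exact hFr i
        · rw [Fin.append_right]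
          exact hU i)
    have h4 : relW E x m (pull K x0 E0 m ω G0) U = pull K x0 E0 m ω
        (Fin.append F fun a => rho E (U a)) :=
      relW_eq hzb hG0 (pull_pluri x0 E0 m ω) hF U
    rw [← h4] at h3
    have h5 : relW E x m (pull K x0 E0 m ω G0) U = d ^ m * pull K x0 E0 m ω G0 := by
      rw [hd]
      rfl
    have hp0 : pull K x0 E0 m ω G0 ≠ 0 := by
      intro h
      have := hg0 m ω hω.1 h0
      apply this
      change (pull K x0 E0 m ω G0) ^ N / φ U0 ^ m = 0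
      rw [h, zero_pow (by omega), zero_div]
    have h6 := h3.resolve_left (by
      rw [h5]
      exact mul_ne_zero (pow_ne_zero _ hd0) hp0)
    rw [h5, Q.ord_mul (pow_ne_zero _ hd0) hp0, Q.ord_pow] at h6
    have h7 : Q.ord (φ U) = N * Q.ord d + Q.ord (φ U0) := by
      rw [hφd, Q.ord_mul (pow_ne_zero _ hd0) hφ0, Q.ord_pow]
    have h8 : Q.ord (g m ω) = N * Q.ord (pull K x0 E0 m ω G0) - m * Q.ord (φ U0) := by
      change Q.ord ((pull K x0 E0 m ω G0) ^ N / φ U0 ^ m) = _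
      rw [Q.ord_div (pow_ne_zero _ hp0) (pow_ne_zero _ hφ0), Q.ord_pow, Q.ord_pow]
    rw [h8]
    have h9 := Int.le_ceil (-((m : ℚ) * Δ P + A P))
    have h10 : ((m * ((e : ℤ) - 1) + e * ⌈-((m : ℚ) * Δ P + A P)⌉ : ℤ) : ℚ) ≤
        ((m * Q.ord d + Q.ord (pull K x0 E0 m ω G0) : ℤ) : ℚ) := by exact_mod_cast h6
    have h11 : (a : ℚ) = N * Q.ord d + Q.ord (φ U0) := by
      rw [ha, h7]
      push_cast
      ring
    rw [h11, hb]
    have he : (0 : ℚ) ≤ e := Nat.cast_nonneg e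
    have hN0 : (0 : ℚ) ≤ N := Nat.cast_nonneg N
    have h12 := mul_le_mul_of_nonneg_left h9 he
    push_cast at h10 ⊢
    have h13 : (m : ℚ) * (e * (1 - Δ P) - 1) - e * A P ≤ m * Q.ord d +
        Q.ord (pull K x0 E0 m ω G0) := by nlinarith
    have h14 := mul_le_mul_of_nonneg_left h13 hN0
    nlinarith
  -- the set of the orders is infinite
  obtain ⟨O, hO⟩ : ∃ O : Set ℤ, O = {o | ∃ m ω, 1 ≤ m ∧
      IsSection y (n + r) m (m • Δ + A) ω ∧ ω ≠ 0 ∧ w.ord (g m ω) = o} := ⟨_, rfl⟩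
  have hOinf : O.Infinite := by
    refine Set.infinite_of_not_bddAbove fun ⟨B, hB⟩ => ?_
    have hpos : (0 : ℚ) < N * b - a := by linarith
    obtain ⟨m1, hm1⟩ := exists_nat_gt (((B : ℚ) + N * e * A P) / (N * b - a))
    obtain ⟨m, hm, ω, hω, hω0⟩ := hcon (m1 + 1)
    have h1 := hgord m ω (by omega) hω hω0
    have h2 : w.ord (g m ω) ∈ O := by
      rw [hO]
      exact ⟨m, ω, by omega, hω, hω0, rfl⟩
    have h3 := hB h2
    rw [hword] at h3
    have h4 : (Q.ord (g m ω) : ℚ) ≤ B := by exact_mod_cast h3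
    rw [div_lt_iff₀ hpos] at hm1
    have h5 : (m1 : ℚ) ≤ m := by
      have : m1 ≤ m := by omega
      exact_mod_cast this
    have h6 := mul_le_mul_of_nonneg_right h5 hpos.le
    linarith
  obtain ⟨T, hT, hTc⟩ := hOinf.exists_subset_card_eq (C + 1)
  have hch : ∀ o : T, ∃ m ω, 1 ≤ m ∧ IsSection y (n + r) m (m • Δ + A) ω ∧ ω ≠ 0 ∧
      w.ord (g m ω) = o := by
    intro o
    have := hT o.2
    rw [hO] at this
    exact this
  choose m ω hm hω hω0 hωo using hch
  let ι : Fin (C + 1) ≃ T := (Finset.equivFinOfCardEq hTc).symm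
  obtain ⟨M', hM'⟩ : ∃ M' : ℕ, M' = 1 + ∑ o, m o := ⟨_, rfl⟩
  have hmM : ∀ o, m o ≤ M' := by
    intro o
    have := Finset.single_le_sum (f := m) (fun _ _ => Nat.zero_le _) (Finset.mem_univ o)
    omega
  let Ψ : Fin (C + 1) → (Fin r → Derivation E K K) → K := fun i D =>
    (relW E x (m (ι i)) (pull K x0 E0 (m (ι i)) (ω (ι i)) G0) D) ^ N * φ D ^ (M' - m (ι i))
  have hΨval : ∀ i, Ψ i U0 = φ U0 ^ M' * g (m (ι i)) (ω (ι i)) := by
    intro i
    change (relW E x (m (ι i)) _ U0) ^ N * φ U0 ^ (M' - m (ι i)) = _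
    rw [relW_frame hU0]
    change _ = φ U0 ^ M' * ((pull K x0 E0 (m (ι i)) (ω (ι i)) G0) ^ N / φ U0 ^ m (ι i))
    have h1 : φ U0 ^ M' = φ U0 ^ (M' - m (ι i)) * φ U0 ^ m (ι i) := by
      rw [← pow_add, Nat.sub_add_cancel (hmM _)]
    rw [h1]
    field_simp
  have hΨlin : LinearIndependent E Ψ := by
    refine LinearIndependent.of_comp (LinearMap.proj U0) ?_
    have h1 : (LinearMap.proj U0 : ((Fin r → Derivation E K K) → K) →ₗ[E] K) ∘ Ψ =
        fun i => φ U0 ^ M' * g (m (ι i)) (ω (ι i)) := by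
      funext i
      exact hΨval i
    rw [h1]
    refine lin_of_ord w (fun i => mul_ne_zero (pow_ne_zero _ hφ0)
      (hg0 _ _ (hω (ι i)).1 (hω0 _))) fun i j hij => ?_
    have h2 : ∀ i, w.ord (φ U0 ^ M' * g (m (ι i)) (ω (ι i))) = w.ord (φ U0 ^ M') + (ι i : ℤ) := by
      intro i
      rw [w.ord_mul (pow_ne_zero _ hφ0) (hg0 _ _ (hω (ι i)).1 (hω0 _)), hωo]
    simp only [h2] at hij
    have h3 : ((ι i : T) : ℤ) = (ι j : T) := by linarith
    exact ι.injective (Subtype.ext h3)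
  have hΨsec : ∀ i, FibSec E r Γ (S.image fun s => s ^ N) (N * M') (Ψ i) := by
    intro i
    have hs := hS (m (ι i)) (hm _) (ω (ι i)) (hω _)
    refine ⟨?_, fun v hv D hD => ?_⟩
    · have h1 := pluri_mul (pluri_pow (relW_pluri E x (m (ι i))
        (pull K x0 E0 (m (ι i)) (ω (ι i)) G0)) N) (pluri_pow hφ.1 (M' - m (ι i)))
      have h2 : m (ι i) * N + N * (M' - m (ι i)) = N * M' := by
        rw [Nat.mul_comm, ← Nat.mul_add, Nat.add_sub_cancel' (hmM _)]
      rw [h2] at h1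
      exact h1
    · by_cases h3 : Ψ i D = 0
      · exact Or.inl h3
      right
      have h3' : (relW E x (m (ι i)) (pull K x0 E0 (m (ι i)) (ω (ι i)) G0) D) ^ N *
          φ D ^ (M' - m (ι i)) ≠ 0 := h3
      have h4 := left_ne_zero_of_mul h3'
      have h5 := right_ne_zero_of_mul h3'
      have h6 : relW E x (m (ι i)) (pull K x0 E0 (m (ι i)) (ω (ι i)) G0) D ≠ 0 := by
        intro h
        rw [h, zero_pow (by omega)] at h4
        exact h4 rfl
      obtain ⟨s, hs1, hs0, h2⟩ := (hs.2 v hv D hD).resolve_left h6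
      refine ⟨s ^ N, Finset.mem_image_of_mem _ hs1, pow_ne_zero _ hs0, ?_⟩
      have e1 : v.ord (Ψ i D) = N * v.ord (relW E x (m (ι i))
          (pull K x0 E0 (m (ι i)) (ω (ι i)) G0) D) + (M' - m (ι i) : ℕ) * v.ord (φ D) := by
        change v.ord ((relW E x (m (ι i)) (pull K x0 E0 (m (ι i)) (ω (ι i)) G0) D) ^ N *
          φ D ^ (M' - m (ι i))) = _
        rw [v.ord_mul h4 h5, v.ord_pow, v.ord_pow]
      have h7 : ((M' - m (ι i) : ℕ) : ℚ) * (-(N * Γ v)) ≤
          (M' - m (ι i) : ℕ) * (v.ord (φ D) : ℚ) := by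
        rcases hφ.2.1 v hv D hD with h8 | h8
        · have h9 : M' - m (ι i) = 0 := by
            by_contra h9
            rw [h8, zero_pow h9] at h5
            exact h5 rfl
          rw [h9]
          simp
        · exact mul_le_mul_of_nonneg_left h8 (Nat.cast_nonneg _)
      have h8 := mul_le_mul_of_nonneg_left h2 (Nat.cast_nonneg N : (0 : ℚ) ≤ N)
      rw [e1, v.ord_pow]
      rw [Nat.cast_sub (hmM _)] at h7
      push_cast [Nat.cast_sub (hmM (ι i))] at h7 h8 ⊢
      nlinarith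
  have hfinal := hC (N * M') (C + 1) Ψ (by
    have : 1 ≤ M' := by omega
    exact Nat.mul_pos hN this) hΨsec hΨlin
  omega

end

end Pool.Agent.T2h13.AF
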