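import Mathlib

/-!
Derivations: constants, spanning families, extensions to algebraic extensions.
-/

set_option autoImplicit false

open Polynomial

namespace Pool.Agent.T2h13.AF

section

variable {k F : Type*} [Field k] [CharZero k] [Field F] [Algebra k F]

/-- A derivation which kills a field kills the elements which are algebraic over it. -/
theorem der_alg' {A : Type*} [Field A] [CharZero A] [Algebra A F] {D : Derivation k F F}
    (hD : ∀ a : A, D (algebraMap A F a) = 0) {z : F} (hz : IsAlgebraic A z) : D z = 0 := by
  have key : ∀ p : A[X], D (aeval z p) = (aeval z (derivative p)) * D z := by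
    intro p
    induction p using Polynomial.induction_on' with
    | add p q hp hq => rw [map_add, map_add, hp, hq, derivative_add, map_add, add_mul]
    | monomial i a =>
      rw [aeval_monomial, derivative_monomial, aeval_monomial, D.leibniz, hD, smul_zero, add_zero,
        D.leibniz_pow, map_mul, map_natCast]
      simp only [smul_eq_mul, nsmul_eq_mul]
      ring
  have h1 := key (minpoly A z)
  rw [minpoly.aeval, map_zero] at h1
  have h2 : aeval z (derivative (minpoly A z)) ≠ 0 :=
    (minpoly.irreducible hz.isIntegral).separable.aeval_derivative_ne_zero (minpoly.aeval _ _)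
  exact (mul_eq_zero.1 h1.symm).resolve_left h2

/-- A derivation which kills a subfield kills the elements which are algebraic over it. -/
theorem der_alg {E : IntermediateField k F} {D : Derivation k F F} (hD : ∀ x ∈ E, D x = 0)
    {z : F} (hz : IsAlgebraic E z) : D z = 0 := by
  have hchar : CharZero E := charZero_of_injective_algebraMap (algebraMap k E).injective
  exact der_alg' (A := E) (fun a => hD a a.2) hz

theorem der_sum_app {ι : Type*} (s : Finset ι) (D : ι → Derivation k F F) (f : F) :
    (∑ i ∈ s, D i) f = ∑ i ∈ s, D i f := by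
  classical
  induction s using Finset.induction_on with
  | empty => simp
  | insert i s hi ih => rw [Finset.sum_insert hi, Finset.sum_insert hi, Derivation.add_apply, ih]

/-- a derivation which is zero on a transcendence basis is zero -/
theorem der_bas {ι : Type*} {y : ι → F} (hy : IsTranscendenceBasis k y) {D : Derivation k F F}
    (h : ∀ i, D (y i) = 0) : D = 0 := by
  let C : IntermediateField k F :=
    { carrier := {f | D f = 0}
      mul_mem' := fun {a b} ha hb => by
        change D (a * b) = 0
        rw [D.leibniz, show D a = 0 from ha, show D b = 0 from hb, smul_zero, smul_zero, add_zero]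
      one_mem' := D.map_one_eq_zero
      add_mem' := fun {a b} ha hb => by
        change D (a + b) = 0
        rw [map_add, show D a = 0 from ha, show D b = 0 from hb, add_zero]
      zero_mem' := map_zero D
      algebraMap_mem' := fun r => D.map_algebraMap r
      inv_mem' := fun a ha => by
        change D a⁻¹ = 0
        rw [D.leibniz_inv, show D a = 0 from ha, smul_zero] }
  have hle : IntermediateField.adjoin k (Set.range y) ≤ C := by
    rw [IntermediateField.adjoin_le_iff]
    rintro _ ⟨i, rfl⟩
    exact h i
  have halg : Algebra.IsAlgebraic (IntermediateField.adjoin k (Set.range y)) F :=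
    hy.isAlgebraic_field
  apply Derivation.ext
  intro f
  exact der_alg (E := IntermediateField.adjoin k (Set.range y)) (fun x hx => hle hx)
    (halg.isAlgebraic f)

/-- Linearly independent derivations which kill `x` have an invertible matrix of values on
complementary coordinates. -/
theorem det_of_lin {n r : ℕ} {x : Fin n → F} {t : Fin r → F}
    (hb : IsTranscendenceBasis k (Fin.append x t)) {U : Fin r → Derivation k F F}
    (hU : LinearIndependent F U) (hUx : ∀ a j, U a (x j) = 0) :
    (Matrix.of fun a b => U a (t b) : Matrix (Fin r) (Fin r) F).det ≠ 0 := by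
  intro h0
  obtain ⟨v, hv, hvM⟩ := Matrix.exists_vecMul_eq_zero_iff.2 h0
  apply hv
  rw [Fintype.linearIndependent_iff] at hU
  have h1 : ∑ a, v a • U a = 0 := by
    apply der_bas hb
    intro i
    rw [der_sum_app]
    refine Fin.addCases (fun j => ?_) (fun b => ?_) i
    · rw [Fin.append_left]
      refine Finset.sum_eq_zero fun a _ => ?_
      rw [Derivation.smul_apply, hUx, smul_zero]
    · rw [Fin.append_right]
      have h2 := congrFun hvM b
      rw [Matrix.vecMul, dotProduct] at h2
      exact h2
  funext a
  exact hU v h1 a

/-- The derivations which kill `x` are combinations of the `U`. -/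
theorem span_of_det {n r : ℕ} {x : Fin n → F} {t : Fin r → F}
    (hb : IsTranscendenceBasis k (Fin.append x t)) {U : Fin r → Derivation k F F}
    (hUx : ∀ a j, U a (x j) = 0)
    (hdet : (Matrix.of fun a b => U a (t b) : Matrix (Fin r) (Fin r) F).det ≠ 0)
    {D : Derivation k F F} (hD : ∀ j, D (x j) = 0) : ∃ c : Fin r → F, D = ∑ a, c a • U a := by
  obtain ⟨M, hM⟩ : ∃ M : Matrix (Fin r) (Fin r) F, M = Matrix.of fun a b => U a (t b) := ⟨_, rfl⟩
  rw [← hM] at hdet
  have hu : IsUnit M.det := isUnit_iff_ne_zero.2 hdet
  refine ⟨Matrix.vecMul (fun b => D (t b)) M⁻¹, ?_⟩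
  apply sub_eq_zero.1
  apply der_bas hb
  intro i
  rw [Derivation.sub_apply, der_sum_app]
  refine Fin.addCases (fun j => ?_) (fun b => ?_) i
  · rw [Fin.append_left, hD, zero_sub, neg_eq_zero]
    refine Finset.sum_eq_zero fun a _ => ?_
    rw [Derivation.smul_apply, hUx, smul_zero]
  · rw [Fin.append_right, sub_eq_zero]
    have h2 : Matrix.vecMul (Matrix.vecMul (fun b => D (t b)) M⁻¹) M = fun b => D (t b) := by
      rw [Matrix.vecMul_vecMul, Matrix.nonsing_inv_mul _ hu, Matrix.vecMul_one]
    have h3 := congrFun h2 b
    rw [← h3]
    rw [Matrix.vecMul, dotProduct]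
    refine Finset.sum_congr rfl fun a _ => ?_
    rw [Derivation.smul_apply, smul_eq_mul, hM]
    rfl

/-- The expansion of all derivations. -/
theorem expand_FU {n r : ℕ} {x : Fin n → F} {t : Fin r → F}
    (hb : IsTranscendenceBasis k (Fin.append x t)) {U : Fin r → Derivation k F F}
    (hUx : ∀ a j, U a (x j) = 0)
    (hdet : (Matrix.of fun a b => U a (t b) : Matrix (Fin r) (Fin r) F).det ≠ 0)
    {Fr : Fin n → Derivation k F F} (hF : ∀ i j, Fr i (x j) = if i = j then 1 else 0)
    (D : Derivation k F F) : ∃ c : Fin n ⊕ Fin r → F, D = ∑ v, c v • Sum.elim Fr U v := by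
  classical
  obtain ⟨c, hc⟩ := span_of_det hb hUx hdet (D := D - ∑ i, D (x i) • Fr i) (fun j => by
    rw [Derivation.sub_apply, der_sum_app, Finset.sum_eq_single j]
    · rw [Derivation.smul_apply, hF, if_pos rfl, smul_eq_mul, mul_one, sub_self]
    · intro i _ hi
      rw [Derivation.smul_apply, hF, if_neg hi, smul_zero]
    · intro h
      exact absurd (Finset.mem_univ _) h)
  refine ⟨Sum.elim (fun i => D (x i)) c, ?_⟩
  rw [Fintype.sum_sum_type]
  simp only [Sum.elim_inl, Sum.elim_inr]
  rw [← hc]
  abel

end

end Pool.Agent.T2h13.AF
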