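import Pool.Agent.Y173.QA.Hart
import Pool.Agent.T2h13.AF.Lin

/-!
Extensions of derivations, constants, and functions which are regular at all places over a subfield.
-/

set_option autoImplicit false
set_option linter.overlappingInstances false
set_option linter.unusedSectionVars false

open FF IntermediateField Pool.Agent.W619.PQ Pool.Agent.W619.PL Pool.Agent.W619.TW
  Pool.Agent.W603.LV Pool.Agent.W619.Y Pool.Agent.TH122.AB MvPolynomial
  Pool.Agent.Y173.QA

namespace Pool.Agent.T2h13.AF

section

variable {k K Ω : Type} [Field k] [CharZero k] [Field K] [Algebra k K] [Field Ω] [Algebra k Ω]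
  [Algebra K Ω] [IsScalarTower k K Ω] [Algebra.IsAlgebraic K Ω]

/-- derivations extend to algebraic extensions -/
theorem exists_ext {d : ℕ} (hd : Algebra.trdeg k K = d) (D : Derivation k K K) :
    ∃ D' : Derivation k Ω Ω, ∀ f, D' (algebraMap K Ω f) = algebraMap K Ω (D f) := by
  classical
  obtain ⟨y, hy⟩ := exists_tb hd
  have hyΩ : IsTranscendenceBasis k (fun j => algebraMap K Ω (y j)) := hy.algebraMap_comp
  obtain ⟨E, hE⟩ := exists_duals hyΩ
  refine ⟨∑ j, algebraMap K Ω (D (y j)) • E j, fun f => ?_⟩
  refine der_comp D _ y hy (fun i => ?_) f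
  rw [der_sum_app, Finset.sum_eq_single i]
  · rw [Derivation.smul_apply, hE, if_pos rfl, smul_eq_mul, mul_one]
  · intro b _ hb
    rw [Derivation.smul_apply, hE, if_neg hb, smul_zero]
  · intro hi
    exact absurd (Finset.mem_univ _) hi

/-- complementary coordinates -/
theorem exists_compl {n r : ℕ} (hd : Algebra.trdeg k K = (n + r : ℕ)) {x : Fin n → K}
    (hx : AlgebraicIndependent k x) :
    ∃ t : Fin r → K, IsTranscendenceBasis k (Fin.append x t) := by
  classical
  have hs : AlgebraicIndepOn k id (Set.range x) := hx.to_subtype_range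
  obtain ⟨B, hxB, hB⟩ := exists_isTranscendenceBasis_superset hs
  have hinj : Function.Injective x := hx.injective
  have hcard : Cardinal.mk B = (n + r : ℕ) := by
    rw [← hd]
    exact hB.cardinalMk_eq_trdeg
  have hfin : Finite B := by
    rw [← Cardinal.lt_aleph0_iff_finite, hcard]
    exact Cardinal.natCast_lt_aleph0
  have hfinB : B.Finite := hfin
  have hfint : Fintype B := Fintype.ofFinite B
  have hc1 : Fintype.card B = n + r := by
    rw [Cardinal.mk_fintype] at hcard
    exact_mod_cast hcard
  have hdiff : (B \ Set.range x).Finite := hfinB.sdiff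
  have hfd : Fintype (B \ Set.range x : Set K) := hdiff.fintype
  have hc2 : Fintype.card (B \ Set.range x : Set K) = r := by
    have h1 : (B \ Set.range x).ncard + (Set.range x).ncard = B.ncard :=
      Set.ncard_sdiff_add_ncard_of_subset hxB hfinB
    have h2 : (Set.range x).ncard = n := by
      rw [← Set.image_univ, Set.ncard_image_of_injective _ hinj, Set.ncard_univ]
      simp
    have h3 : B.ncard = n + r := by
      rw [← hc1, Set.ncard_eq_toFinset_card', Set.toFinset_card]
    have h4 : (B \ Set.range x).ncard = Fintype.card (B \ Set.range x : Set K) := by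
      rw [Set.ncard_eq_toFinset_card', Set.toFinset_card]
    omega
  let e : Fin r ≃ (B \ Set.range x : Set K) := (Fintype.equivFinOfCardEq hc2).symm
  refine ⟨fun b => (e b : K), ?_⟩
  let φ : Fin n ⊕ Fin r → B := Sum.elim (fun j => ⟨x j, hxB ⟨j, rfl⟩⟩) fun b => ⟨e b, (e b).2.1⟩
  have hφ : Function.Bijective φ := by
    constructor
    · rintro (j | b) (j' | b') h
      · have h1 := congrArg Subtype.val h
        exact congrArg Sum.inl (hinj h1)
      · exfalso
        have h1 := congrArg Subtype.val h
        exact (e b').2.2 ⟨j, h1⟩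
      · exfalso
        have h1 := congrArg Subtype.val h
        exact (e b).2.2 ⟨j', h1.symm⟩
      · have h1 := congrArg Subtype.val h
        exact congrArg Sum.inr (e.injective (Subtype.ext h1))
    · rintro ⟨z, hz⟩
      by_cases hzx : z ∈ Set.range x
      · obtain ⟨j, rfl⟩ := hzx
        exact ⟨Sum.inl j, rfl⟩
      · refine ⟨Sum.inr (e.symm ⟨z, hz, hzx⟩), ?_⟩
        apply Subtype.ext
        change ((e (e.symm ⟨z, hz, hzx⟩) : (B \ Set.range x : Set K)) : K) = z
        rw [Equiv.apply_symm_apply]
  refine (isTranscendenceBasis_equiv' (finSumFinEquiv.symm.trans (Equiv.ofBijective φ hφ))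
    ?_).2 hB
  funext z
  refine Fin.addCases (fun j => ?_) (fun b => ?_) z
  · simp [φ]
  · simp [φ]

theorem append_map {n r : ℕ} {x : Fin n → K} {t : Fin r → K}
    (ht : IsTranscendenceBasis k (Fin.append x t)) :
    IsTranscendenceBasis k (Fin.append (fun j => algebraMap K Ω (x j))
      (fun b => algebraMap K Ω (t b))) := by
  have h1 : IsTranscendenceBasis k (fun j => algebraMap K Ω (Fin.append x t j)) :=
    ht.algebraMap_comp
  convert h1 using 1
  funext i
  refine Fin.addCases (fun j => ?_) (fun b => ?_) i <;> simp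

theorem det_map {r : ℕ} {t : Fin r → K} {U : Fin r → Derivation k K K}
    (hdet : (Matrix.of fun a b => U a (t b) : Matrix (Fin r) (Fin r) K).det ≠ 0)
    {U' : Fin r → Derivation k Ω Ω}
    (hU' : ∀ a f, U' a (algebraMap K Ω f) = algebraMap K Ω (U a f)) :
    (Matrix.of fun a b => U' a (algebraMap K Ω (t b)) :
      Matrix (Fin r) (Fin r) Ω).det ≠ 0 := by
  have h1 : (Matrix.of fun a b => U' a (algebraMap K Ω (t b)) : Matrix (Fin r) (Fin r) Ω) =
      (algebraMap K Ω).mapMatrix (Matrix.of fun a b => U a (t b)) := by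
    ext a b
    exact hU' a _
  rw [h1, ← RingHom.map_det]
  exact (map_ne_zero _).2 hdet

/-- the rows of the values span -/
theorem span_rows {n r : ℕ} (hK : Algebra.trdeg k K = (n + r : ℕ)) {x : Fin n → K}
    {t : Fin r → K} (ht : IsTranscendenceBasis k (Fin.append x t))
    {U : Fin r → Derivation k K K} (hUx : ∀ a j, U a (x j) = 0)
    (hdet : (Matrix.of fun a b => U a (t b) : Matrix (Fin r) (Fin r) K).det ≠ 0)
    {F : Fin n → Derivation k K K} (hF : ∀ i j, F i (x j) = if i = j then 1 else 0)
    {F' : Fin n → Derivation k Ω Ω}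
    (hF' : ∀ a f, F' a (algebraMap K Ω f) = algebraMap K Ω (F a f))
    {U' : Fin r → Derivation k Ω Ω}
    (hU' : ∀ a f, U' a (algebraMap K Ω f) = algebraMap K Ω (U a f)) {y : Fin n → Ω}
    (hy : AlgebraicIndependent k y) {w : Fin n → Ω}
    (hw : ∀ v, ∑ j, (Sum.elim F' U' v) (y j) * w j = 0) : w = 0 := by
  classical
  have htΩ := append_map (Ω := Ω) ht
  have hdetΩ := det_map (Ω := Ω) hdet hU'
  have hKΩ : Algebra.trdeg k Ω = (n + r : ℕ) := by
    rw [← htΩ.cardinalMk_eq_trdeg]
    simp
  obtain ⟨t', ht'⟩ := exists_compl hKΩ hy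
  obtain ⟨Δ, hΔ⟩ := exists_duals ht'
  funext i
  obtain ⟨c, hc⟩ := expand_FU htΩ (U := U') (fun a j => by rw [hU', hUx, map_zero]) hdetΩ
    (Fr := F') (fun i j => by rw [hF', hF, apply_ite (algebraMap K Ω), map_one, map_zero])
    (Δ (Fin.castAdd r i))
  have h1 : ∑ j, (Δ (Fin.castAdd r i)) (y j) * w j = w i := by
    rw [Finset.sum_eq_single i]
    · have h2 := hΔ (Fin.castAdd r i) (Fin.castAdd r i)
      rw [Fin.append_left, if_pos rfl] at h2
      rw [h2, one_mul]
    · intro j _ hj
      have h2 := hΔ (Fin.castAdd r i) (Fin.castAdd r j)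
      rw [Fin.append_left, if_neg (fun h => hj ((Fin.castAdd_injective n r) h).symm)] at h2
      rw [h2, zero_mul]
    · intro h
      exact absurd (Finset.mem_univ _) h
  rw [← h1, hc, Pi.zero_apply]
  have h3 : ∀ j, (∑ v, c v • Sum.elim F' U' v) (y j) * w j =
      ∑ v, c v * ((Sum.elim F' U' v) (y j) * w j) := by
    intro j
    rw [der_sum_app, Finset.sum_mul]
    refine Finset.sum_congr rfl fun v _ => ?_
    rw [Derivation.smul_apply, smul_eq_mul, mul_assoc]
  rw [Finset.sum_congr rfl fun j _ => h3 j, Finset.sum_comm]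
  refine Finset.sum_eq_zero fun v _ => ?_
  rw [← Finset.mul_sum, hw, mul_zero]

omit [Algebra K Ω] [IsScalarTower k K Ω] [Algebra.IsAlgebraic K Ω] in
/-- derivations which vanish on the image of a transcendence basis vanish on the image -/
theorem der_emb {ι : Type} (φ : K →ₐ[k] Ω) (D : Derivation k Ω Ω) {x : ι → K}
    (hx : IsTranscendenceBasis k x) (h : ∀ i, D (φ (x i)) = 0) (e : K) : D (φ e) = 0 := by
  letI : Algebra K Ω := φ.toRingHom.toAlgebra
  haveI : IsScalarTower k K Ω := IsScalarTower.of_algebraMap_eq fun c => (φ.commutes c).symm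
  exact der_zero (D.compAlgebraMap K) x hx h e

/-- the constants of the extended derivations -/
theorem const_alg {n r : ℕ} (hK : Algebra.trdeg k K = (n + r : ℕ)) {E : IntermediateField k K}
    {x : Fin n → K} (hxE : ∀ j, x j ∈ E) (hx : AlgebraicIndependent k x)
    {U : Fin r → Derivation k K K} (hU : LinearIndependent K U) (hUE : ∀ a, ∀ z ∈ E, U a z = 0)
    {U' : Fin r → Derivation k Ω Ω}
    (hU' : ∀ a f, U' a (algebraMap K Ω f) = algebraMap K Ω (U a f)) {y : Ω}
    (hy : ∀ a, U' a y = 0) : IsAlgebraic (IntermediateField.adjoin k (Set.range x)) y := by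
  classical
  obtain ⟨t, ht⟩ := exists_compl hK hx
  have hdet := det_of_lin ht hU fun a j => hUE a _ (hxE j)
  have htΩ : IsTranscendenceBasis k (Fin.append (fun j => algebraMap K Ω (x j))
      (fun b => algebraMap K Ω (t b))) := by
    have h1 : IsTranscendenceBasis k (fun j => algebraMap K Ω (Fin.append x t j)) :=
      ht.algebraMap_comp
    convert h1 using 1
    funext i
    refine Fin.addCases (fun j => ?_) (fun b => ?_) i <;> simp
  have hdetΩ : (Matrix.of fun a b => U' a (algebraMap K Ω (t b)) :
      Matrix (Fin r) (Fin r) Ω).det ≠ 0 := by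
    have h1 : (Matrix.of fun a b => U' a (algebraMap K Ω (t b)) : Matrix (Fin r) (Fin r) Ω) =
        (algebraMap K Ω).mapMatrix (Matrix.of fun a b => U a (t b)) := by
      ext a b
      exact hU' a _
    rw [h1, ← RingHom.map_det]
    exact (map_ne_zero _).2 hdet
  by_contra hya
  -- `x` and `y` are algebraically independent
  have htr : Transcendental (IntermediateField.adjoin k (Set.range x)) y := hya
  have hxΩ : AlgebraicIndependent k (fun j => algebraMap K Ω (x j)) := hx.map' (f :=
    IsScalarTower.toAlgHom k K Ω) (algebraMap K Ω).injective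
  have hind : AlgebraicIndependent k (fun o : Option (Fin n) =>
      o.elim y fun j => algebraMap K Ω (x j)) := by
    rw [hxΩ.option_iff_transcendental]
    intro halg
    apply hya
    obtain ⟨p, hp0, hp⟩ := halg
    have hA : ∀ z ∈ Algebra.adjoin k (Set.range fun j => algebraMap K Ω (x j)),
        ∃ w ∈ Algebra.adjoin k (Set.range x), algebraMap K Ω w = z := by
      intro z hz
      have h1 : Algebra.adjoin k (Set.range fun j => algebraMap K Ω (x j)) =
          (Algebra.adjoin k (Set.range x)).map (IsScalarTower.toAlgHom k K Ω) := by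
        rw [AlgHom.map_adjoin, ← Set.range_comp]
        rfl
      rw [h1] at hz
      obtain ⟨w, hw, hwz⟩ := hz
      exact ⟨w, hw, hwz⟩
    have h1 : IsAlgebraic (IntermediateField.adjoin k (Set.range x)) y := by
      have h2 : IsAlgebraic (Algebra.adjoin k (Set.range fun j => algebraMap K Ω (x j))) y :=
        ⟨p, hp0, hp⟩
      choose g hg1 hg2 using fun z : Algebra.adjoin k (Set.range fun j => algebraMap K Ω (x j)) =>
        hA z z.2
      let ψ : Algebra.adjoin k (Set.range fun j => algebraMap K Ω (x j)) →+*
          IntermediateField.adjoin k (Set.range x) :=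
        { toFun := fun z => ⟨g z, IntermediateField.algebra_adjoin_le_adjoin k _ (hg1 z)⟩
          map_one' := Subtype.ext ((algebraMap K Ω).injective (by
            change algebraMap K Ω (g 1) = algebraMap K Ω 1
            rw [hg2, map_one]; rfl))
          map_mul' := fun z w => Subtype.ext ((algebraMap K Ω).injective (by
            change algebraMap K Ω (g (z * w)) = algebraMap K Ω (g z * g w)
            rw [hg2, map_mul, hg2, hg2]; rfl))
          map_zero' := Subtype.ext ((algebraMap K Ω).injective (by
            change algebraMap K Ω (g 0) = algebraMap K Ω 0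
            rw [hg2, map_zero]; rfl))
          map_add' := fun z w => Subtype.ext ((algebraMap K Ω).injective (by
            change algebraMap K Ω (g (z + w)) = algebraMap K Ω (g z + g w)
            rw [hg2, map_add, hg2, hg2]; rfl)) }
      refine h2.ringHom_of_comp_eq ψ (RingHom.id Ω) ?_ ?_
      · intro z w hzw
        have h3 := congrArg (fun q : IntermediateField.adjoin k (Set.range x) =>
          algebraMap K Ω (q : K)) hzw
        apply Subtype.ext
        rw [← hg2 z, ← hg2 w]
        exact h3
      · ext z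
        exact hg2 z
    exact h1
  obtain ⟨B, hxB, hB⟩ := exists_isTranscendenceBasis_superset hind.to_subtype_range
  obtain ⟨E', hE'⟩ := exists_duals hB
  let y0 : B := ⟨y, hxB ⟨none, rfl⟩⟩
  have h1 : ∀ j, E' y0 (algebraMap K Ω (x j)) = 0 := by
    intro j
    have h2 := hE' y0 ⟨algebraMap K Ω (x j), hxB ⟨some j, rfl⟩⟩
    rw [if_neg] at h2
    · exact h2
    · intro h3
      have h4 : (none : Option (Fin n)) = some j := by
        apply hind.injective
        exact congrArg Subtype.val h3
      exact absurd h4 (by simp)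
  obtain ⟨c, hc⟩ := span_of_det htΩ (U := U') (fun a j => by
    rw [hU', hUE a _ (hxE j), map_zero]) hdetΩ h1
  have h2 : E' y0 y = 1 := by
    have h3 := hE' y0 y0
    rw [if_pos rfl] at h3
    exact h3
  rw [hc, der_sum_app, Finset.sum_eq_zero fun a _ => ?_] at h2
  · exact zero_ne_one h2
  · rw [Derivation.smul_apply, hy, smul_zero]

end

section

variable {k L : Type} [Field k] [CharZero k] [Field L] [Algebra k L]

/-- **A function which is regular at all places which are trivial on `k(t)` is algebraic over
`k(t)`.** -/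
theorem alg_of_reg {a r : ℕ} (htr : Algebra.trdeg k L = (a + r : ℕ))
    (hfin : ∀ y : Fin (a + r) → L, IsTranscendenceBasis k y →
      FiniteDimensional (IntermediateField.adjoin k (Set.range y)) L)
    {t : Fin a → L} (ht : AlgebraicIndependent k t) {s : L}
    (hs : ∀ w : Place k L, (∀ q : MvPolynomial (Fin a) k, q ≠ 0 → w.ord (aeval t q) = 0) →
      w.Reg s) : IsAlgebraic (IntermediateField.adjoin k (Set.range t)) s := by
  classical
  by_contra hcon
  have hs0 : s ≠ 0 := by
    rintro rfl
    exact hcon isAlgebraic_zero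
  have hcon' : ¬ IsAlgebraic (Algebra.adjoin k (Set.range t)) s⁻¹ := by
    intro h1
    apply hcon
    have h2 : IsAlgebraic (IntermediateField.adjoin k (Set.range t)) s⁻¹ := by
      refine h1.ringHom_of_comp_eq (Subalgebra.inclusion (show Algebra.adjoin k (Set.range t) ≤
        (IntermediateField.adjoin k (Set.range t)).toSubalgebra from
        IntermediateField.algebra_adjoin_le_adjoin k _)).toRingHom (RingHom.id L)
        (Subalgebra.inclusion_injective _) (by ext z; rfl)
    have h3 := h2.inv
    rwa [inv_inv] at h3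
  have hind : AlgebraicIndependent k (fun o : Option (Fin a) => o.elim s⁻¹ t) :=
    (ht.option_iff_transcendental _).2 hcon'
  obtain ⟨B, htB, hB⟩ := exists_isTranscendenceBasis_superset hind.to_subtype_range
  have hcard : Cardinal.mk B = (a + r : ℕ) := by
    rw [← htr]
    exact hB.cardinalMk_eq_trdeg
  have hfinB : Finite B := by
    rw [← Cardinal.lt_aleph0_iff_finite, hcard]
    exact Cardinal.natCast_lt_aleph0
  have hfint : Fintype B := Fintype.ofFinite B
  have hc1 : Fintype.card B = a + r := by
    rw [Cardinal.mk_fintype] at hcard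
    exact_mod_cast hcard
  let e : Fin (a + r) ≃ B := (Fintype.equivFinOfCardEq hc1).symm
  let Z : Fin (a + r) → L := fun j => (e j : L)
  have hZ : IsTranscendenceBasis k Z := (isTranscendenceBasis_equiv e).2 hB
  let i0 : Fin (a + r) := e.symm ⟨s⁻¹, htB ⟨none, rfl⟩⟩
  let φ : Fin a → Fin (a + r) := fun j => e.symm ⟨t j, htB ⟨some j, rfl⟩⟩
  have hi0 : Z i0 = s⁻¹ := by
    change ((e (e.symm _) : B) : L) = _
    rw [Equiv.apply_symm_apply]
  have hφ : ∀ j, Z (φ j) = t j := by
    intro j
    change ((e (e.symm _) : B) : L) = _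
    rw [Equiv.apply_symm_apply]
  have hφinj : Function.Injective φ := by
    intro j j' h
    apply ht.injective
    rw [← hφ, ← hφ, h]
  have hφi0 : ∀ j, φ j ≠ i0 := by
    intro j h
    have h1 : (some j : Option (Fin a)) = none := by
      apply hind.injective
      change t j = s⁻¹
      rw [← hφ, h, hi0]
    exact absurd h1 (by simp)
  obtain ⟨P, hP⟩ := exists_adicP hZ (hfin _ hZ)
    ((MvPolynomial.X_prime (R := k) (i := i0)).irreducible)
  have h1 := hs P (fun q hq => by
    have h0 : rename φ q ≠ 0 := (map_ne_zero_iff _ (rename_injective _ hφinj)).2 hq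
    have h2 : aeval Z (rename φ q) = aeval t q := by
      rw [aeval_rename, show Z ∘ φ = t from funext hφ]
    rw [← h2]
    refine (hP _ h0).2.2 (not_dvd_of_degreeOf (i := i0) ?_ ?_ h0)
    · rw [degreeOf_X, if_pos rfl]
      exact one_ne_zero
    · apply degreeOf_notMem
      intro h
      have h3 := vars_rename φ q h
      rw [Finset.mem_image] at h3
      obtain ⟨j, -, hj⟩ := h3
      exact hφi0 j hj)
  have h2 := hP (X i0) (X_ne_zero _)
  rw [aeval_X, hi0, P.ord_inv] at h2
  have h3 := h1.resolve_left hs0
  have h4 : -P.ord s = 0 := le_antisymm (by omega) h2.1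
  exact h2.2.1 h4 (dvd_refl _)

end

end Pool.Agent.T2h13.AF
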