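import Pool.Agent.W602.GT.Defs

/-!
Forms on the generic fibre of a fibration, in terms of function fields.

`K` is the function field of a variety `W`, and `E ⊆ K` the function field of the base of a
dominant rational map `W ⇢ V`. So `K` over `E` is the function field of the generic fibre, a variety of
dimension `r` over the field `E`, and `Derivation E K K` are its rational vector fields.
-/

set_option autoImplicit false

open FF
open Pool.Agent.W602.GT (Divisorial DerReg)

namespace Pool.Agent.T2h13.AF

section

variable {K : Type} [Field K] [Algebra ℂ K]

/-- `φ` is a regular form of degree `q` on the generic fibre: it is an alternating form on the rational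
vector fields of the generic fibre, and at every divisorial place of `K` which is trivial on `E`, its
values on regular vector fields are regular. These are the global forms `H⁰(Ω^q)` of the smooth
projective models of the generic fibre. -/
def RegForm (E : IntermediateField ℂ K) (r : ℕ) {q : ℕ}
    (φ : (Derivation E K K) [⋀^Fin q]→ₗ[K] K) : Prop :=
  ∀ w : Place E K, Divisorial r w → ∀ D : Fin q → Derivation E K K, (∀ i, DerReg w (D i)) →
    w.Reg (φ D)

/-- The generic fibre has few forms: there is a basis `U` of the rational vector fields on the generic
fibre such that for all vector fields `U_(a 1), ..., U_(a q)` of this basis, `q ≥ 1`, the values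
`φ(U_(a 1), ..., U_(a q))` of the regular forms `φ` of degree `q` span a space of dimension at most
`h` over `E`. -/
def FewForms (E : IntermediateField ℂ K) (r h : ℕ) : Prop :=
  ∃ U : Fin r → Derivation E K K, LinearIndependent K U ∧
    ∀ (q : ℕ) (a : Fin q → Fin r), 0 < q →
      ∀ φ : Fin (h + 1) → (Derivation E K K) [⋀^Fin q]→ₗ[K] K, (∀ i, RegForm E r (φ i)) →
        ¬ LinearIndependent E fun i => φ i fun p => U (a p)

/-- The generic fibre is almost homogeneous: it has a projective model over `E` with the generic point
`z`, and `U` are vector fields which are regular on all affine charts of the model, and which are a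
basis of the vector fields at the generic point. -/
structure AlmostHom (E : IntermediateField ℂ K) {r N : ℕ} (z : Fin (N + 1) → K)
    (U : Fin r → Derivation E K K) : Prop where
  ne : ∀ i, z i ≠ 0
  top : IntermediateField.adjoin E (Set.range fun j => z j / z 0) = ⊤
  lin : LinearIndependent K U
  reg : ∀ a i j, U a (z j / z i) ∈ Algebra.adjoin E (Set.range fun j => z j / z i)

end

end Pool.Agent.T2h13.AF
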