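import Mathlib

/-!
Derivations and embeddings of algebraic extensions.
-/

set_option autoImplicit false

open Polynomial

namespace Pool.Agent.T2h13.AF

section

variable {k L M Ω : Type*} [Field k] [Field L] [Field M] [Field Ω] [CharZero L] [Algebra k L]
  [Algebra k M] [Algebra k Ω] [Algebra L M] [Algebra L Ω] [IsScalarTower k L M]
  [IsScalarTower k L Ω] [Algebra.IsAlgebraic L M]

/-- the extensions of a derivation commute with embeddings -/
theorem der_comm {D : Derivation k L L} {D' : Derivation k M M} {D'' : Derivation k Ω Ω}
    (h' : ∀ f, D' (algebraMap L M f) = algebraMap L M (D f))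
    (h'' : ∀ f, D'' (algebraMap L Ω f) = algebraMap L Ω (D f)) (σ : M →ₐ[L] Ω) (m : M) :
    D'' (σ m) = σ (D' m) := by
  have hint : IsIntegral L m := Algebra.IsIntegral.isIntegral m
  have hsep : IsSeparable L m := (minpoly.irreducible hint).separable
  have h1 := Derivation.apply_aeval_eq' (A := L) (B := M) (d := D) D' (Algebra.linearMap L M)
    (fun a => (h' a).symm) m (minpoly L m)
  have h2 := Derivation.apply_aeval_eq' (A := L) (B := Ω) (d := D) D'' (Algebra.linearMap L Ω)
    (fun a => (h'' a).symm) (σ m) (minpoly L m)
  rw [minpoly.aeval, map_zero] at h1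
  have h3 : aeval (σ m) (minpoly L m) = 0 := by
    rw [aeval_algHom_apply, minpoly.aeval, map_zero]
  rw [h3, map_zero] at h2
  have h4 : aeval (σ m) (derivative (minpoly L m)) = σ (aeval m (derivative (minpoly L m))) := by
    rw [aeval_algHom_apply]
  have h5 : ∀ q : PolynomialModule L L, σ (PolynomialModule.eval m
      (PolynomialModule.map M (Algebra.linearMap L M) q)) = PolynomialModule.eval (σ m)
        (PolynomialModule.map Ω (Algebra.linearMap L Ω) q) := by
    intro q
    induction q using PolynomialModule.induction_linear with
    | zero => simp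
    | add f g hf hg => simp only [map_add, hf, hg]
    | single a b =>
      rw [PolynomialModule.map_single, PolynomialModule.map_single,
        PolynomialModule.eval_single, PolynomialModule.eval_single]
      simp
  have h6 := congrArg σ h1
  rw [map_zero, map_add, h5, smul_eq_mul, map_mul, ← h4] at h6
  rw [smul_eq_mul] at h2
  have h7 : aeval (σ m) (derivative (minpoly L m)) ≠ 0 := by
    rw [h4]
    exact (map_ne_zero σ).2 (hsep.aeval_derivative_ne_zero (minpoly.aeval L m))
  have h8 : aeval (σ m) (derivative (minpoly L m)) * (D'' (σ m) - σ (D' m)) = 0 := by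
    linear_combination h6 - h2
  exact sub_eq_zero.1 ((mul_eq_zero.1 h8).resolve_left h7)

end

end Pool.Agent.T2h13.AF
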