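import Pool.Agent.N145.PC.Gen

/-!
Generic families of embeddings over a subfield, and sums over embeddings with values in a
finite-dimensional space over the subfield.
-/

set_option autoImplicit false
set_option linter.unusedSectionVars false
set_option maxHeartbeats 4000000
set_option synthInstance.maxHeartbeats 400000

open Polynomial

namespace Pool.Agent.T2h13.AF

/-- **A generic family of embeddings.** -/
theorem exists_generic_fam (N Ω : Type) [Field N] [Field Ω] [Algebra N Ω] (h : ℕ) :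
    ∃ (Ω' : Type) (_ : Field Ω') (_ : IsAlgClosed Ω') (ι : Fin (h + 1) → (Ω →+* Ω')),
      (∀ i (c : N), ι i (algebraMap N Ω c) = ι 0 (algebraMap N Ω c)) ∧
      ∀ i j, i ≠ j → ∀ a b : Ω, ι i a = ι j b → IsAlgebraic N a := by
  induction h with
  | zero =>
    refine ⟨AlgebraicClosure Ω, inferInstance, inferInstance, fun _ => algebraMap Ω _,
      fun _ _ => rfl, fun i j hij => ?_⟩
    exact absurd (Fin.ext (by omega)) hij
  | succ h ih =>
    obtain ⟨Ω1, iF, iC, ι, h1, h2⟩ := ih
    let iA : Algebra N Ω1 := ((ι 0).comp (algebraMap N Ω)).toAlgebra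
    have hA : ∀ c : N, algebraMap N Ω1 c = ι 0 (algebraMap N Ω c) := fun _ => rfl
    obtain ⟨Ω2, iF2, iC2, α, β, h3, h4⟩ := Pool.Agent.N145.PC.exists_generic N Ω1
    -- elements which are algebraic in the larger field
    have halg : ∀ (i : Fin (h + 1)) (a : Ω), IsAlgebraic N (ι i a) → IsAlgebraic N a := by
      intro i a ha
      obtain ⟨p, hp0, hp⟩ := ha
      refine ⟨p, hp0, ?_⟩
      apply (ι i).injective
      rw [map_zero, ← hp, Polynomial.aeval_def, Polynomial.aeval_def, Polynomial.hom_eval₂]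
      congr 1
      ext c
      exact h1 i c
    -- elements with the same image
    have hsw : ∀ a b : Ω1, α a = β b → IsAlgebraic N b := by
      intro a b hab
      obtain ⟨p, hp0, hp⟩ := h4 a b hab
      refine ⟨p, hp0, ?_⟩
      apply β.injective
      rw [map_zero, Polynomial.aeval_def, Polynomial.hom_eval₂, ← hab]
      have h5 := congrArg α hp
      rw [map_zero, Polynomial.aeval_def, Polynomial.hom_eval₂] at h5
      rw [← h5]
      congr 1
      ext c
      exact h3 c
    refine ⟨Ω2, iF2, iC2, Fin.snoc (fun i => α.comp (ι i)) (β.comp (ι 0)), ?_, ?_⟩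
    · intro i c
      have h5 : (Fin.snoc (fun i => α.comp (ι i)) (β.comp (ι 0)) : Fin (h + 2) → (Ω →+* Ω2)) 0 =
          α.comp (ι 0) :=
        Fin.snoc_castSucc (α := fun _ => Ω →+* Ω2) (β.comp (ι 0)) (fun i => α.comp (ι i)) 0
      rw [h5]
      refine Fin.lastCases ?_ (fun i => ?_) i
      · rw [Fin.snoc_last]
        exact h3 c
      · rw [Fin.snoc_castSucc]
        change α (ι i _) = α (ι 0 _)
        rw [h1]
    · intro i j
      refine Fin.lastCases ?_ (fun i => ?_) i
      · refine Fin.lastCases ?_ (fun j => ?_) j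
        · intro hij
          exact absurd rfl hij
        · intro _ a b hab
          rw [Fin.snoc_last, Fin.snoc_castSucc] at hab
          exact halg 0 a (hsw _ _ hab.symm)
      · refine Fin.lastCases ?_ (fun j => ?_) j
        · intro _ a b hab
          rw [Fin.snoc_last, Fin.snoc_castSucc] at hab
          exact halg i a (h4 _ _ hab)
        · intro hij a b hab
          rw [Fin.snoc_castSucc, Fin.snoc_castSucc] at hab
          exact h2 i j (fun h => hij (by rw [h])) a b (α.injective hab)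

/-- more vectors than coordinates are linearly dependent -/
theorem exists_rel {F : Type} [Field F] {h m : ℕ} (hm : m ≤ h) (v : Fin (h + 1) → Fin m → F) :
    ∃ lam : Fin (h + 1) → F, (∃ i, lam i ≠ 0) ∧ ∀ b, ∑ i, lam i * v i b = 0 := by
  have h1 : ¬ LinearIndependent F v := by
    intro h1
    have h2 := h1.fintype_card_le_finrank
    rw [Module.finrank_fin_fun, Fintype.card_fin] at h2
    omega
  rw [Fintype.linearIndependent_iff] at h1
  push Not at h1
  obtain ⟨lam, h2, i, hi⟩ := h1
  refine ⟨lam, ⟨i, hi⟩, fun b => ?_⟩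
  have h3 := congrFun h2 b
  rw [Finset.sum_apply] at h3
  exact h3

/-- **Sums over embeddings with values in a space of small dimension over a subfield.** -/
theorem gen_sep2 {E N Ω ι : Type} [Field E] [Algebra ℂ E] [Field N] [Algebra ℂ N] [Field Ω]
    [Algebra ℂ Ω] [Algebra N Ω] [IsScalarTower ℂ N Ω] [Fintype ι] {H : Set E} {g h m : ℕ}
    (hS : ∀ (Ω : Type) [Field Ω] [Algebra ℂ Ω] [IsAlgClosed Ω] (A : Finset (E →ₐ[ℂ] Ω)),
      A.card < g → ∀ c : (E →ₐ[ℂ] Ω) → Ω, (∀ f ∈ H, ∑ σ ∈ A, c σ * σ f = 0) →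
        ∀ σ ∈ A, c σ = 0)
    (e : ι → (E →ₐ[ℂ] Ω)) (he : Function.Injective e) (hg : (h + 1) * Fintype.card ι < g)
    (J : ι → Ω) (hm : m ≤ h) (φ : Fin m → Ω)
    (hT : ∀ f ∈ H, ∃ c : Fin m → N, ∑ i, J i * e i f = ∑ b, algebraMap N Ω (c b) * φ b) {i : ι}
    (hi : J i ≠ 0) (z : E) : IsAlgebraic N (e i z) := by
  classical
  obtain ⟨Ω', iF, iC, η, hη, halg⟩ := exists_generic_fam N Ω h
  let iA : Algebra ℂ Ω' := ((η 0).comp (algebraMap ℂ Ω)).toAlgebra
  have hηC : ∀ l (c : ℂ), η l (algebraMap ℂ Ω c) = algebraMap ℂ Ω' c := by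
    intro l c
    change _ = η 0 (algebraMap ℂ Ω c)
    rw [IsScalarTower.algebraMap_apply ℂ N Ω, hη]
  let ηA : Fin (h + 1) → (Ω →ₐ[ℂ] Ω') := fun l => { η l with commutes' := hηC l }
  obtain ⟨lam, ⟨l0, hl0⟩, hlam⟩ := exists_rel hm fun l b => η l (φ b)
  by_contra hz
  have hne : ∀ l j, (ηA l).comp (e j) = (ηA l0).comp (e i) → l = l0 ∧ j = i := by
    intro l j hj
    have h1 := DFunLike.congr_fun hj z
    by_cases hl : l = l0
    · subst hl
      refine ⟨rfl, he (AlgHom.ext fun w => ?_)⟩
      exact (η l).injective (DFunLike.congr_fun hj w)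
    · exfalso
      exact hz (halg l0 l (Ne.symm hl) _ _ h1.symm)
  let A : Finset (E →ₐ[ℂ] Ω') :=
    (Finset.univ : Finset (Fin (h + 1) × ι)).image fun q => (ηA q.1).comp (e q.2)
  have hA : A.card < g := by
    refine lt_of_le_of_lt Finset.card_image_le ?_
    rw [Finset.card_univ, Fintype.card_prod, Fintype.card_fin]
    exact hg
  let c : (E →ₐ[ℂ] Ω') → Ω' := fun τ =>
    ∑ q : Fin (h + 1) × ι, (if (ηA q.1).comp (e q.2) = τ then lam q.1 * η q.1 (J q.2) else 0)
  have hc : ∀ f ∈ H, ∑ τ ∈ A, c τ * τ f = 0 := by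
    intro f hf
    obtain ⟨c0, hc0⟩ := hT f hf
    have h1 : ∑ τ ∈ A, c τ * τ f = ∑ q : Fin (h + 1) × ι,
        lam q.1 * η q.1 (J q.2 * e q.2 f) := by
      simp only [c, Finset.sum_mul]
      rw [Finset.sum_comm]
      refine Finset.sum_congr rfl fun q _ => ?_
      rw [Finset.sum_eq_single ((ηA q.1).comp (e q.2))]
      · rw [if_pos rfl, map_mul, mul_assoc]
        rfl
      · intro τ _ hτ
        rw [if_neg (Ne.symm hτ), zero_mul]
      · intro h
        exact absurd (Finset.mem_image_of_mem _ (Finset.mem_univ q)) h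
    rw [h1, Fintype.sum_prod_type]
    have h2 : ∀ l : Fin (h + 1), ∑ j : ι, lam l * η l (J j * e j f) =
        ∑ b, η 0 (algebraMap N Ω (c0 b)) * (lam l * η l (φ b)) := by
      intro l
      rw [← Finset.mul_sum, ← map_sum, hc0, map_sum, Finset.mul_sum]
      refine Finset.sum_congr rfl fun b _ => ?_
      rw [map_mul, hη l]
      ring
    rw [Finset.sum_congr rfl fun l _ => h2 l, Finset.sum_comm]
    refine Finset.sum_eq_zero fun b _ => ?_
    rw [← Finset.mul_sum, hlam, mul_zero]
  have h1 := hS Ω' A hA c hc ((ηA l0).comp (e i))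
    (Finset.mem_image_of_mem (fun q : Fin (h + 1) × ι => (ηA q.1).comp (e q.2))
      (Finset.mem_univ (l0, i)))
  have h2 : c ((ηA l0).comp (e i)) = lam l0 * η l0 (J i) := by
    change ∑ q : Fin (h + 1) × ι, (if (ηA q.1).comp (e q.2) = (ηA l0).comp (e i) then
      lam q.1 * η q.1 (J q.2) else 0) = _
    rw [Finset.sum_eq_single (l0, i)]
    · rw [if_pos rfl]
    · rintro ⟨l, j⟩ _ hj
      rw [if_neg]
      intro h
      obtain ⟨h3, h4⟩ := hne l j h
      exact hj (by rw [h3, h4])
    · intro h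
      exact absurd (Finset.mem_univ _) h
  rw [h2] at h1
  rcases mul_eq_zero.1 h1 with h3 | h3
  · exact hl0 h3
  · apply hi
    apply (η l0).injective
    rw [h3, map_zero]

end Pool.Agent.T2h13.AF
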