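import Pool.Agent.Y173.QA.Hart
import Pool.Agent.T2h13.AF.Lin

/-!
The places of the generic fibre.
-/

set_option autoImplicit false
set_option linter.overlappingInstances false
set_option linter.unusedSectionVars false
set_option maxHeartbeats 4000000
set_option synthInstance.maxHeartbeats 400000

open FF IntermediateField Pool.Agent.W619.PQ MvPolynomial
open Pool.Agent.W602.GT (Divisorial DerReg)

namespace Pool.Agent.T2h13.AF

section

variable {K : Type} [Field K] [Algebra ℂ K]

/-- a place of the generic fibre as a place of the total space -/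
def res {E : IntermediateField ℂ K} (w : Place E K) : Place ℂ K where
  ord := w.ord
  ord_zero := w.ord_zero
  ord_mul := w.ord_mul
  ord_add := w.ord_add
  ord_const := fun {c} hc => by
    have h1 : algebraMap ℂ K c = algebraMap E K (algebraMap ℂ E c) := rfl
    rw [h1]
    exact w.ord_const ((map_ne_zero _).2 hc)
  surj := w.surj

theorem res_reg {E : IntermediateField ℂ K} (w : Place E K) (f : K) :
    (res w).Reg f ↔ w.Reg f := Iff.rfl

variable [Algebra.EssFiniteType ℂ K] {n r : ℕ}

/-- **Lifts of the vector fields of the base at the places of the generic fibre.** -/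
theorem exists_local (hK : Algebra.trdeg ℂ K = (n + (r + 1) : ℕ)) {E : IntermediateField ℂ K}
    {x : Fin n → E} (hx : IsTranscendenceBasis ℂ x) {w : Place E K} (hw : Divisorial (r + 1) w) :
    Divisorial (n + (r + 1)) (res w) ∧ ∃ F : Fin n → Derivation ℂ K K,
      (∀ j, DerReg (res w) (F j)) ∧ ∀ i j, F i (x j : K) = if i = j then 1 else 0 := by
  classical
  obtain ⟨y', hy'⟩ := hw
  have hfin : ∀ y : Fin (n + (r + 1)) → K, IsTranscendenceBasis ℂ y →
      FiniteDimensional (IntermediateField.adjoin ℂ (Set.range y)) K :=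
    fun y hy => Pool.Agent.W619.Y.fin_over y hy
  let y : Fin (n + r) → K := Fin.append (fun j => (x j : K)) y'
  have hyE : AlgebraicIndependent E y' := by
    rw [algebraicIndependent_iff]
    intro p hp
    by_contra hp0
    exact (hy' p hp0).1 hp
  have hyi : AlgebraicIndependent ℂ y := by
    have h1 := AlgebraicIndependent.sumElim_comp (R := ℂ) (A := K) hx.1 hyE
    have h2 : y = Sum.elim y' (algebraMap E K ∘ x) ∘
        ((Equiv.sumComm (Fin n) (Fin r)).symm.symm ∘ finSumFinEquiv.symm) := by
      funext i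
      refine Fin.addCases (fun j => ?_) (fun b => ?_) i
      · simp [y]
      · simp [y]
    rw [h2]
    exact h1.comp _ ((Equiv.injective _).comp (Equiv.injective _))
  let Φ : MvPolynomial (Fin (n + r)) ℂ →ₐ[ℂ] MvPolynomial (Fin r) E :=
    aeval (Fin.append (fun j => C (x j)) X)
  have hΦ : ∀ p, aeval y' (Φ p) = aeval y p := by
    intro p
    have h1 : ((aeval y' : MvPolynomial (Fin r) E →ₐ[E] K).restrictScalars ℂ).comp Φ =
        (aeval y : MvPolynomial (Fin (n + r)) ℂ →ₐ[ℂ] K) := by
      apply MvPolynomial.algHom_ext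
      intro i
      change aeval y' (Φ (X i)) = _
      rw [aeval_X, aeval_X]
      refine Fin.addCases (fun j => ?_) (fun b => ?_) i
      · simp [y]
      · simp [y]
    exact DFunLike.congr_fun h1 p
  have hy : ∀ p : MvPolynomial (Fin (n + r)) ℂ, p ≠ 0 →
      aeval y p ≠ 0 ∧ (res w).ord (aeval y p) = 0 := by
    intro p hp
    have h0 : aeval y p ≠ 0 := fun h => hp ((injective_iff_map_eq_zero _).1 hyi _ h)
    have h1 : Φ p ≠ 0 := by
      intro h
      apply h0
      rw [← hΦ, h, map_zero]
    refine ⟨h0, ?_⟩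
    have h2 := (hy' _ h1).2
    rw [← hΦ]
    exact h2
  obtain ⟨s, hs0, hs⟩ := (res w).surj
  obtain ⟨-, F, hF1, hF2⟩ := Pool.Agent.Y173.QA.frame_of (m := n + r) hK hfin (res w) hs hy
  refine ⟨⟨y, hy⟩, fun j => F (Fin.castAdd r j).succ, fun j => hF2 _, fun i j => ?_⟩
  have h1 := hF1 (Fin.castAdd r i).succ (Fin.castAdd r j).succ
  have h2 : (Fin.cons s y : Fin (n + r + 1) → K) (Fin.castAdd r j).succ = (x j : K) := by
    rw [Fin.cons_succ]
    exact Fin.append_left _ _ j
  rw [h2] at h1
  rw [h1]
  simp only [Fin.succ_inj, (Fin.castAdd_injective n r).eq_iff]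

end

end Pool.Agent.T2h13.AF
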