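import Pool.Agent.T2h13.AF.Rows

/-!
Minors with the maximal number of rows of the second kind.
-/

set_option autoImplicit false

namespace Pool.Agent.T2h13.AF

section

variable {Ω ι : Type*} [Field Ω] {n r : ℕ}

/-- the number of rows of the second kind -/
def cnt (κ : Fin n → Fin n ⊕ Fin r) : ℕ := (Finset.univ.filter fun p => (κ p).isRight).card

/-- the rows after the change of the rows of the first kind -/
def modR (R : (Fin n ⊕ Fin r) → Fin n → Ω) (A : Fin n → Fin r → Ω) :
    (Fin n ⊕ Fin r) → Fin n → Ω :=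
  Sum.elim (fun b j => R (Sum.inl b) j + ∑ a, A b a * R (Sum.inr a) j) fun a => R (Sum.inr a)

theorem det_mod (R : (Fin n ⊕ Fin r) → Fin n → Ω) (A : Fin n → Fin r → Ω)
    (κ : Fin n → Fin n ⊕ Fin r)
    (hmax : ∀ κ' : Fin n → Fin n ⊕ Fin r, cnt κ < cnt κ' →
      (Matrix.of fun p j => R (κ' p) j : Matrix (Fin n) (Fin n) Ω).det = 0) :
    (Matrix.of fun p j => modR R A (κ p) j : Matrix (Fin n) (Fin n) Ω).det =
      (Matrix.of fun p j => R (κ p) j : Matrix (Fin n) (Fin n) Ω).det := by
  classical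
  let C : (Fin n ⊕ Fin r) → (Fin n ⊕ Fin r) → Ω := fun v v' =>
    (if v = v' then 1 else 0) + (match v, v' with
      | Sum.inl b, Sum.inr a => A b a
      | _, _ => 0)
  have hC : ∀ v j, modR R A v j = ∑ v', C v v' * R v' j := by
    intro v j
    rcases v with b | a
    · simp [C, modR, add_mul, Finset.sum_add_distrib]
    · simp [C, modR]
  have h1 : (Matrix.of fun p j => modR R A (κ p) j : Matrix (Fin n) (Fin n) Ω) =
      Matrix.of fun p j => ∑ v', C (κ p) v' * R v' j := by
    ext p j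
    exact hC _ _
  rw [h1, det_rows, Finset.sum_eq_single κ]
  · have h2 : ∀ v, C v v = 1 := by
      intro v
      rcases v with b | a <;> simp [C]
    rw [Finset.prod_eq_one fun p _ => h2 _, one_mul]
  · intro κ' _ hκ'
    by_cases h0 : ∏ p, C (κ p) (κ' p) = 0
    · rw [h0, zero_mul]
    · rw [hmax κ', mul_zero]
      have h2 : ∀ p, C (κ p) (κ' p) ≠ 0 := fun p => Finset.prod_ne_zero_iff.1 h0 p
        (Finset.mem_univ p)
      have h3 : ∀ p, κ p = κ' p ∨ (κ p).isRight = false ∧ (κ' p).isRight = true := by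
        intro p
        have h4 := h2 p
        by_contra hcon
        push Not at hcon
        apply h4
        rcases hv : κ p with b | a <;> rcases hv' : κ' p with b' | a' <;>
          simp_all [C]
      apply Finset.card_lt_card
      refine ⟨fun p hp => ?_, fun hsub => ?_⟩
      · rw [Finset.mem_filter] at hp ⊢
        refine ⟨Finset.mem_univ _, ?_⟩
        rcases h3 p with h4 | h4
        · rw [← h4]
          exact hp.2
        · exact h4.2
      · apply hκ'
        funext p
        rcases h3 p with h4 | h4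
        · exact h4.symm
        · exfalso
          have h5 := hsub (Finset.mem_filter.2 ⟨Finset.mem_univ p, h4.2⟩)
          rw [Finset.mem_filter] at h5
          rw [h4.1] at h5
          exact absurd h5.2 (by simp)
  · intro h
    exact absurd (Finset.mem_univ _) h

/-- a nonvanishing minor which contains a given nonzero row -/
theorem exists_minor (R : (Fin n ⊕ Fin r) → Fin n → Ω)
    (hspan : ∀ w : Fin n → Ω, (∀ v, ∑ j, R v j * w j = 0) → w = 0) {a : Fin r} {j : Fin n}
    (h : R (Sum.inr a) j ≠ 0) : ∃ κ : Fin n → Fin n ⊕ Fin r,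
      (Matrix.of fun p j => R (κ p) j : Matrix (Fin n) (Fin n) Ω).det ≠ 0 ∧ 0 < cnt κ := by
  classical
  have h0 : LinearIndepOn Ω R {Sum.inr a} := by
    rw [linearIndepOn_singleton_iff]
    intro h1
    exact h (by rw [h1]; rfl)
  obtain ⟨t, -, ht1, ht2, ht3⟩ := exists_linearIndepOn_extension h0 (Set.subset_univ _)
  have htop : Submodule.span Ω (R '' t) = ⊤ := by
    rw [eq_top_iff]
    by_contra hcon
    have hne : Submodule.span Ω (R '' t) ≠ ⊤ := fun h1 => hcon (by rw [h1])
    obtain ⟨f, hf0, hf⟩ := Submodule.exists_le_ker_of_lt_top _ (lt_top_iff_ne_top.2 hne)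
    apply hf0
    have hw := hspan (fun j => f (Pi.single j 1)) (fun v => ?_)
    · apply LinearMap.ext
      intro y
      have h2 : y = ∑ j, y j • (Pi.single j 1 : Fin n → Ω) := by
        funext l
        rw [Finset.sum_apply, Finset.sum_eq_single l]
        · simp
        · intro b _ hb
          simp [hb.symm]
        · intro hl
          exact absurd (Finset.mem_univ _) hl
      rw [h2, map_sum, LinearMap.zero_apply]
      refine Finset.sum_eq_zero fun j _ => ?_
      rw [map_smul, show f (Pi.single j 1) = 0 from congrFun hw j, smul_zero]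
    · have h3 : R v ∈ Submodule.span Ω (R '' t) := ht2 ⟨v, Set.mem_univ v, rfl⟩
      have h4 : f (R v) = 0 := hf h3
      have h2 : R v = ∑ j, R v j • (Pi.single j 1 : Fin n → Ω) := by
        funext l
        rw [Finset.sum_apply, Finset.sum_eq_single l]
        · simp
        · intro b _ hb
          simp [hb.symm]
        · intro hl
          exact absurd (Finset.mem_univ _) hl
      rw [h2, map_sum] at h4
      rw [← h4]
      refine Finset.sum_congr rfl fun j _ => ?_
      rw [map_smul, smul_eq_mul]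
  have hfin : Fintype t := Fintype.ofFinite t
  let b : Module.Basis t Ω (Fin n → Ω) := Module.Basis.mk ht3 (by
    rw [← htop]
    apply le_of_eq
    congr 1
    ext y
    simp)
  have hcard : Fintype.card t = n := by
    have h1 := Module.finrank_eq_card_basis b
    rw [Module.finrank_fin_fun] at h1
    exact h1.symm
  let e : Fin n ≃ t := (Fintype.equivFinOfCardEq hcard).symm
  refine ⟨fun p => (e p : Fin n ⊕ Fin r), ?_, ?_⟩
  · have h1 : LinearIndependent Ω (fun p => R (e p)) := ht3.comp e e.injective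
    have h2 := Matrix.linearIndependent_rows_iff_isUnit
      (A := (Matrix.of fun p j => R (e p) j : Matrix (Fin n) (Fin n) Ω)) |>.1 h1
    exact ((Matrix.isUnit_iff_isUnit_det _).1 h2).ne_zero
  · apply Finset.card_pos.2
    have hat : Sum.inr a ∈ t := ht1 rfl
    refine ⟨e.symm ⟨_, hat⟩, ?_⟩
    rw [Finset.mem_filter]
    refine ⟨Finset.mem_univ _, ?_⟩
    change ((e (e.symm ⟨Sum.inr a, hat⟩) : t) : Fin n ⊕ Fin r).isRight = true
    rw [Equiv.apply_symm_apply]
    rfl

/-- The determinants of tuples with the maximal number of rows of the second kind are independent of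
the lifts of the other rows. -/
theorem det_two (R : (Fin n ⊕ Fin r) → Fin n → Ω) {q : ℕ}
    (hmax : ∀ κ' : Fin n → Fin n ⊕ Fin r, q < cnt κ' →
      (Matrix.of fun p j => R (κ' p) j : Matrix (Fin n) (Fin n) Ω).det = 0)
    {S : Finset (Fin n)} (hS : S.card = q) {C C' : Fin n → (Fin n ⊕ Fin r) → Ω}
    (h1 : ∀ p ∈ S, ∀ b, C p (Sum.inl b) = 0) (h2 : ∀ p ∈ S, C' p = C p)
    (h3 : ∀ p, p ∉ S → ∀ b, C' p (Sum.inl b) = C p (Sum.inl b)) :
    (Matrix.of fun p j => ∑ v, C' p v * R v j : Matrix (Fin n) (Fin n) Ω).det =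
      (Matrix.of fun p j => ∑ v, C p v * R v j : Matrix (Fin n) (Fin n) Ω).det := by
  classical
  rw [det_rows, det_rows]
  refine Finset.sum_congr rfl fun κ' _ => ?_
  by_cases hq : q < cnt κ'
  · rw [hmax κ' hq, mul_zero, mul_zero]
  by_cases hin : ∀ p ∈ S, (κ' p).isRight = true
  · -- the rows of the second kind are in `S`
    have h4 : S = Finset.univ.filter fun p => (κ' p).isRight := by
      apply Finset.eq_of_subset_of_card_le
      · intro p hp
        exact Finset.mem_filter.2 ⟨Finset.mem_univ p, hin p hp⟩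
      · change cnt κ' ≤ S.card
        omega
    congr 1
    refine Finset.prod_congr rfl fun p _ => ?_
    by_cases hp : p ∈ S
    · rw [h2 p hp]
    · have h5 : (κ' p).isRight ≠ true := fun h => hp (by
        rw [h4]
        exact Finset.mem_filter.2 ⟨Finset.mem_univ p, h⟩)
      rcases hv : κ' p with b | a
      · rw [h3 p hp]
      · rw [hv] at h5
        exact absurd rfl h5
  · push Not at hin
    obtain ⟨p, hp, hpr⟩ := hin
    have h5 : C p (κ' p) = 0 := by
      rcases hv : κ' p with b | a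
      · exact h1 p hp b
      · rw [hv] at hpr
        exact absurd rfl hpr
    have h6 : C' p (κ' p) = 0 := by
      rw [h2 p hp, h5]
    rw [Finset.prod_eq_zero (Finset.mem_univ p) h6, Finset.prod_eq_zero (Finset.mem_univ p) h5]

/-- **A minor with the maximal number of rows of the second kind.** -/
theorem exists_max2 [Finite ι] (R : ι → (Fin n ⊕ Fin r) → Fin n → Ω)
    (hspan : ∀ i, ∀ w : Fin n → Ω, (∀ v, ∑ j, R i v j * w j = 0) → w = 0) {i : ι} {a : Fin r}
    {j : Fin n} (h : R i (Sum.inr a) j ≠ 0) : ∃ (κ : Fin n → Fin n ⊕ Fin r) (i0 : ι),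
      (Matrix.of fun p j => R i0 (κ p) j : Matrix (Fin n) (Fin n) Ω).det ≠ 0 ∧
      0 < cnt κ ∧ ∀ (κ' : Fin n → Fin n ⊕ Fin r) (i : ι), cnt κ < cnt κ' →
        (Matrix.of fun p j => R i (κ' p) j : Matrix (Fin n) (Fin n) Ω).det = 0 := by
  classical
  obtain ⟨κ1, h1, h2⟩ := exists_minor (R i) (hspan i) h
  have hfin : Set.Finite {q : (Fin n → Fin n ⊕ Fin r) × ι |
      (Matrix.of fun p j => R q.2 (q.1 p) j : Matrix (Fin n) (Fin n) Ω).det ≠ 0} :=
    Set.toFinite _
  obtain ⟨q, hq, hmax⟩ := Set.exists_max_image _ (fun q => cnt q.1) hfin ⟨(κ1, i), h1⟩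
  refine ⟨q.1, q.2, hq, lt_of_lt_of_le h2 (hmax (κ1, i) h1), fun κ' i hκ' => ?_⟩
  by_contra hne
  have := hmax (κ', i) hne
  change cnt κ' ≤ _ at this
  omega

/-- **A minor with the maximal number of rows of the second kind.** -/
theorem exists_max [Finite ι] (R : ι → (Fin n ⊕ Fin r) → Fin n → Ω)
    (hspan : ∀ i, ∀ w : Fin n → Ω, (∀ v, ∑ j, R i v j * w j = 0) → w = 0) {i : ι} {a : Fin r}
    {j : Fin n} (h : R i (Sum.inr a) j ≠ 0) : ∃ (κ : Fin n → Fin n ⊕ Fin r) (i0 : ι),
      (Matrix.of fun p j => R i0 (κ p) j : Matrix (Fin n) (Fin n) Ω).det ≠ 0 ∧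
      (∃ p a, κ p = Sum.inr a) ∧ ∀ (A : Fin n → Fin r → Ω) (i : ι),
        (Matrix.of fun p j => modR (R i) A (κ p) j : Matrix (Fin n) (Fin n) Ω).det =
          (Matrix.of fun p j => R i (κ p) j : Matrix (Fin n) (Fin n) Ω).det := by
  classical
  obtain ⟨κ1, h1, h2⟩ := exists_minor (R i) (hspan i) h
  obtain ⟨q, hq, hmax⟩ : ∃ q : (Fin n → Fin n ⊕ Fin r) × ι,
      (Matrix.of fun p j => R q.2 (q.1 p) j : Matrix (Fin n) (Fin n) Ω).det ≠ 0 ∧
      ∀ q' : (Fin n → Fin n ⊕ Fin r) × ι,
        (Matrix.of fun p j => R q'.2 (q'.1 p) j : Matrix (Fin n) (Fin n) Ω).det ≠ 0 →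
        cnt q'.1 ≤ cnt q.1 := by
    have hfin : Set.Finite {q : (Fin n → Fin n ⊕ Fin r) × ι |
        (Matrix.of fun p j => R q.2 (q.1 p) j : Matrix (Fin n) (Fin n) Ω).det ≠ 0} :=
      Set.toFinite _
    obtain ⟨q, hq, hmax⟩ := Set.exists_max_image _ (fun q => cnt q.1) hfin ⟨(κ1, i), h1⟩
    exact ⟨q, hq, hmax⟩
  refine ⟨q.1, q.2, hq, ?_, fun A i => det_mod (R i) A q.1 fun κ' hκ' => ?_⟩
  · have h3 : 0 < cnt q.1 := lt_of_lt_of_le h2 (hmax (κ1, i) h1)
    obtain ⟨p, hp⟩ := Finset.card_pos.1 h3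
    rw [Finset.mem_filter] at hp
    obtain ⟨a, ha⟩ := Sum.isRight_iff.1 hp.2
    exact ⟨p, a, ha⟩
  · by_contra hne
    have := hmax (κ', i) hne
    change cnt κ' ≤ _ at this
    omega

end

end Pool.Agent.T2h13.AF
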