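import Pool.Agent.T2h13.AF.TM
import Pool.Agent.T2h13.AF.Defs
import Pool.Agent.T2h13.AF.Loc
import Pool.Agent.T2h13.AF.Gen2
import Pool.Agent.T2h13.AF.Max

/-!
Fibrations whose generic fibre has few regular forms: the conjugates of the base are the base.
-/

set_option autoImplicit false
set_option linter.overlappingInstances false
set_option linter.unusedSectionVars false
set_option maxHeartbeats 4000000
set_option synthInstance.maxHeartbeats 400000

open FF Pool.Agent.W603.LV Pool.Agent.Y184.NT Pool.Agent.N162.BC IntermediateField MvPolynomial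
open Pool.Agent.W602.GT Pool.Agent.W619.PQ Pool.Agent.Y172
open Pool.Agent.N145.SX (HX SepX)
open Module (finrank)

namespace Pool.Agent.T2h13.AF

section

variable {K : Type} [Field K] [Algebra ℂ K]

/-- the extension of scalars of a vector field along the fibres -/
noncomputable def rho (E : IntermediateField ℂ K) :
    Derivation E K K →ₗ[K] Derivation ℂ K K where
  toFun D := D.restrictScalars ℂ
  map_add' _ _ := rfl
  map_smul' _ _ := rfl

theorem rho_apply {E : IntermediateField ℂ K} (D : Derivation E K K) (f : K) :
    rho E D f = D f := rfl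

theorem rho_zero {E : IntermediateField ℂ K} (D : Derivation E K K) (f : K) (hf : f ∈ E) :
    rho E D f = 0 := by
  rw [rho_apply]
  exact D.map_algebraMap (⟨f, hf⟩ : E)

theorem rho_inj {E : IntermediateField ℂ K} : Function.Injective (rho E) := by
  intro D D' h
  apply Derivation.ext
  intro f
  exact DFunLike.congr_fun h f

end

section

variable {K : Type} [Field K] [Algebra ℂ K] [Algebra.EssFiniteType ℂ K] {n r : ℕ}
  {L : Type} [Field L] [Algebra ℂ L] [Algebra L K] [IsScalarTower ℂ L K] [FiniteDimensional L K]

theorem algE {E : IntermediateField ℂ K} {x : Fin n → E} (hx : IsTranscendenceBasis ℂ x) {e : K}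
    (he : e ∈ E) : IsAlgebraic (IntermediateField.adjoin ℂ (Set.range fun j => (x j : K))) e := by
  have h1 : IsAlgebraic (IntermediateField.adjoin ℂ (Set.range x)) (⟨e, he⟩ : E) :=
    hx.isAlgebraic_field.isAlgebraic _
  have h2 : ∀ f ∈ IntermediateField.adjoin ℂ (Set.range x),
      (f : K) ∈ IntermediateField.adjoin ℂ (Set.range fun j => (x j : K)) := by
    intro f hf
    have h3 : (IntermediateField.adjoin ℂ (Set.range x)).map E.val =
        IntermediateField.adjoin ℂ (Set.range fun j => (x j : K)) := by
      rw [IntermediateField.adjoin_map, ← Set.range_comp]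
      rfl
    rw [← h3]
    exact ⟨f, hf, rfl⟩
  let ψ : IntermediateField.adjoin ℂ (Set.range x) →+*
      IntermediateField.adjoin ℂ (Set.range fun j => (x j : K)) :=
    { toFun := fun f => ⟨f, h2 f f.2⟩
      map_one' := rfl
      map_mul' := fun _ _ => rfl
      map_zero' := rfl
      map_add' := fun _ _ => rfl }
  exact h1.ringHom_of_comp_eq ψ (algebraMap E K) ψ.injective (by ext z; rfl)

/-- a small spanning family -/
theorem exists_span {E : IntermediateField ℂ K} {h : ℕ} {I : Type} (v : I → K)
    (hv : ∀ f : Fin (h + 1) → I, ¬ LinearIndependent E fun i => v (f i)) :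
    ∃ m ≤ h, ∃ φ : Fin m → K, ∀ i, ∃ c : Fin m → E, v i = ∑ b, (c b : K) * φ b := by
  classical
  obtain ⟨b, hb1, hb2, hb3⟩ := exists_linearIndependent E (Set.range v)
  have hfin : b.Finite ∧ b.ncard ≤ h := by
    by_contra hcon
    have hexp : ∃ s : Finset K, (s : Set K) ⊆ b ∧ s.card = h + 1 := by
      by_cases hf : b.Finite
      · have h1 : h + 1 ≤ b.ncard := by
          by_contra h2
          exact hcon ⟨hf, by omega⟩
        rw [Set.ncard_eq_toFinset_card b hf] at h1
        obtain ⟨s, hs, hs'⟩ := Finset.exists_subset_card_eq h1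
        exact ⟨s, fun y hy => hf.mem_toFinset.1 (hs hy), hs'⟩
      · exact Set.Infinite.exists_subset_card_eq hf (h + 1)
    obtain ⟨s, hs, hsc⟩ := hexp
    let e : Fin (h + 1) ≃ s := (Finset.equivFinOfCardEq hsc).symm
    have h2 : ∀ i, ∃ j, v j = (e i : K) := fun i => hb1 (hs (e i).2)
    choose f hf using h2
    apply hv f
    have h3 : (fun i => v (f i)) = (fun y : b => (y : K)) ∘ fun i => ⟨(e i : K), hs (e i).2⟩ := by
      funext i
      exact hf i
    rw [h3]
    refine hb3.comp _ fun i j hij => ?_
    apply e.injective
    apply Subtype.ext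
    exact congrArg (fun y : b => (y : K)) hij
  obtain ⟨hf, hc⟩ := hfin
  let hft : Fintype b := hf.fintype
  have hc' : Fintype.card b = b.ncard := by
    rw [Set.ncard_eq_toFinset_card', Set.toFinset_card]
  let e : Fin b.ncard ≃ b := (Fintype.equivFinOfCardEq hc').symm
  refine ⟨b.ncard, hc, fun i => (e i : K), fun i => ?_⟩
  have h4 : v i ∈ Submodule.span E b := by
    rw [hb2]
    exact Submodule.subset_span ⟨i, rfl⟩
  have h5 : b = Set.range fun i => (e i : K) := by
    ext y
    constructor
    · intro hy
      exact ⟨e.symm ⟨y, hy⟩, by simp⟩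
    · rintro ⟨i, rfl⟩
      exact (e i).2
  rw [h5, Submodule.mem_span_range_iff_exists_fun] at h4
  obtain ⟨c, hc⟩ := h4
  exact ⟨c, hc.symm⟩

/-- **The conjugates of the base vanish along the fibres.** -/
theorem sep2 (hp : StPull) (hK : Algebra.trdeg ℂ K = (n + r : ℕ)) {E : IntermediateField ℂ K}
    [Algebra.EssFiniteType ℂ E] (hE : Algebra.trdeg ℂ E = n) {x : Fin n → E}
    (hx : IsTranscendenceBasis ℂ x) {g h : ℕ} (hS : SepX x (fun _ => False) g)
    (hg : (h + 1) * finrank L (IntermediateField.adjoin L (E : Set K)) < g)
    (hfew : FewForms E r h)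
    (σ : IntermediateField.adjoin L (E : Set K) →ₐ[L] AlgebraicClosure K) (e : K) (he : e ∈ E) :
    IsAlgebraic (IntermediateField.adjoin ℂ (Set.range fun j => (x j : K)))
      (σ ⟨e, IntermediateField.subset_adjoin L _ he⟩) := by
  classical
  let M := IntermediateField.adjoin L (E : Set K)
  let inc : E →+* M :=
    { toFun := fun f => ⟨f, IntermediateField.subset_adjoin L _ f.2⟩
      map_one' := rfl
      map_mul' := fun _ _ => rfl
      map_zero' := rfl
      map_add' := fun _ _ => rfl }
  let iA : Algebra E M := inc.toAlgebra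
  have hT1 : IsScalarTower ℂ E M := IsScalarTower.of_algebraMap_eq fun c => rfl
  have hfdM : FiniteDimensional L M := inferInstance
  have halgΩ : Algebra.IsAlgebraic L (AlgebraicClosure K) :=
    Algebra.IsAlgebraic.trans L K (AlgebraicClosure K)
  have hcL : CharZero L := charZero_of_injective_algebraMap (algebraMap ℂ L).injective
  have hsepM : Algebra.IsSeparable L M := Algebra.IsAlgebraic.isSeparable_of_perfectField
  -- the coordinates
  have hxK : AlgebraicIndependent ℂ fun j => (x j : K) :=
    hx.1.map' (f := IsScalarTower.toAlgHom ℂ E K) (algebraMap E K).injective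
  have hF0E : IntermediateField.adjoin ℂ (Set.range fun j => (x j : K)) ≤ E := by
    rw [IntermediateField.adjoin_le_iff]
    rintro _ ⟨j, rfl⟩
    exact (x j).2
  obtain ⟨t, ht⟩ := exists_compl hK hxK
  have hcK : CharZero K := charZero_of_injective_algebraMap (algebraMap ℂ K).injective
  obtain ⟨E1, hE1⟩ := Pool.Agent.Y173.QA.exists_duals ht
  obtain ⟨F, hF⟩ : ∃ F : Fin n → Derivation ℂ K K, ∀ i j, F i (x j : K) = if i = j then 1 else 0 :=
    ⟨fun i => E1 (Fin.castAdd r i), fun i j => by
      have h1 := hE1 (Fin.castAdd r i) (Fin.castAdd r j)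
      rw [Fin.append_left] at h1
      rw [h1]
      simp only [(Fin.castAdd_injective n r).eq_iff]⟩
  obtain ⟨UE, hUE, hdep⟩ := hfew
  obtain ⟨U, hU⟩ : ∃ U : Fin r → Derivation ℂ K K, ∀ a, U a = rho E (UE a) := ⟨_, fun _ => rfl⟩
  have hUz : ∀ a, ∀ f ∈ E, U a f = 0 := fun a f hf => by rw [hU]; exact rho_zero _ f hf
  have hUlin : LinearIndependent K U := by
    have h1 : U = fun a => rho E (UE a) := funext hU
    rw [h1]
    exact hUE.map' (rho E) (LinearMap.ker_eq_bot.2 rho_inj)
  have hUx : ∀ a j, U a (x j : K) = 0 := fun a j => hUz a _ (x j).2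
  have hdet := det_of_lin ht hUlin hUx
  choose F' hF' using fun i => exists_ext (Ω := AlgebraicClosure K) hK (F i)
  choose U' hU' using fun a => exists_ext (Ω := AlgebraicClosure K) hK (U a)
  -- the matrices
  let R : (M →ₐ[L] AlgebraicClosure K) → (Fin n ⊕ Fin r) → Fin n → AlgebraicClosure K :=
    fun τ v j => Sum.elim F' U' v (τ (algebraMap E M (x j)))
  let ee : (M →ₐ[L] AlgebraicClosure K) → (E →ₐ[ℂ] AlgebraicClosure K) := fun τ =>
    (τ.restrictScalars ℂ).comp (IsScalarTower.toAlgHom ℂ E M)
  have hee : ∀ τ f, ee τ f = τ (algebraMap E M f) := fun _ _ => rfl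
  have key : ∀ (τ : M →ₐ[L] AlgebraicClosure K) (a : Fin r) (j : Fin n),
      U' a (τ (algebraMap E M (x j))) = 0 := by
    by_contra hcon
    push Not at hcon
    obtain ⟨τ0, a0, j0, h0⟩ := hcon
    have hspan : ∀ (τ : M →ₐ[L] AlgebraicClosure K) (w : Fin n → AlgebraicClosure K),
        (∀ v, ∑ j, R τ v j * w j = 0) → w = 0 := by
      intro τ w hw
      have hy : AlgebraicIndependent ℂ fun j => ee τ (x j) :=
        hx.1.map' (f := ee τ) (ee τ).injective
      exact span_rows (Ω := AlgebraicClosure K) hK ht hUx hdet hF hF' hU' hy hw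
    obtain ⟨κ, τ1, hJ, hpos, hmax⟩ := exists_max2 R hspan (i := τ0) (a := a0) (j := j0) h0
    choose T hTv hTr using fun f : HX x (fun _ => False) =>
      exists_T (M := M) (L := L) (Ω := AlgebraicClosure K) hp hE hK hx f.2
    -- the value on a combination
    have hTc : ∀ (f : HX x (fun _ => False)) (C : Fin n → (Fin n ⊕ Fin r) → K),
        algebraMap K (AlgebraicClosure K) (T f fun p => ∑ v, C p v • Sum.elim F U v) =
          ∑ τ : M →ₐ[L] AlgebraicClosure K, (Matrix.of fun p j =>
            ∑ v, algebraMap K (AlgebraicClosure K) (C p v) * R τ v j :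
              Matrix (Fin n) (Fin n) _).det * ee τ f := by
      intro f C
      rw [hTv f _ (fun p => ∑ v, algebraMap K (AlgebraicClosure K) (C p v) • Sum.elim F' U' v)
        (fun p y => ?_)]
      · refine Finset.sum_congr rfl fun τ _ => ?_
        congr 1
        congr 1
        ext p j
        rw [Matrix.of_apply, Matrix.of_apply, der_sum_app]
        rfl
      · rw [der_sum_app, der_sum_app, map_sum]
        refine Finset.sum_congr rfl fun v _ => ?_
        rw [Derivation.smul_apply, Derivation.smul_apply, smul_eq_mul, smul_eq_mul, map_mul]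
        congr 1
        rcases v with b | a
        · exact hF' b y
        · exact hU' a y
    -- the positions of the vertical rows
    obtain ⟨S, hSdef⟩ : ∃ S : Finset (Fin n), S = Finset.univ.filter fun p => (κ p).isRight :=
      ⟨_, rfl⟩
    have hScard : S.card = cnt κ := by rw [hSdef]; rfl
    have hSmem : ∀ p, p ∈ S ↔ (κ p).isRight = true := by
      intro p
      rw [hSdef, Finset.mem_filter]
      simp
    let e0 : Fin (cnt κ) ≃ S := (Finset.equivFinOfCardEq hScard).symm
    let eS : Fin (cnt κ) ↪ Fin n := ⟨fun i => (e0 i : Fin n), fun i j hij =>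
      e0.injective (Subtype.ext hij)⟩
    have heS : ∀ i, eS i ∈ S := fun i => (e0 i).2
    have heS' : ∀ p ∈ S, ∃ i, eS i = p := fun p hp => ⟨e0.symm ⟨p, hp⟩, by
      change ((e0 (e0.symm ⟨p, hp⟩) : S) : Fin n) = p
      rw [Equiv.apply_symm_apply]⟩
    have hsel : ∀ i, ∃ a : Fin r, κ (eS i) = Sum.inr a := fun i =>
      Sum.isRight_iff.1 ((hSmem _).1 (heS i))
    choose a ha using hsel
    -- independence of the lifts
    have hind : ∀ (f : HX x (fun _ => False)) (Fw : Fin n → Derivation ℂ K K),
        (∀ i j, Fw i (x j : K) = if i = j then 1 else 0) →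
        ∀ u : Fin (cnt κ) → Derivation E K K,
          T f (Function.extend eS (fun i => rho E (u i)) (fun p => Sum.elim Fw (fun _ => 0) (κ p)))
            = T f (Function.extend eS (fun i => rho E (u i))
                (fun p => Sum.elim F (fun _ => 0) (κ p))) := by
      intro f Fw hFw u
      choose c hc using fun b => span_of_det ht hUx hdet (D := Fw b - F b) (fun j => by
        rw [Derivation.sub_apply, hFw, hF, sub_self])
      choose d hd using fun i => span_of_det ht hUx hdet (D := rho E (u i)) (fun j =>
        rho_zero _ _ (x j).2)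
      let C0 : Fin n → (Fin n ⊕ Fin r) → K := Function.extend eS
        (fun i => Sum.elim (fun _ => 0) (d i))
        (fun p => Sum.elim (fun b => Sum.elim (fun b' => if b' = b then 1 else 0) fun _ => 0)
          (fun _ _ => 0) (κ p))
      let C1 : Fin n → (Fin n ⊕ Fin r) → K := Function.extend eS
        (fun i => Sum.elim (fun _ => 0) (d i))
        (fun p => Sum.elim (fun b => Sum.elim (fun b' => if b' = b then 1 else 0) (c b))
          (fun _ _ => 0) (κ p))
      have hin : ∀ p, (∃ i, eS i = p) ∨ (p ∉ S ∧ ¬ (∃ i, eS i = p) ∧ ∃ b, κ p = Sum.inl b) := by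
        intro p
        by_cases hp : p ∈ S
        · exact Or.inl (heS' p hp)
        · right
          refine ⟨hp, fun ⟨i, hi⟩ => hp (hi ▸ heS i), ?_⟩
          have h1 : ¬ (κ p).isRight = true := fun h => hp ((hSmem p).2 h)
          rcases hv : κ p with b | a'
          · exact ⟨b, rfl⟩
          · rw [hv] at h1
            exact absurd rfl h1
      have hC0 : ∀ p, Function.extend eS (fun i => rho E (u i))
          (fun p => Sum.elim F (fun _ => 0) (κ p)) p = ∑ v, C0 p v • Sum.elim F U v := by
        intro p
        rcases hin p with ⟨i, rfl⟩ | ⟨-, hne, b, hb⟩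
        · simp only [C0]
          rw [eS.injective.extend_apply, eS.injective.extend_apply, hd, Fintype.sum_sum_type]
          simp
        · simp only [C0]
          rw [Function.extend_apply' _ _ _ hne, Function.extend_apply' _ _ _ hne, hb,
            Fintype.sum_sum_type]
          simp
      have hC1 : ∀ p, Function.extend eS (fun i => rho E (u i))
          (fun p => Sum.elim Fw (fun _ => 0) (κ p)) p = ∑ v, C1 p v • Sum.elim F U v := by
        intro p
        rcases hin p with ⟨i, rfl⟩ | ⟨-, hne, b, hb⟩
        · simp only [C1]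
          rw [eS.injective.extend_apply, eS.injective.extend_apply, hd, Fintype.sum_sum_type]
          simp
        · simp only [C1]
          rw [Function.extend_apply' _ _ _ hne, Function.extend_apply' _ _ _ hne, hb,
            Fintype.sum_sum_type]
          have h1 : Fw b = F b + ∑ a, c b a • U a := by
            rw [← hc]
            abel
          simp [h1]
      rw [show Function.extend eS (fun i => rho E (u i))
          (fun p => Sum.elim F (fun _ => 0) (κ p)) = fun p => ∑ v, C0 p v • Sum.elim F U v from
          funext hC0, show Function.extend eS (fun i => rho E (u i))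
          (fun p => Sum.elim Fw (fun _ => 0) (κ p)) = fun p => ∑ v, C1 p v • Sum.elim F U v from
          funext hC1]
      apply (algebraMap K (AlgebraicClosure K)).injective
      rw [hTc, hTc]
      refine Finset.sum_congr rfl fun τ _ => ?_
      congr 1
      refine det_two (R τ) (fun κ' hκ' => hmax κ' τ hκ') hScard
        (C := fun p v => algebraMap K (AlgebraicClosure K) (C0 p v))
        (C' := fun p v => algebraMap K (AlgebraicClosure K) (C1 p v)) ?_ ?_ ?_
      · intro p hp b
        obtain ⟨i, rfl⟩ := heS' p hp
        simp only [C0]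
        rw [eS.injective.extend_apply]
        simp
      · intro p hp
        obtain ⟨i, rfl⟩ := heS' p hp
        funext v
        simp only [C0, C1]
        rw [eS.injective.extend_apply, eS.injective.extend_apply]
      · intro p hp b
        rcases hin p with ⟨i, rfl⟩ | ⟨-, hne, b', hb⟩
        · exact absurd (heS i) hp
        · simp only [C0, C1]
          rw [Function.extend_apply' _ _ _ hne, Function.extend_apply' _ _ _ hne, hb]
          simp
    -- the forms on the generic fibre
    let φ : HX x (fun _ => False) → (Derivation E K K) [⋀^Fin (cnt κ)]→ₗ[K] K := fun f =>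
      part (T f) (rho E) eS (fun p => Sum.elim F (fun _ => 0) (κ p))
    have hφreg : ∀ f, RegForm E r (φ f) := by
      intro f w hw D hD
      obtain ⟨r', rfl⟩ : ∃ r', r = r' + 1 := Nat.exists_eq_succ_of_ne_zero (by
        rintro rfl
        exact a0.elim0)
      obtain ⟨hdiv, Fw, hFw1, hFw2⟩ := exists_local hK hx hw
      have h1 : φ f D = T f (Function.extend eS (fun i => rho E (D i))
          (fun p => Sum.elim Fw (fun _ => 0) (κ p))) := by
        rw [hind f Fw hFw2 D]
        rfl
      rw [h1, ← res_reg]
      refine hTr f (res w) hdiv _ fun p => ?_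
      by_cases hp : ∃ i, eS i = p
      · obtain ⟨i, rfl⟩ := hp
        rw [eS.injective.extend_apply]
        exact fun y hy => hD i y hy
      · rw [Function.extend_apply' _ _ _ hp]
        rcases κ p with b | a'
        · exact hFw1 b
        · intro y _
          change (res w).Reg ((0 : Derivation ℂ K K) y)
          rw [Derivation.zero_apply]
          exact (res w).reg_zero
    have hTκ : ∀ f : HX x (fun _ => False), algebraMap K (AlgebraicClosure K)
        (φ f fun i => UE (a i)) = ∑ τ : M →ₐ[L] AlgebraicClosure K,
          (Matrix.of fun p j => R τ (κ p) j : Matrix (Fin n) (Fin n) _).det * ee τ f := by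
      intro f
      have h1 : φ f (fun i => UE (a i)) = T f fun p => Sum.elim F U (κ p) := by
        change T f _ = _
        congr 1
        funext p
        by_cases hp : ∃ i, eS i = p
        · obtain ⟨i, rfl⟩ := hp
          rw [eS.injective.extend_apply, ha, Sum.elim_inr, hU]
        · rw [Function.extend_apply' _ _ _ hp]
          have hpS : p ∉ S := fun h => hp (heS' p h)
          have h2 : ¬ (κ p).isRight = true := fun h => hpS ((hSmem p).2 h)
          rcases hv : κ p with b | a'
          · rfl
          · rw [hv] at h2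
            exact absurd rfl h2
      rw [h1]
      refine hTv f _ (fun p => Sum.elim F' U' (κ p)) (fun p y => ?_)
      rcases κ p with b | a'
      · exact hF' b y
      · exact hU' a' y
    obtain ⟨m, hm, ψ, hψ⟩ := exists_span (E := E) (h := h)
      (fun f : HX x (fun _ => False) => φ f fun i => UE (a i))
      (fun fs => hdep (cnt κ) a hpos (fun i => φ (fs i)) fun i => hφreg _)
    have hcard : Fintype.card (M →ₐ[L] AlgebraicClosure K) = finrank L M :=
      AlgHom.card L M (AlgebraicClosure K)
    have hT2 : IsScalarTower ℂ (algebraicClosure (IntermediateField.adjoin ℂ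
        (Set.range fun j => (x j : K))) (AlgebraicClosure K)) (AlgebraicClosure K) :=
      IsScalarTower.of_algebraMap_eq fun c => rfl
    have h1 := gen_sep2 (N := algebraicClosure
        (IntermediateField.adjoin ℂ (Set.range fun j => (x j : K))) (AlgebraicClosure K))
      (H := HX x (fun _ => False)) (g := g) (h := h) (m := m) hS ee (fun τ τ' h => by
        refine IntermediateField.algHom_ext_of_eq_adjoin L rfl fun y hy => ?_
        exact DFunLike.congr_fun h (⟨y, hy⟩ : E)) (by rw [hcard]; exact hg)
      (fun τ => (Matrix.of fun p j => R τ (κ p) j : Matrix (Fin n) (Fin n) _).det) hm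
      (fun b => algebraMap K (AlgebraicClosure K) (ψ b)) (fun f hf => ?_) hJ
    · -- the contradiction
      have hp0 : ∃ p0, (κ p0).isRight = true := by
        obtain ⟨p0, hp0⟩ := Finset.card_pos.1 hpos
        exact ⟨p0, (Finset.mem_filter.1 hp0).2⟩
      obtain ⟨p0, hp0⟩ := hp0
      obtain ⟨a1, hκ⟩ := Sum.isRight_iff.1 hp0
      apply hJ
      apply Matrix.det_eq_zero_of_row_eq_zero p0
      intro j
      rw [Matrix.of_apply, hκ]
      change U' a1 (τ1 (algebraMap E M (x j))) = 0
      have hcF : CharZero (IntermediateField.adjoin ℂ (Set.range fun j => (x j : K))) :=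
        charZero_of_injective_algebraMap (algebraMap ℂ _).injective
      have hcN : CharZero (algebraicClosure
          (IntermediateField.adjoin ℂ (Set.range fun j => (x j : K))) (AlgebraicClosure K)) :=
        charZero_of_injective_algebraMap (algebraMap ℂ _).injective
      refine der_alg' (A := algebraicClosure
          (IntermediateField.adjoin ℂ (Set.range fun j => (x j : K))) (AlgebraicClosure K))
        (fun b => ?_) (h1 (x j))
      refine der_alg' (A := IntermediateField.adjoin ℂ (Set.range fun j => (x j : K)))
        (fun f => ?_) (mem_algebraicClosure_iff.1 b.2)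
      have h2 : algebraMap (IntermediateField.adjoin ℂ (Set.range fun j => (x j : K)))
        (AlgebraicClosure K) f = algebraMap K (AlgebraicClosure K) (f : K) := rfl
      rw [h2, hU', hUz a1 _ (hF0E f.2), map_zero]
    · obtain ⟨c, hc⟩ := hψ ⟨f, hf⟩
      refine ⟨fun b => ⟨algebraMap K (AlgebraicClosure K) (c b), ?_⟩, ?_⟩
      · exact mem_algebraicClosure_iff.2 (algE hx (c b).2).algebraMap
      · rw [← hTκ ⟨f, hf⟩, hc, map_sum]
        refine Finset.sum_congr rfl fun b _ => ?_
        rw [map_mul]
        rfl
  have hσ : ∀ a, U' a (σ (⟨e, IntermediateField.subset_adjoin L _ he⟩ : M)) = 0 := by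
    intro a
    exact der_emb (ee σ) (U' a) hx (fun j => key σ a j) ⟨e, he⟩
  exact const_alg hK (E := E) (fun j => (x j).2) hxK hUlin hUz hU' hσ

end

end Pool.Agent.T2h13.AF
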