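import Mathlib

/-!
Determinants of matrices whose rows are linear combinations.
-/

set_option autoImplicit false

namespace Pool.Agent.T2h13.AF

theorem det_rows {R : Type*} [CommRing R] {n : ℕ} {ι : Type*} [Fintype ι] (a : Fin n → ι → R)
    (b : ι → Fin n → R) : (Matrix.of fun i j => ∑ l, a i l * b l j).det =
      ∑ κ : Fin n → ι, (∏ i, a i (κ i)) * (Matrix.of fun i j => b (κ i) j).det := by
  classical
  have h2 : (Matrix.of fun i j => ∑ l, a i l * b l j : Matrix (Fin n) (Fin n) R) =
      fun i => ∑ l, a i l • b l := by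
    funext i j
    rw [Matrix.of_apply, Finset.sum_apply]
    rfl
  rw [h2]
  change (Matrix.detRowAlternating (R := R) (n := Fin n)).toMultilinearMap
    (fun i => ∑ l, a i l • b l) = _
  rw [MultilinearMap.map_sum]
  refine Finset.sum_congr rfl fun κ _ => ?_
  rw [MultilinearMap.map_smul_univ, smul_eq_mul]
  rfl

end Pool.Agent.T2h13.AF
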