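import Pool.Agent.N401.GP.TNF
import Pool.Agent.Y173.QA.Str1
import Pool.Agent.Y172.Cov4
import Pool.Agent.T2h13.AF.Der
import Pool.Agent.T2h13.AF.Rows

/-!
Traces of forms of lower degree, and their values on the vector fields of a finite extension.
-/

set_option autoImplicit false
set_option linter.overlappingInstances false
set_option linter.unusedSectionVars false

open FF Pool.Agent.W603.LV Pool.Agent.Y184.NT Pool.Agent.N162.BC IntermediateField MvPolynomial
open Pool.Agent.W602.GT Pool.Agent.W619.PQ Pool.Agent.Y172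

namespace Pool.Agent.T2h13.AF

section

variable {E L M : Type} [Field E] [Algebra ℂ E] [Algebra.EssFiniteType ℂ E] [Field L]
  [Algebra ℂ L] [Algebra.EssFiniteType ℂ L] [Field M] [Algebra ℂ M] [Algebra E M]
  [IsScalarTower ℂ E M] [Algebra L M] [IsScalarTower ℂ L M] [FiniteDimensional L M] {n w : ℕ}

/-- **The trace of a regular form.** -/
theorem exists_eta (hp : StPull) (hn : Algebra.trdeg ℂ E = n) (hw : Algebra.trdeg ℂ L = w)
    {y : Fin n → E} (hy : IsTranscendenceBasis ℂ y) {ε : Fin n → Derivation ℂ E E}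
    (hε : ∀ i j, ε i (y j) = if i = j then 1 else 0) {ω : (Fin n → Derivation ℂ E E) → E}
    (hω : GlobalForm n ω) : ∃ η : AlternatingMap L (Derivation ℂ L L) L (Fin n),
      (∀ P : Place ℂ L, Divisorial w P → ∀ D : Fin n → Derivation ℂ L L,
        (∀ i, DerReg P (D i)) → P.Reg (η D)) ∧
      ∀ (D : Fin n → Derivation ℂ L L) (D' : Fin n → Derivation ℂ M M),
        (∀ i f, D' i (algebraMap L M f) = algebraMap L M (D i f)) →
        η D = Algebra.trace L M ((Matrix.of fun i j => D' i (algebraMap E M (y j)) :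
          Matrix (Fin n) (Fin n) M).det * algebraMap E M (ω ε)) := by
  classical
  have hess : Algebra.EssFiniteType ℂ M := Algebra.EssFiniteType.comp ℂ L M
  obtain ⟨l, E0, hl, hE0⟩ := exists_crd (k := ℂ) (K := L) hw
  choose E' hE' using fun i : Fin w => exists_lift (k := ℂ) (K := L) (L := M) hw (E0 i)
  have hl2 : IsTranscendenceBasis ℂ (fun j => algebraMap L M (l j)) := hl.algebraMap_comp
  have hE2 := fun i j => lift_dual (L := M) hE0 hE' i j
  obtain ⟨Φ, hΦ⟩ : ∃ Φ : Derivation ℂ L L →ₗ[L] (Fin n → M), ∀ D j, Φ D j =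
      ∑ k, algebraMap L M (D (l k)) * E' k (algebraMap E M (y j)) := by
    refine ⟨{ toFun := fun D j => ∑ k, algebraMap L M (D (l k)) * E' k (algebraMap E M (y j))
              map_add' := fun D1 D2 => ?_
              map_smul' := fun a D => ?_ }, fun D j => rfl⟩
    · funext j
      change ∑ k, algebraMap L M (D1 (l k) + D2 (l k)) * _ = ∑ k, _ + ∑ k, _
      rw [← Finset.sum_add_distrib]
      refine Finset.sum_congr rfl fun k _ => ?_
      rw [map_add, add_mul]
    · funext j
      change ∑ k, algebraMap L M (a * D (l k)) * _ = a • ∑ k, _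
      rw [Algebra.smul_def, Finset.mul_sum]
      refine Finset.sum_congr rfl fun k _ => ?_
      rw [map_mul, mul_assoc]
  have hΦl : ∀ (D : Derivation ℂ L L) (D' : Derivation ℂ M M),
      (∀ f, D' (algebraMap L M f) = algebraMap L M (D f)) → ∀ j,
      Φ D j = D' (algebraMap E M (y j)) := by
    intro D D' hD j
    have h1 := Pool.Agent.W73.PG.PULL.expand _ hl2 E' hE2 D'
    rw [hΦ]
    conv_rhs => rw [← h1]
    rw [Pool.Agent.W73.PG.PULL.sum_app]
    refine Finset.sum_congr rfl fun k _ => ?_
    rw [← hD]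
    rfl
  obtain ⟨g0, hg0⟩ : ∃ g0 : M, g0 = algebraMap E M (ω ε) := ⟨_, rfl⟩
  obtain ⟨η, hη⟩ : ∃ η : AlternatingMap L (Derivation ℂ L L) L (Fin n), ∀ D,
      η D = Algebra.trace L M ((Matrix.of fun i => Φ (D i)).det * g0) := by
    refine ⟨{ toFun := fun D => Algebra.trace L M ((Matrix.of fun i => Φ (D i)).det * g0)
              map_update_add' := ?_
              map_update_smul' := ?_
              map_eq_zero_of_eq' := ?_ }, fun D => rfl⟩
    · intro hdec D i a c
      have hd : hdec = instDecidableEqFin n := Subsingleton.elim _ _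
      subst hd
      rw [← map_add, ← add_mul]
      have h1 : ∀ x, (Matrix.of fun k => Φ (Function.update D i x k) :
          Matrix (Fin n) (Fin n) M) =
          Matrix.updateRow (Matrix.of fun k => Φ (D k)) i (Φ x) := by
        intro x
        funext k
        change Φ (Function.update D i x k) = Function.update (fun k => Φ (D k)) i (Φ x) k
        exact Function.apply_update (fun _ => Φ) D i x k
      rw [h1, h1, h1, map_add, Matrix.det_updateRow_add]
    · intro hdec D i a x
      have hd : hdec = instDecidableEqFin n := Subsingleton.elim _ _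
      subst hd
      have h1 : ∀ x, (Matrix.of fun k => Φ (Function.update D i x k) :
          Matrix (Fin n) (Fin n) M) =
          Matrix.updateRow (Matrix.of fun k => Φ (D k)) i (Φ x) := by
        intro x
        funext k
        change Φ (Function.update D i x k) = Function.update (fun k => Φ (D k)) i (Φ x) k
        exact Function.apply_update (fun _ => Φ) D i x k
      have h2 : a • Φ x = algebraMap L M a • Φ x := by
        funext j
        rw [Pi.smul_apply, Pi.smul_apply, Algebra.smul_def, smul_eq_mul]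
      rw [h1, h1, map_smul, h2, Matrix.det_updateRow_smul, ← map_smul, mul_assoc,
        Algebra.smul_def]
    · intro D i j hij hne'
      have h1 : (Matrix.of fun k => Φ (D k) : Matrix (Fin n) (Fin n) M).det = 0 :=
        Matrix.det_zero_of_row_eq hne' (by
          change Φ (D i) = Φ (D j)
          rw [hij])
      change Algebra.trace L M ((Matrix.of fun k => Φ (D k)).det * g0) = 0
      rw [h1, zero_mul, map_zero]
  have hval : ∀ (D : Fin n → Derivation ℂ L L) (D' : Fin n → Derivation ℂ M M),
      (∀ i f, D' i (algebraMap L M f) = algebraMap L M (D i f)) →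
      η D = Algebra.trace L M ((Matrix.of fun i j => D' i (algebraMap E M (y j)) :
        Matrix (Fin n) (Fin n) M).det * g0) := by
    intro D D' hD
    rw [hη]
    congr 3
    ext i j
    exact hΦl (D i) (D' i) (hD i) j
  refine ⟨η, ?_, fun D D' hD => by rw [hval D D' hD, hg0]⟩
  intro P hP D hD
  obtain ⟨z, Ez, i0, hloc⟩ := exists_loc hw hP
  choose EP hEP using fun i : Fin w =>
    exists_lift (k := ℂ) (K := L) (L := M) hw (Ez i)
  have h1 : D = fun i => ∑ k, D i (z k) • Ez k := by
    funext i
    exact (Pool.Agent.W73.PG.PULL.expand z hloc.bas Ez hloc.dual (D i)).symm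
  have h2 : η D = ∑ κ : Fin n → Fin w, (∏ i, D i (z (κ i))) * η fun i => Ez (κ i) := by
    conv_lhs => rw [h1]
    change η.toMultilinearMap _ = _
    rw [MultilinearMap.map_sum]
    refine Finset.sum_congr rfl fun κ _ => ?_
    rw [MultilinearMap.map_smul_univ]
    rfl
  change Ge P 0 (η D)
  rw [h2]
  refine Ge.sum _ _ fun κ _ => ?_
  have h3 : Ge P 0 (∏ i, D i (z (κ i))) := by
    have h4 := Ge.prod (P := P) Finset.univ (fun i => D i (z (κ i))) (fun _ => 0)
      fun i _ => hD i _ (hloc.reg (κ i))
    simpa using h4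
  have h4 : Ge P 0 (η fun i => Ez (κ i)) := by
    by_cases hκ : Function.Injective κ
    · rw [hval _ (fun i => EP (κ i)) fun i => hEP (κ i), hg0]
      refine Pool.Agent.Y692.NT.trace_reg P _ fun Q e hQe => ?_
      exact Pool.Agent.N401.GP.mild_det hp hn hw hy hε hω hQe hP hloc hEP κ hκ
    · left
      unfold Function.Injective at hκ
      push Not at hκ
      obtain ⟨i, j, hij, hne'⟩ := hκ
      exact η.map_eq_zero_of_eq _ (by rw [hij]) hne'
  simpa using h3.mul h4

end

section

variable {E L M K Ω : Type} [Field E] [Algebra ℂ E] [Algebra.EssFiniteType ℂ E] [Field L]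
  [Algebra ℂ L] [Algebra.EssFiniteType ℂ L] [Field M] [Algebra ℂ M] [Algebra E M]
  [IsScalarTower ℂ E M] [Algebra L M] [IsScalarTower ℂ L M] [FiniteDimensional L M]
  [Field K] [Algebra ℂ K] [Algebra L K] [IsScalarTower ℂ L K] [FiniteDimensional L K]
  [Field Ω] [Algebra ℂ Ω] [Algebra K Ω] [IsScalarTower ℂ K Ω] [Algebra L Ω] [IsScalarTower L K Ω]
  [IsScalarTower ℂ L Ω] [IsAlgClosed Ω] [Algebra.IsAlgebraic L Ω] {n w : ℕ}

/-- **The values of the trace on the vector fields of a finite extension.** -/
theorem trace_eval (hp : StPull) (hn : Algebra.trdeg ℂ E = n) (hw : Algebra.trdeg ℂ L = w)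
    {y : Fin n → E} (hy : IsTranscendenceBasis ℂ y) {ε : Fin n → Derivation ℂ E E}
    (hε : ∀ i j, ε i (y j) = if i = j then 1 else 0) {ω : (Fin n → Derivation ℂ E E) → E}
    (hω : GlobalForm n ω) (D : Fin n → Derivation ℂ K K) (D' : Fin n → Derivation ℂ Ω Ω)
    (hD : ∀ i f, D' i (algebraMap K Ω f) = algebraMap K Ω (D i f)) : ∃ s : K,
      algebraMap K Ω s = ∑ σ : M →ₐ[L] Ω, (Matrix.of fun i j => D' i (σ (algebraMap E M (y j))) :
        Matrix (Fin n) (Fin n) Ω).det * σ (algebraMap E M (ω ε)) ∧
      ∀ Q : Place ℂ K, Divisorial w Q → (∀ i, DerReg Q (D i)) → Q.Reg s := by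
  classical
  obtain ⟨η, hreg, hval⟩ := exists_eta (M := M) hp hn hw hy hε hω
  have hcL : CharZero L := charZero_of_injective_algebraMap (algebraMap ℂ L).injective
  have hsep : Algebra.IsSeparable L M := Algebra.IsAlgebraic.isSeparable_of_perfectField
  have key : ∀ (z : Fin w → L) (Ez : Fin w → Derivation ℂ L L), IsTranscendenceBasis ℂ z →
      (∀ i j, Ez i (z j) = if i = j then 1 else 0) →
      algebraMap K Ω (∑ κ : Fin n → Fin w, (∏ i, D i (algebraMap L K (z (κ i)))) *
        algebraMap L K (η fun i => Ez (κ i))) = ∑ σ : M →ₐ[L] Ω,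
        (Matrix.of fun i j => D' i (σ (algebraMap E M (y j))) :
          Matrix (Fin n) (Fin n) Ω).det * σ (algebraMap E M (ω ε)) := by
    intro z Ez hz hEz
    choose EM hEM using fun i : Fin w =>
      exists_lift (k := ℂ) (K := L) (L := M) hw (Ez i)
    have hzΩ : IsTranscendenceBasis ℂ (fun j => algebraMap L Ω (z j)) := hz.algebraMap_comp
    have hcΩ : CharZero Ω := charZero_of_injective_algebraMap (algebraMap ℂ Ω).injective
    obtain ⟨EΩ, hEΩ⟩ := Pool.Agent.Y173.QA.exists_duals hzΩ
    have hcomp : ∀ l f, EΩ l (algebraMap L Ω f) = algebraMap L Ω (Ez l f) := by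
      intro l
      refine Pool.Agent.W619.TW.der_comp (Ez l) (EΩ l) z hz fun i => ?_
      rw [hEΩ, hEz, apply_ite (algebraMap L Ω), map_one, map_zero]
    have hrow : ∀ (σ : M →ₐ[L] Ω) (i j : Fin n), D' i (σ (algebraMap E M (y j))) =
        ∑ l, algebraMap K Ω (D i (algebraMap L K (z l))) *
          σ (EM l (algebraMap E M (y j))) := by
      intro σ i j
      have h1 := Pool.Agent.W73.PG.PULL.expand _ hzΩ EΩ hEΩ (D' i)
      conv_lhs => rw [← h1]
      rw [Pool.Agent.W73.PG.PULL.sum_app]
      refine Finset.sum_congr rfl fun l _ => ?_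
      rw [← der_comm (hEM l) (hcomp l), ← hD, ← IsScalarTower.algebraMap_apply L K Ω]
      rfl
    have hdet : ∀ σ : M →ₐ[L] Ω, (Matrix.of fun i j => D' i (σ (algebraMap E M (y j))) :
        Matrix (Fin n) (Fin n) Ω).det = ∑ κ : Fin n → Fin w,
          (∏ i, algebraMap K Ω (D i (algebraMap L K (z (κ i))))) *
          σ (Matrix.of fun i j => EM (κ i) (algebraMap E M (y j)) :
            Matrix (Fin n) (Fin n) M).det := by
      intro σ
      have h1 : (Matrix.of fun i j => D' i (σ (algebraMap E M (y j))) :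
          Matrix (Fin n) (Fin n) Ω) = Matrix.of fun i j =>
            ∑ l, algebraMap K Ω (D i (algebraMap L K (z l))) *
              σ (EM l (algebraMap E M (y j))) := by
        ext i j
        exact hrow σ i j
      rw [h1, det_rows]
      refine Finset.sum_congr rfl fun κ _ => ?_
      congr 1
      rw [AlgHom.map_det]
      rfl
    rw [map_sum]
    simp only [hdet, Finset.sum_mul]
    rw [Finset.sum_comm]
    refine Finset.sum_congr rfl fun κ _ => ?_
    rw [map_mul, map_prod, ← IsScalarTower.algebraMap_apply L K Ω,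
      hval _ (fun i => EM (κ i)) fun i => hEM (κ i),
      trace_eq_sum_embeddings (K := L) (L := M) Ω, Finset.mul_sum]
    refine Finset.sum_congr rfl fun σ _ => ?_
    rw [map_mul]
    ring
  obtain ⟨z0, Ez0, hz0, hEz0⟩ := exists_crd (k := ℂ) (K := L) hw
  refine ⟨_, key z0 Ez0 hz0 hEz0, fun Q hQ hDQ => ?_⟩
  have hov := over_bel L Q
  have hP : Divisorial w (bel L Q) := divisorial_down hov hQ
  obtain ⟨z, Ez, i0, hloc⟩ := exists_loc hw hP
  have h1 : (∑ κ : Fin n → Fin w, (∏ i, D i (algebraMap L K (z0 (κ i)))) *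
        algebraMap L K (η fun i => Ez0 (κ i))) = ∑ κ : Fin n → Fin w,
        (∏ i, D i (algebraMap L K (z (κ i)))) * algebraMap L K (η fun i => Ez (κ i)) := by
    apply (algebraMap K Ω).injective
    rw [key z0 Ez0 hz0 hEz0, key z Ez hloc.bas hloc.dual]
  rw [h1]
  refine Ge.sum _ _ fun κ _ => ?_
  have h3 : Ge Q 0 (∏ i, D i (algebraMap L K (z (κ i)))) := by
    have h4 := Ge.prod (P := Q) Finset.univ (fun i => D i (algebraMap L K (z (κ i))))
      (fun _ => 0) fun i _ => hDQ i _ (hov.reg.2 (hloc.reg (κ i)))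
    simpa using h4
  have h4 : Ge Q 0 (algebraMap L K (η fun i => Ez (κ i))) :=
    hov.reg.2 (hreg _ hP _ fun i => hloc.pres (κ i))
  simpa using h3.mul h4

end

end Pool.Agent.T2h13.AF
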