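import Pool.Agent.N145.SX.Stm
import Pool.Agent.T2h13.AF.Tr
import Pool.Agent.T2h13.AF.Alg

/-!
The trace of a canonical form of the base as an alternating form on the total space.
-/

set_option autoImplicit false
set_option linter.overlappingInstances false
set_option linter.unusedSectionVars false
set_option maxHeartbeats 4000000
set_option synthInstance.maxHeartbeats 400000

open FF Pool.Agent.W603.LV Pool.Agent.Y184.NT Pool.Agent.N162.BC IntermediateField MvPolynomial
open Pool.Agent.W602.GT Pool.Agent.W619.PQ Pool.Agent.Y172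
open Pool.Agent.N145.SX (HX SepX)
open Module (finrank)

namespace Pool.Agent.T2h13.AF

section

variable {k K Ω : Type} [Field k] [CharZero k] [Field K] [Algebra k K] [Field Ω] [Algebra k Ω]
  [Algebra K Ω] [IsScalarTower k K Ω] [Algebra.IsAlgebraic K Ω]

theorem ext_unique {d : ℕ} (hd : Algebra.trdeg k K = d) {D' D'' : Derivation k Ω Ω}
    (h : ∀ f : K, D' (algebraMap K Ω f) = D'' (algebraMap K Ω f)) : D' = D'' := by
  obtain ⟨y, hy⟩ := Pool.Agent.Y173.QA.exists_tb hd
  have hyΩ : IsTranscendenceBasis k (fun j => algebraMap K Ω (y j)) := hy.algebraMap_comp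
  apply sub_eq_zero.1
  apply der_bas hyΩ
  intro i
  rw [Derivation.sub_apply, h, sub_self]

end

section

variable {M M' N : Type} {K : Type} [Field K] [AddCommGroup M] [AddCommGroup M'] [AddCommGroup N]
  [Module K M] [Module K M'] [Module K N] {n q : ℕ}

theorem extend_update (e : Fin q ↪ Fin n) (z : Fin n → M) (u : Fin q → M) (i : Fin q) (v : M) :
    Function.extend e (Function.update u i v) z = Function.update (Function.extend e u z) (e i) v := by
  classical
  funext p
  by_cases hp : ∃ k, e k = p
  · obtain ⟨k, rfl⟩ := hp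
    rw [e.injective.extend_apply]
    by_cases hk : k = i
    · subst hk
      rw [Function.update_self, Function.update_self]
    · rw [Function.update_of_ne hk, Function.update_of_ne (fun h => hk (e.injective h)),
        e.injective.extend_apply]
  · rw [Function.extend_apply' _ _ _ hp, Function.update_of_ne (fun h => hp ⟨i, h.symm⟩),
      Function.extend_apply' _ _ _ hp]

/-- an alternating form with some arguments fixed -/
noncomputable def part (T : M [⋀^Fin n]→ₗ[K] N) (ρ : M' →ₗ[K] M) (e : Fin q ↪ Fin n)
    (z : Fin n → M) : M' [⋀^Fin q]→ₗ[K] N where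
  toFun u := T (Function.extend e (fun i => ρ (u i)) z)
  map_update_add' := by
    intro hdec u i x y
    have hd : hdec = instDecidableEqFin q := Subsingleton.elim _ _
    subst hd
    have h1 : ∀ v, (fun j => ρ (Function.update u i v j)) =
        Function.update (fun j => ρ (u j)) i (ρ v) := by
      intro v
      funext j
      exact Function.apply_update (fun _ => ρ) u i v j
    rw [h1, h1, h1, extend_update, extend_update, extend_update, map_add, T.map_update_add]
  map_update_smul' := by
    intro hdec u i c x
    have hd : hdec = instDecidableEqFin q := Subsingleton.elim _ _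
    subst hd
    have h1 : ∀ v, (fun j => ρ (Function.update u i v j)) =
        Function.update (fun j => ρ (u j)) i (ρ v) := by
      intro v
      funext j
      exact Function.apply_update (fun _ => ρ) u i v j
    rw [h1, h1, extend_update, extend_update, map_smul, T.map_update_smul]
  map_eq_zero_of_eq' := by
    intro u i j hij hne
    refine T.map_eq_zero_of_eq _ (i := e i) (j := e j) ?_ (fun h => hne (e.injective h))
    rw [e.injective.extend_apply, e.injective.extend_apply, hij]

theorem part_apply (T : M [⋀^Fin n]→ₗ[K] N) (ρ : M' →ₗ[K] M) (e : Fin q ↪ Fin n)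
    (z : Fin n → M) (u : Fin q → M') :
    part T ρ e z u = T (Function.extend e (fun i => ρ (u i)) z) := rfl

end

section

variable {K : Type} [Field K] [Algebra ℂ K] [Algebra.EssFiniteType ℂ K] {w n : ℕ}
  {L : Type} [Field L] [Algebra ℂ L] [Algebra L K] [IsScalarTower ℂ L K] [FiniteDimensional L K]
  {E M : Type} [Field E] [Algebra ℂ E] [Algebra.EssFiniteType ℂ E] [Field M] [Algebra ℂ M]
  [Algebra E M] [IsScalarTower ℂ E M] [Algebra L M] [IsScalarTower ℂ L M] [FiniteDimensional L M]
  {Ω : Type} [Field Ω] [Algebra ℂ Ω] [Algebra K Ω] [IsScalarTower ℂ K Ω] [Algebra L Ω]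
  [IsScalarTower L K Ω] [IsScalarTower ℂ L Ω] [IsAlgClosed Ω] [Algebra.IsAlgebraic L Ω]
  [Algebra.IsAlgebraic K Ω]

/-- **The trace of a canonical form of the base.** -/
theorem exists_T (hp : StPull) (hE : Algebra.trdeg ℂ E = n) (hK : Algebra.trdeg ℂ K = w)
    {x : Fin n → E} (hx : IsTranscendenceBasis ℂ x) {f : E} (hf : f ∈ HX x (fun _ => False)) :
    ∃ T : (Derivation ℂ K K) [⋀^Fin n]→ₗ[K] K,
      (∀ (D : Fin n → Derivation ℂ K K) (D' : Fin n → Derivation ℂ Ω Ω),
        (∀ i f, D' i (algebraMap K Ω f) = algebraMap K Ω (D i f)) →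
        algebraMap K Ω (T D) = ∑ τ : M →ₐ[L] Ω,
          (Matrix.of fun p j => D' p (τ (algebraMap E M (x j))) :
            Matrix (Fin n) (Fin n) Ω).det * τ (algebraMap E M f)) ∧
      ∀ Q : Place ℂ K, Divisorial w Q → ∀ D : Fin n → Derivation ℂ K K,
        (∀ i, DerReg Q (D i)) → Q.Reg (T D) := by
  classical
  have hL : Algebra.trdeg ℂ L = w := Pool.Agent.Y184.NT.trdeg_below (K := K) hK
  have hessL : Algebra.EssFiniteType ℂ L := Pool.Agent.TH466.QG.ess_below (K := K)
  obtain ⟨εE, hε⟩ := Pool.Agent.Y173.QA.exists_duals hx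
  have hGF : GlobalForm n (trForm x f) :=
    ⟨trForm_pluri x f, fun P hP => (hf P hP).2 fun h => h⟩
  have hval : trForm x f εE = f := by
    unfold trForm
    have h1 : (Matrix.of fun i j => εE i (x j) : Matrix (Fin n) (Fin n) E) = 1 := by
      ext i j
      rw [Matrix.of_apply, hε, Matrix.one_apply]
    rw [h1, Matrix.det_one, one_mul]
  choose ext hext using fun D : Derivation ℂ K K => exists_ext (Ω := Ω) hK D
  have hext_add : ∀ D1 D2, ext (D1 + D2) = ext D1 + ext D2 := by
    intro D1 D2
    apply ext_unique (Ω := Ω) hK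
    intro f
    rw [Derivation.add_apply, hext, hext, hext, Derivation.add_apply, map_add]
  have hext_smul : ∀ (c : K) D1, ext (c • D1) = algebraMap K Ω c • ext D1 := by
    intro c D1
    apply ext_unique (Ω := Ω) hK
    intro f
    rw [Derivation.smul_apply, hext, hext, Derivation.smul_apply, smul_eq_mul, smul_eq_mul,
      map_mul]
  choose s hs1 hs2 using fun D : Fin n → Derivation ℂ K K => trace_eval (M := M) (K := K) (Ω := Ω)
    hp hE hL hx hε hGF D (fun i => ext (D i)) fun i f => hext (D i) f
  -- the value in the big field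
  obtain ⟨V, hV⟩ : ∃ V : (Fin n → Derivation ℂ Ω Ω) → Ω, ∀ D', V D' = ∑ τ : M →ₐ[L] Ω,
      (Matrix.of fun p j => D' p (τ (algebraMap E M (x j))) :
        Matrix (Fin n) (Fin n) Ω).det * τ (algebraMap E M f) := ⟨_, fun _ => rfl⟩
  have hsV : ∀ D, algebraMap K Ω (s D) = V fun i => ext (D i) := by
    intro D
    rw [hs1, hV, hval]
  have hrow : ∀ (τ : M →ₐ[L] Ω) (D : Fin n → Derivation ℂ Ω Ω) (i : Fin n)
      (X : Derivation ℂ Ω Ω), (Matrix.of fun p j => Function.update D i X p
        (τ (algebraMap E M (x j))) : Matrix (Fin n) (Fin n) Ω) =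
      Matrix.updateRow (Matrix.of fun p j => D p (τ (algebraMap E M (x j)))) i
        (fun j => X (τ (algebraMap E M (x j)))) := by
    intro τ D i X
    ext p j
    by_cases hp : p = i
    · subst hp
      rw [Matrix.of_apply, Function.update_self, Matrix.updateRow_self]
    · rw [Matrix.of_apply, Function.update_of_ne hp, Matrix.updateRow_ne hp, Matrix.of_apply]
  have hupd : ∀ (D : Fin n → Derivation ℂ K K) (i : Fin n) (X : Derivation ℂ K K),
      (fun p => ext (Function.update D i X p)) =
        Function.update (fun p => ext (D p)) i (ext X) := by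
    intro D i X
    funext p
    exact Function.apply_update (fun _ => ext) D i X p
  obtain ⟨T, hT⟩ : ∃ T : (Derivation ℂ K K) [⋀^Fin n]→ₗ[K] K, ∀ D, T D = s D := by
    refine ⟨{ toFun := s
              map_update_add' := ?_
              map_update_smul' := ?_
              map_eq_zero_of_eq' := ?_ }, fun D => rfl⟩
    · intro hdec D i a c
      have hd : hdec = instDecidableEqFin n := Subsingleton.elim _ _
      subst hd
      apply (algebraMap K Ω).injective
      rw [map_add, hsV, hsV, hsV, hupd, hupd, hupd, hext_add, hV, hV, hV,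
        ← Finset.sum_add_distrib]
      refine Finset.sum_congr rfl fun τ _ => ?_
      rw [hrow, hrow, hrow, ← add_mul]
      congr 1
      rw [← Matrix.det_updateRow_add]
      rfl
    · intro hdec D i a c
      have hd : hdec = instDecidableEqFin n := Subsingleton.elim _ _
      subst hd
      apply (algebraMap K Ω).injective
      rw [smul_eq_mul, map_mul, hsV, hsV, hupd, hupd, hext_smul, hV, hV, Finset.mul_sum]
      refine Finset.sum_congr rfl fun τ _ => ?_
      rw [hrow, hrow, ← mul_assoc]
      congr 1
      rw [← Matrix.det_updateRow_smul]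
      rfl
    · intro D i j hij hne
      apply (algebraMap K Ω).injective
      rw [map_zero]
      change algebraMap K Ω (s D) = 0
      rw [hsV, hV]
      refine Finset.sum_eq_zero fun τ _ => ?_
      rw [Matrix.det_zero_of_row_eq hne (by
        funext l
        rw [Matrix.of_apply, Matrix.of_apply, hij]), zero_mul]
  refine ⟨T, fun D D' hD => ?_, fun Q hQ D hD => ?_⟩
  · have h1 : D' = fun i => ext (D i) := by
      funext i
      apply ext_unique (Ω := Ω) hK
      intro f
      rw [hD, hext]
    rw [hT, hsV, h1, hV]
  · rw [hT]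
    exact hs2 D Q (by exact hQ) hD

end

end Pool.Agent.T2h13.AF
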